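import Pool.Agent.H62.TV.Asm
import Pool.Agent.H62.VC.Conj

/-!
Reduction of the pseudo-Anosov braids, and powers.
-/

set_option autoImplicit false

namespace Pool.Agent.H62.TV

open Pool.Agent.V11115.VC (ev ev_cons ev_nil lt mat)
open Pool.Agent.H62.VC (lett ev_append Cw pA_conj D_even')

/-- letters as pairs of a number and a sign -/
def enc (l : Bool × Bool) : ℕ × Bool := (if l.1 then 1 else 0, l.2)

section
variable {G : Type} [Group G] (a b : G)

lemma ev_enc (w : List (Bool × Bool)) : ev a b (w.map enc) = vlu a b w := by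
  unfold ev vlu
  rw [List.map_map]
  congr 1
  refine List.map_congr_left fun l _ => ?_
  rcases l with ⟨_ | _, _ | _⟩ <;> simp [lt, enc]

lemma vlu_append (u w : List (Bool × Bool)) : vlu a b (u ++ w) = vlu a b u * vlu a b w := by
  unfold vlu
  rw [List.map_append, List.prod_append]

lemma vlu_pow (u : List (Bool × Bool)) (k : ℕ) :
    vlu a b (List.replicate k u).flatten = vlu a b u ^ k := by
  induction k with
  | zero => simp [vlu]
  | succ k ih => rw [List.replicate_succ, List.flatten_cons, vlu_append, ih, pow_succ']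

end

/-- the word of a list of pairs -/
def wd (l : List (ℕ × ℕ)) : List (Bool × Bool) := (alt l).map fun c => (c, c)

/-- pairs -/
def pairUp : List ℕ → List (ℕ × ℕ)
  | p :: q :: bs => (p, q) :: pairUp bs
  | _ => []

lemma pairUp_alt : ∀ (r : ℕ) (bs : List ℕ), bs.length = 2 * r →
    Pool.Agent.H62.VC.alt true bs = (wd (pairUp bs)).map enc := by
  intro r
  induction r with
  | zero =>
    intro bs hbs
    have : bs = [] := List.length_eq_zero_iff.1 (by omega)
    subst this
    rfl
  | succ r ih =>
    intro bs hbs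
    obtain ⟨p, q, bs', rfl⟩ : ∃ p q bs', bs = p :: q :: bs' := by
      match bs, hbs with
      | p :: q :: bs', _ => exact ⟨p, q, bs', rfl⟩
      | [_], h => simp at h; omega
      | [], h => simp at h
    have h1 := ih bs' (by simp only [List.length_cons] at hbs; omega)
    have e1 : Pool.Agent.H62.VC.alt true (p :: q :: bs') =
        List.replicate p (lett true) ++ (List.replicate q (lett false) ++
          Pool.Agent.H62.VC.alt true bs') := rfl
    rw [e1, h1]
    unfold wd
    rw [pairUp, alt]
    simp [enc, lett]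

lemma pairUp_ok {A : ℕ} : ∀ (r : ℕ) (bs : List ℕ), bs.length = 2 * r → (∀ b ∈ bs, 1 ≤ b ∧ b ≤ A) →
    Ok A (pairUp bs) ∧ (pairUp bs).length = r := by
  intro r
  induction r with
  | zero =>
    intro bs hbs _
    have : bs = [] := List.length_eq_zero_iff.1 (by omega)
    subst this
    exact ⟨fun a ha => by simp [pairUp] at ha, rfl⟩
  | succ r ih =>
    intro bs hbs h
    obtain ⟨p, q, bs', rfl⟩ : ∃ p q bs', bs = p :: q :: bs' := by
      match bs, hbs with
      | p :: q :: bs', _ => exact ⟨p, q, bs', rfl⟩
      | [_], h => simp at h; omega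
      | [], h => simp at h
    obtain ⟨h1, h2⟩ := ih bs' (by simp only [List.length_cons] at hbs; omega)
      fun b hb => h b (by simp [hb])
    rw [pairUp]
    refine ⟨fun a ha => ?_, by rw [List.length_cons, h2]⟩
    rcases List.mem_cons.1 ha with rfl | ha
    · have hp := h p (by simp)
      have hq := h q (by simp)
      exact ⟨hp.1, hp.2, hq.1, hq.2⟩
    · exact h1 a ha

/-- **pseudo-Anosov braids** -/
theorem pA_red (u : List (Bool × Bool)) (htr : 2 < |(mat (u.map enc)).trace|) :
    ∃ (i : ℤ) (l : List (ℕ × ℕ)), l ≠ [] ∧ Ok u.length l ∧ ∃ v : List (ℕ × Bool),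
      ∀ (G : Type) [Group G] (a b : G), a * b * a = b * a * b →
        vlu a b u = ev a b v * ((a * b * a) ^ (2 * i) * vlu a b (wd l)) * (ev a b v)⁻¹ := by
  have hu : ∀ l ∈ u.map enc, l.1 < 2 := by
    intro l hl
    rw [List.mem_map] at hl
    obtain ⟨l', _, rfl⟩ := hl
    unfold enc
    split_ifs <;> simp
  obtain ⟨i, s, bs, r, h1, h2, h3, v, hv⟩ := pA_conj (u.map enc) hu htr
  rw [List.length_map] at h1
  cases s
  · obtain ⟨b1, bs', rfl⟩ : ∃ b1 bs', bs = b1 :: bs' := by
      cases bs with
      | nil => simp at h3; omega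
      | cons b bs => exact ⟨b, bs, rfl⟩
    have hlen : (bs' ++ [b1]).length = 2 * r := by
      simp only [List.length_cons] at h3
      simp only [List.length_append, List.length_cons, List.length_nil]
      omega
    have hb : ∀ b ∈ bs' ++ [b1], 1 ≤ b ∧ b ≤ u.length := by
      intro b hb
      apply h1
      rw [List.mem_append] at hb
      simp at hb ⊢
      tauto
    obtain ⟨h4, h5⟩ := pairUp_ok r _ hlen hb
    refine ⟨i, pairUp (bs' ++ [b1]), ?_, h4, v ++ List.replicate b1 (lett false), ?_⟩
    · intro h
      rw [h] at h5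
      simp at h5
      omega
    · intro G _ a b hrel
      have h6 := hv G a b hrel
      rw [_root_.zpow_zero, one_mul, ev_enc] at h6
      have e1 : Pool.Agent.H62.VC.alt false (b1 :: bs') =
          List.replicate b1 (lett false) ++ Pool.Agent.H62.VC.alt true bs' := rfl
      have hsg : Pool.Agent.H62.VC.sg bs'.length true = false := by
        unfold Pool.Agent.H62.VC.sg
        rw [if_neg]
        · rfl
        · simp only [List.length_cons] at h3
          omega
      have e2 : Pool.Agent.H62.VC.alt true (bs' ++ [b1]) =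
          Pool.Agent.H62.VC.alt true bs' ++ List.replicate b1 (lett false) := by
        rw [Pool.Agent.H62.VC.alt_append, hsg]
        simp [Pool.Agent.H62.VC.alt]
      have e3 := pairUp_alt r _ hlen
      rw [← ev_enc, ← ev_enc a b (wd _), ← e3, e2, ev_append, ev_append, ev_enc]
      rw [e1, ev_append] at h6
      rw [h6]
      have h7 := D_even' hrel i (ev a b (List.replicate b1 (lett false))) ⟨_, rfl⟩
      set X := ev a b (List.replicate b1 (lett false))
      set Y := ev a b (Pool.Agent.H62.VC.alt true bs')
      set D := (a * b * a) ^ (2 * i)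
      set V := ev a b v
      calc V * (D * (X * Y)) * V⁻¹ = V * ((D * X) * Y) * V⁻¹ := by group
        _ = V * ((X * D) * Y) * V⁻¹ := by rw [h7]
        _ = V * X * (D * (Y * X)) * (V * X)⁻¹ := by group
  · obtain ⟨h4, h5⟩ := pairUp_ok r _ h3 h1
    refine ⟨i, pairUp bs, ?_, h4, v, ?_⟩
    · intro h
      rw [h] at h5
      simp at h5
      omega
    · intro G _ a b hrel
      have h6 := hv G a b hrel
      rw [_root_.zpow_zero, one_mul, ev_enc] at h6
      rw [h6, pairUp_alt r _ h3, ev_enc]

lemma alt_flatten (l : List (ℕ × ℕ)) : ∀ k : ℕ,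
    wd (List.replicate k l).flatten = (List.replicate k (wd l)).flatten := by
  have happ : ∀ l l' : List (ℕ × ℕ), alt (l ++ l') = alt l ++ alt l' := by
    intro l l'
    induction l with
    | nil => rfl
    | cons a l ih =>
      obtain ⟨p, q⟩ := a
      simp [alt, ih]
  intro k
  induction k with
  | zero => rfl
  | succ k ih =>
    rw [List.replicate_succ, List.flatten_cons, List.replicate_succ, List.flatten_cons, ← ih]
    unfold wd
    rw [happ, List.map_append]

/-- powers -/
theorem pA_pow (u : List (Bool × Bool)) (htr : 2 < |(mat (u.map enc)).trace|) :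
    ∃ (i : ℤ) (l : List (ℕ × ℕ)), l ≠ [] ∧ Ok u.length l ∧ ∀ k : ℕ,
      ∀ (G : Type) [Group G] (a b : G), a * b * a = b * a * b → ∃ g : G,
        vlu a b (List.replicate k u).flatten =
          g * ((a * b * a) ^ (2 * (i * k)) * vlu a b (wd (List.replicate k l).flatten)) * g⁻¹ := by
  obtain ⟨i, l, h1, h2, v, hv⟩ := pA_red u htr
  refine ⟨i, l, h1, h2, fun k G _ a b hrel => ⟨ev a b v, ?_⟩⟩
  have h3 := D_even' hrel i (ev a b ((wd l).map enc)) ⟨_, rfl⟩
  rw [ev_enc] at h3
  have hc : Commute ((a * b * a) ^ (2 * i)) (vlu a b (wd l)) := h3.symm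
  rw [vlu_pow, hv G a b hrel, conj_pow, hc.mul_pow, alt_flatten, vlu_pow]
  congr 3
  rw [← zpow_natCast, ← zpow_mul]
  congr 1
  ring

/-- **growth for the powers of a pseudo-Anosov braid** -/
theorem tv_pow (u : List (Bool × Bool)) (htr : 2 < |(mat (u.map enc)).trace|) (k : ℕ)
    (hk : 1 ≤ k) : ∀ᶠ r : ℕ in Filter.atTop ⊓ Filter.principal {r : ℕ | Odd r},
    (k : ℝ) / (10 ^ 25 * ((u.length : ℝ) + 1) ^ 6) ≤ 2 * Real.pi / ((r : ℝ) - 2) *
      Real.log (Pool.Agent.Y482.CW.tvw (List.replicate k u).flatten r) := by
  obtain ⟨i, l, h1, h2, h3⟩ := pA_pow u htr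
  have hA : 1 ≤ u.length := by
    cases l with
    | nil => exact absurd rfl h1
    | cons a l =>
      have := h2 a List.mem_cons_self
      omega
  have hlen : (List.replicate k l).flatten.length = k * l.length := by
    simp [List.length_flatten]
  have hl1 : 1 ≤ l.length := List.length_pos_iff.2 h1
  have hne : (List.replicate k l).flatten ≠ [] := by
    intro h
    have h4 := congrArg List.length h
    rw [hlen, List.length_nil] at h4
    have := Nat.mul_pos hk hl1
    omega
  have hok : Ok u.length (List.replicate k l).flatten := by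
    intro a ha
    rw [List.mem_flatten] at ha
    obtain ⟨l', hl', ha'⟩ := ha
    rw [List.eq_of_mem_replicate hl'] at ha'
    exact h2 a ha'
  have h4 := tv_growth hA hok hne (h3 k)
  filter_upwards [h4] with r hr
  refine le_trans ?_ hr
  refine div_le_div_of_nonneg_right ?_ (by positivity)
  rw [hlen]
  exact_mod_cast Nat.le_mul_of_pos_right k hl1

end Pool.Agent.H62.TV
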