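import Pool.Agent.H62.TV.Pt2

/-!
The trace of an alternating word.
-/

set_option autoImplicit false

namespace Pool.Agent.H62.TV

open Finset Metric
open Pool.Agent.H550R3.Jones (br brf)
open Pool.Agent.Y482.CY (sb Nz)
open Pool.Agent.H62.VC (Ev Ev_cons Ev_congr Ev_mul Ev_eq Ev_prod ec ec_zero factor)

attribute [local irreducible] AA Bm nn gw JR

variable {v t : ℂ} {K : ℕ} {e : ℝ} {m xc zc : ℝ} {w : List Bool}

lemma prod_ge' {N : ℝ} (hN : 0 ≤ N) : ∀ L : List ℂ, (∀ z ∈ L, N ≤ ‖z‖) → N ^ L.length ≤ ‖L.prod‖ := by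
  intro L
  induction L with
  | nil => intro _; simp
  | cons z L ih =>
    intro h
    rw [List.prod_cons, norm_mul, List.length_cons, pow_succ, mul_comm]
    exact mul_le_mul (h z List.mem_cons_self) (ih fun z' h' => h z' (List.mem_cons_of_mem _ h'))
      (by positivity) (norm_nonneg _)

lemma Dat.cl_bound (h : Dat v t K e m w xc zc) {g : ℂ} {Ω : List ℂ} (hB : BB g ≤ 3 * m)
    (h4 : Cl Ω g (0 + 18 / 5 * e * BB g)) (hg : ‖g‖ ≤ 2 * zc) : ∀ ω ∈ Ω,
    ‖ω - g‖ ≤ 1 / 10 ^ 9 * zc := by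
  intro ω hω
  have he0 := h.pr.e0
  have hem := h.em1
  have hz1 := h.z1
  have h1 := h4 ω hω
  have h2 := mul_le_mul_of_nonneg_left hB (by positivity : 0 ≤ 18 / 5 * e)
  have h3 : 0 + 18 / 5 * e * BB g ≤ 1 / 10 ^ 9 / 2 := by linarith
  have h5 : (0 + 18 / 5 * e * BB g) * ‖g‖ ≤ 1 / 10 ^ 9 / 2 * (2 * zc) :=
    mul_le_mul h3 hg (norm_nonneg _) (by norm_num)
  linarith

/-- **the trace** -/
theorem Dat.trace (h : Dat v t K e m w xc zc) (hK : 1000000 ≤ K) {s : ℕ} (hs : 1 ≤ s)
    (hJl : (9 / 5) ^ s ≤ Jl (zc : ℂ) w) :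
    (1 / 10) * ((5 / 3) ^ s) ^ K ≤ ‖∑ d ∈ range (K + 1), Bm v t K w d d‖ := by
  have hz1 := h.z1
  have hzp : 0 < zc := by linarith
  have hxp := h.xpos
  have hxm := h.xm
  have he0 := h.pr.e0
  have hem := h.em1
  have hm := h.m1
  have hzn : ‖(zc : ℂ)‖ = zc := by rw [Complex.norm_real, Real.norm_of_nonneg hzp.le]
  obtain ⟨a, b, ha, hb, h01, h10⟩ := h.crit
  set N := ‖a + b‖ with hN
  have hN1 : N ≤ 100001 / 100000 * (zc + xc) := by
    have h1 := norm_add_le a b
    have h2 := (near_norm hzp.le ha).2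
    have h3 := (near_norm hxp.le hb).2
    linarith
  have hN2 : 99999 / 100000 * (zc + xc) ≤ N := by
    have h1 := Complex.re_le_norm (a + b)
    rw [Complex.add_re] at h1
    have h2 := (near_re ha).1
    have h3 := (near_re hb).1
    linarith
  have hNp : 0 < N := by nlinarith
  have hab : a + b ≠ 0 := norm_pos_iff.1 hNp
  have hcong : ∀ (L : List ℂ), L.length = K → ∀ y : ℕ → ℂ,
      Ev L (mulv K (Bm v t K w) y) = Ev L (TW v t K w y) := by
    intro L hL y
    exact Ev_congr _ fun d hd => (TW_Bm _ w d (by omega)).symm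
  have key := trace_ge hK (Bm v t K w) hab (ρ := 1 / 100) (θ := 1 / 625) (by norm_num)
    (by norm_num) (by norm_num) (by norm_num) (by
      intro s hs
      have h1s : 99 / 100 ≤ ‖1 - s‖ := by
        have := norm_sub_norm_le (1 : ℂ) s
        rw [norm_one] at this
        linarith
      have h1s0 : 1 - s ≠ 0 := by
        intro h0
        rw [h0, norm_zero] at h1s
        linarith
      set z := (a + b * s) / (1 - s) with hz
      have hza : ‖z - a‖ ≤ 1 / 99 * N := by
        have e1 : z - a = s * (a + b) / (1 - s) := by rw [hz]; field_simp; ring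
        rw [e1, norm_div, norm_mul, ← hN, div_le_iff₀ (by linarith)]
        have : ‖s‖ * N ≤ 1 / 100 * N := mul_le_mul_of_nonneg_right hs.le hNp.le
        nlinarith
      have hzz : ‖z - zc‖ ≤ 1 / 100000 * zc + 1 / 99 * N := by
        have h1 := norm_add_le (z - a) (a - zc)
        rw [sub_add_sub_cancel] at h1
        linarith
      have hzz2 : ‖z - zc‖ ≤ 1 / 40 * zc := by linarith
      obtain ⟨ho, hg⟩ := orb_of_real h.m1 (by norm_num : (0 : ℝ) ≤ 1 / 40) (by norm_num) w zc z h.ow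
        hzz2
      rw [h.fw] at hg
      have hcon := gw_contr1 (w := w) hzp (by norm_num : (1 / 40 : ℝ) < 1) hzz2
        (by norm_num : (0 : ℝ) < 13 / 5) (by rw [JR_eq w hzp.le]; exact h.J1)
      rw [gw_real, h.fw] at hcon
      obtain ⟨c, Ω, h1, h2, h3, h4⟩ := h.pr.word (b := 3 * m) (ρ := 0) le_rfl
        (by nlinarith) w z ho (List.replicate K z) (List.length_replicate ..)
        (Cl_replicate (by
          rw [sub_self, norm_zero]
          have := BB_nonneg z
          positivity))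
      refine ⟨c, Ω, ?_, h1, ?_, ?_⟩
      · rintro rfl
        rw [norm_zero] at h3
        have := pow_pos (Jl_pos w z) K
        linarith
      · intro y
        rw [hcong _ (List.length_replicate ..), h2]
      · intro ω hω
        set g := gw w z with hgdef
        have hgn : ‖g‖ ≤ 2 * zc := by
          have := (near_norm hzp.le hg).2
          linarith
        have h5 := h.cl_bound ho.last.2 h4 hgn ω hω
        have h6 : ‖ω - a‖ ≤ ‖ω - g‖ + ‖g - zc‖ + ‖a - zc‖ := by
          have k1 := norm_sub_le ((ω - g) + (g - zc)) (a - zc)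
          have k2 := norm_add_le (ω - g) (g - zc)
          have e1 : (ω - g) + (g - zc) - (a - zc) = ω - a := by ring
          rw [e1] at k1
          linarith
        have h7 : ‖g - zc‖ ≤ (1 / 100000 * zc + 1 / 99 * N) / (6591 / 1000) := by
          refine hcon.trans ?_
          have e1 : (1 - 1 / 40 : ℝ) * (13 / 5) ^ 2 = 6591 / 1000 := by norm_num
          rw [e1]
          exact div_le_div_of_nonneg_right hzz (by norm_num)
        have h8 : N ≤ ‖ω + b‖ + ‖ω - a‖ := by
          have k1 := norm_sub_le (ω + b) (ω - a)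
          have e1 : (ω + b) - (ω - a) = a + b := by ring
          rw [e1] at k1
          exact k1
        have h9 : ‖ω - a‖ ≤ 155 / 100000 * N := by
          have : zc ≤ 100002 / 100000 * N := by linarith
          linarith
        linarith)
    h10 h01
  refine le_trans ?_ key
  refine mul_le_mul_of_nonneg_left ?_ (by norm_num)
  -- the value at the critical point
  obtain ⟨ho, _⟩ := orb_of_real h.m1 le_rfl (by norm_num) w zc (zc : ℂ) h.ow (by simp)
  obtain ⟨c, Ω, h1, h2, h3, h4⟩ := h.pr.word (b := 3 * m) (ρ := 1 / 100000) (by norm_num)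
    (by nlinarith) w (zc : ℂ) ho (List.replicate K a) (List.length_replicate ..)
    (Cl_replicate (by
      rw [hzn]
      have := BB_nonneg (zc : ℂ)
      have h6 : 0 ≤ 18 / 5 * e * BB (zc : ℂ) * zc := by positivity
      nlinarith))
  have hA : nn K (Bm v t K w) a b 0 0 = c * (Ω.map fun ω => b + ω).prod := by
    rw [nn_zero, AA_eq, hcong _ (List.length_replicate ..), h2, ← Ev_prod, h1]; rfl
  have hprod : (99 / 100 * N) ^ K ≤ ‖(Ω.map fun ω => b + ω).prod‖ := by
    have := prod_ge' (N := 99 / 100 * N) (by positivity) (Ω.map fun ω => b + ω) (by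
      intro z hz
      rw [List.mem_map] at hz
      obtain ⟨ω, hω, rfl⟩ := hz
      have h5 := h4 ω hω
      rw [gw_real, h.fw, hzn] at h5
      have hB : BB (zc : ℂ) ≤ 3 * m := ho.head.2
      have h7 : (1 / 100000 + 18 / 5 * e * BB (zc : ℂ)) ≤ 2 / 100000 := by
        have := mul_le_mul_of_nonneg_left hB (by positivity : 0 ≤ 18 / 5 * e)
        linarith
      have h8 : ‖ω - zc‖ ≤ 2 / 100000 * zc := h5.trans (mul_le_mul_of_nonneg_right h7 hzp.le)
      have h9 : N ≤ ‖b + ω‖ + ‖ω - a‖ := by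
        have k1 := norm_sub_le (b + ω) (ω - a)
        have e1 : (b + ω) - (ω - a) = a + b := by ring
        rw [e1] at k1
        exact k1
      have h10 : ‖ω - a‖ ≤ ‖ω - zc‖ + ‖a - zc‖ := by
        have := norm_sub_le (ω - zc) (a - zc)
        rwa [sub_sub_sub_cancel_right] at this
      have : zc ≤ 100002 / 100000 * N := by linarith
      linarith)
    rwa [List.length_map, h1] at this
  rw [hA, norm_mul, le_div_iff₀ (by positivity)]
  have h5 : ((5 / 3 : ℝ) ^ s) ≤ Jl (zc : ℂ) w * (99 / 100) := by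
    have h6 : (27 / 25 : ℝ) ≤ (27 / 25) ^ s := by
      have := pow_le_pow_right₀ (by norm_num : (1 : ℝ) ≤ 27 / 25) hs
      rwa [pow_one] at this
    have h7 : (9 / 5 : ℝ) ^ s = (5 / 3) ^ s * (27 / 25) ^ s := by
      rw [← mul_pow]; norm_num
    have h8 : (0 : ℝ) < (5 / 3) ^ s := by positivity
    rw [h7] at hJl
    nlinarith
  calc ((5 / 3 : ℝ) ^ s) ^ K * N ^ K = (((5 / 3 : ℝ) ^ s) * N) ^ K := by rw [mul_pow]
    _ ≤ (Jl (zc : ℂ) w * (99 / 100) * N) ^ K :=
        pow_le_pow_left₀ (by positivity) (mul_le_mul_of_nonneg_right h5 hNp.le) K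
    _ = Jl (zc : ℂ) w ^ K * (99 / 100 * N) ^ K := by rw [← mul_pow]; congr 1; ring
    _ ≤ ‖c‖ * ‖(Ω.map fun ω => b + ω).prod‖ :=
        mul_le_mul h3 hprod (by positivity) (norm_nonneg _)

/-- **alternating words** -/
theorem trace_alt (hp : Pr v t K e) (hK : 1000000 ≤ K) {A : ℕ} (hA : 1 ≤ A)
    (he : e * ((A : ℝ) + 1) ^ 3 ≤ 1 / 10 ^ 11) {l : List (ℕ × ℕ)} (hl : Ok A l) (hne : l ≠ []) :
    (1 / 10) * ((5 / 3) ^ l.length) ^ K ≤ ‖∑ d ∈ range (K + 1), Bm v t K (alt l) d d‖ := by
  obtain ⟨zc, z1, z2, z3⟩ := fix_alt hl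
  have hl' : Ok A l.reverse := fun a ha => hl a (List.mem_reverse.1 ha)
  obtain ⟨xc, x1, x2, x3⟩ := fix_altr hl'
  have hlen : 1 ≤ l.length := List.length_pos_iff.2 hne
  have hA0 : (0 : ℝ) ≤ A := Nat.cast_nonneg A
  have hd : Dat v t K e ((A : ℝ) + 1) (alt l) xc zc := by
    refine ⟨hp, by omega, by linarith, he, z1, z2, x1, x2, (RO_alt hl z1 z2).1, ?_, z3, ?_,
      JR_fix hl hne z1 z2 z3, ?_⟩
    · rw [alt_reverse]; exact (RO_altr hl' x1 x2).1
    · rw [alt_reverse]; exact x3
    · rw [alt_reverse]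
      refine le_trans ?_ (JR_altr hl' x1 x2)
      rw [List.length_reverse]
      have := pow_le_pow_right₀ (by norm_num : (1 : ℝ) ≤ 2) hlen
      rwa [pow_one] at this
  exact hd.trace hK hlen (Jl_alt hl z1 z2)

end Pool.Agent.H62.TV
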