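import Pool.Agent.H62.TV.Grp

/-!
Exponential growth of the Turaev-Viro invariants.
-/

set_option autoImplicit false

namespace Pool.Agent.H62.TV

open Finset Filter
open Pool.Agent.H550R3.Jones (br brf)
open Pool.Agent.W707.TV (vh Rh)
open Pool.Agent.Y482.CY (Nz)
open Pool.Agent.Y482.CW (tvw)
open Pool.Agent.Y80.CY (vh_eq vh_prim vh_ne vh_norm vh_br)
open Pool.Agent.H239.TV (nz2)
open scoped Real Topology

/-- the square root of `vh M` -/
noncomputable def sh (M : ℕ) : ℂ := Complex.exp (Complex.I * ((π / (2 * M + 1 : ℝ) : ℝ) : ℂ))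

lemma sh_norm (M : ℕ) : ‖sh M‖ = 1 := by
  unfold sh
  rw [mul_comm]
  exact Complex.norm_exp_ofReal_mul_I _

lemma sh_ne (M : ℕ) : sh M ≠ 0 := Complex.exp_ne_zero _

lemma sh_sq (M : ℕ) : sh M ^ 2 = vh M := by
  rw [vh_eq]
  unfold sh
  rw [← Complex.exp_nat_mul]
  congr 1
  push_cast
  ring

lemma sh_pow (M : ℕ) : sh M ^ (2 * M + 1) = -1 := by
  unfold sh
  rw [← Complex.exp_nat_mul, ← Complex.exp_pi_mul_I]
  congr 1
  have : ((2 * M + 1 : ℕ) : ℂ) ≠ 0 := by exact_mod_cast Nat.succ_ne_zero (2 * M)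
  push_cast at this ⊢
  field_simp

lemma sh_sub (M : ℕ) : ‖sh M - 1‖ ≤ π / (2 * M + 1 : ℝ) := by
  have h := Real.norm_exp_I_mul_ofReal_sub_one_le (x := π / (2 * M + 1 : ℝ))
  have h0 : 0 ≤ π / (2 * M + 1 : ℝ) := by positivity
  rw [Real.norm_of_nonneg h0] at h
  exact h

lemma vh_sub (M : ℕ) : ‖vh M - 1‖ ≤ 2 * π / (2 * M + 1 : ℝ) := by
  have e1 : vh M - 1 = (sh M + 1) * (sh M - 1) := by rw [← sh_sq]; ring
  have h1 : ‖sh M + 1‖ ≤ 2 := by
    have := norm_add_le (sh M) 1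
    rw [sh_norm, norm_one] at this
    linarith
  rw [e1, norm_mul]
  have h2 := mul_le_mul h1 (sh_sub M) (norm_nonneg _) (by norm_num)
  refine h2.trans (le_of_eq ?_)
  ring

lemma vh_sq_sub (M : ℕ) : ‖vh M ^ 2 - 1‖ ≤ 4 * π / (2 * M + 1 : ℝ) := by
  have e1 : vh M ^ 2 - 1 = (vh M + 1) * (vh M - 1) := by ring
  have h1 : ‖vh M + 1‖ ≤ 2 := by
    have := norm_add_le (vh M) 1
    rw [vh_norm, norm_one] at this
    linarith
  rw [e1, norm_mul]
  have h2 := mul_le_mul h1 (vh_sub M) (norm_nonneg _) (by norm_num)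
  refine h2.trans (le_of_eq ?_)
  ring

/-- the colour -/
lemma exists_b (M K : ℕ) : ∃ b : ℕ, (2 * b = M + K + 1 ∨ 2 * b = M + K + 2) ∧
    ‖tt (vh M) b K‖ = 1 ∧ ‖tt (vh M) b K - 1‖ ≤ π / (2 * M + 1 : ℝ) := by
  have h0 := sh_ne M
  have hz : sh M ^ (2 * (M : ℤ) + 1) = -1 := by
    have := sh_pow M
    rw [← zpow_natCast] at this
    push_cast at this
    exact this
  have hvh : ∀ n : ℤ, vh M ^ n = sh M ^ (2 * n) := by
    intro n
    rw [← sh_sq, ← zpow_natCast, ← zpow_mul]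
    rfl
  rcases Nat.even_or_odd' (M + K + 1) with ⟨b, hb | hb⟩
  · refine ⟨b, Or.inl hb.symm, ?_⟩
    have e1 : tt (vh M) b K = sh M := by
      unfold tt
      have e2 : (K : ℤ) + 1 - 2 * b = -M := by
        have : ((M + K + 1 : ℕ) : ℤ) = 2 * (b : ℤ) := by rw [hb]; push_cast; ring
        push_cast at this
        omega
      rw [e2, hvh, ← neg_one_mul, ← hz, ← zpow_add₀ h0]
      have e3 : 2 * (M : ℤ) + 1 + 2 * -(M : ℤ) = 1 := by ring
      rw [e3, zpow_one]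
    rw [e1]
    exact ⟨sh_norm M, sh_sub M⟩
  · refine ⟨b + 1, Or.inr (by omega), ?_⟩
    have e1 : tt (vh M) (b + 1) K = (sh M)⁻¹ := by
      unfold tt
      have e2 : (K : ℤ) + 1 - 2 * ((b + 1 : ℕ) : ℤ) = -(M : ℤ) - 1 := by
        have : ((M + K + 1 : ℕ) : ℤ) = 2 * (b : ℤ) + 1 := by rw [hb]; push_cast; ring
        push_cast at this ⊢
        omega
      rw [e2, hvh, ← neg_one_mul, ← hz, ← zpow_add₀ h0]
      have e3 : 2 * (M : ℤ) + 1 + 2 * (-(M : ℤ) - 1) = -1 := by ring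
      rw [e3, zpow_neg, zpow_one]
    rw [e1]
    refine ⟨by rw [norm_inv, sh_norm, inv_one], ?_⟩
    have e4 : (sh M)⁻¹ - 1 = -((sh M)⁻¹ * (sh M - 1)) := by field_simp; ring
    rw [e4, norm_neg, norm_mul, norm_inv, sh_norm, inv_one, one_mul]
    exact sh_sub M

/-- the parameters -/
lemma pr_vh {M K : ℕ} {b : ℕ} {e : ℝ} (he0 : 0 < e) (he1 : e ≤ 1 / 40)
    (hM : 26 / e ≤ (2 * M + 1 : ℝ)) (hK : (K : ℝ) ≤ e ^ 2 * (2 * M + 1) / 2000)
    (hKM : K ≤ 2 * M) (ht1 : ‖tt (vh M) b K‖ = 1)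
    (ht : ‖tt (vh M) b K - 1‖ ≤ π / (2 * M + 1 : ℝ)) : Pr (vh M) (tt (vh M) b K) K e := by
  have hr : (0 : ℝ) < 2 * M + 1 := by positivity
  have hpi := Real.pi_lt_d2
  have hpi0 := Real.pi_pos
  have hMe : 26 ≤ e * (2 * M + 1 : ℝ) := by
    rw [div_le_iff₀ he0] at hM
    linarith
  refine ⟨vh_norm M, nz2 M K hKM, ht1, he0, he1, ?_, ?_, ?_⟩
  · refine ht.trans ?_
    rw [div_le_div_iff₀ hr (by norm_num)]
    nlinarith
  · have h1 := vh_sq_sub M
    calc (K : ℝ) * ‖vh M ^ 2 - 1‖ ≤ (e ^ 2 * (2 * M + 1) / 2000) * (4 * π / (2 * M + 1 : ℝ)) :=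
          mul_le_mul hK h1 (norm_nonneg _) (by positivity)
      _ = e ^ 2 * π / 500 := by field_simp; ring
      _ ≤ 3 * e ^ 2 / 400 := by
          have : 0 < e ^ 2 := by positivity
          nlinarith
  · have h1 := vh_sub M
    calc (K : ℝ) * ‖vh M - 1‖ ≤ (e ^ 2 * (2 * M + 1) / 2000) * (2 * π / (2 * M + 1 : ℝ)) :=
          mul_le_mul hK h1 (norm_nonneg _) (by positivity)
      _ = e * (e * π / 1000) := by field_simp; ring
      _ ≤ e * (1 / 8) := by
          refine mul_le_mul_of_nonneg_left ?_ he0.le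
          nlinarith
      _ = e / 8 := by ring

/-- one level -/
theorem tv_one {A : ℕ} (hA : 1 ≤ A) {l : List (ℕ × ℕ)} (hl : Ok A l) (hne : l ≠ [])
    {u : List (Bool × Bool)} {i : ℤ}
    (h : ∀ (G : Type) [Group G] (x y : G), x * y * x = y * x * y → ∃ g : G,
      vlu x y u = g * ((x * y * x) ^ (2 * i) * vlu x y ((alt l).map fun c => (c, c))) * g⁻¹)
    {e : ℝ} (he : e = 1 / (10 ^ 11 * ((A : ℝ) + 1) ^ 3)) {M K : ℕ}
    (hM : 26 / e ≤ (2 * M + 1 : ℝ)) (hK : (K : ℝ) ≤ e ^ 2 * (2 * M + 1) / 2000)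
    (hK2 : 1000000 ≤ K) :
    ((1 / 10) * ((5 / 3) ^ l.length) ^ K) ^ 2 ≤
      ((2 * M + 1 : ℕ) : ℝ) ^ 3 * tvw u (2 * M + 1) := by
  have hA0 : (0 : ℝ) ≤ A := Nat.cast_nonneg A
  have hA1 : (1 : ℝ) ≤ (A : ℝ) + 1 := by linarith
  have hA3 : (1 : ℝ) ≤ ((A : ℝ) + 1) ^ 3 := one_le_pow₀ hA1
  have he0 : 0 < e := by rw [he]; positivity
  have he1 : e ≤ 1 / 40 := by
    rw [he, div_le_div_iff₀ (by positivity) (by norm_num)]
    nlinarith
  have heA : e * ((A : ℝ) + 1) ^ 3 ≤ 1 / 10 ^ 11 := by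
    rw [he]
    apply le_of_eq
    field_simp
  have hKr : (K : ℝ) ≤ (2 * M + 1) / 100 := by
    refine hK.trans ?_
    have h1 : e ^ 2 ≤ 1 := by nlinarith
    have h2 : (0 : ℝ) ≤ 2 * M + 1 := by positivity
    nlinarith
  have hKM : 100 * K ≤ 2 * M + 1 := by
    have : (100 : ℝ) * K ≤ 2 * M + 1 := by linarith
    exact_mod_cast this
  obtain ⟨b, hb, ht1, ht⟩ := exists_b M K
  have hpr := pr_vh he0 he1 hM hK (by omega) ht1 ht
  have h1 := trace_alt hpr hK2 hA heA hl hne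
  rw [← word_trace (b := b) (vh_norm M), ← TW_conj (b := b) (vh_norm M) (vh_ne M) hpr.nz h] at h1
  have h2 := TWb_tvw u (b := b) (M := M) (K := K) (by omega) (by omega) (by omega) (by omega)
    (by omega)
  exact (pow_le_pow_left₀ (by positivity) h1 2).trans h2

/-- **exponential growth** -/
theorem tv_growth {A : ℕ} (hA : 1 ≤ A) {l : List (ℕ × ℕ)} (hl : Ok A l) (hne : l ≠ [])
    {u : List (Bool × Bool)} {i : ℤ}
    (h : ∀ (G : Type) [Group G] (x y : G), x * y * x = y * x * y → ∃ g : G,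
      vlu x y u = g * ((x * y * x) ^ (2 * i) * vlu x y ((alt l).map fun c => (c, c))) * g⁻¹) :
    ∀ᶠ r : ℕ in atTop ⊓ 𝓟 {r : ℕ | Odd r}, (l.length : ℝ) / (10 ^ 25 * ((A : ℝ) + 1) ^ 6) ≤
      2 * π / ((r : ℝ) - 2) * Real.log (tvw u r) := by
  have hA0 : (0 : ℝ) ≤ A := Nat.cast_nonneg A
  set e : ℝ := 1 / (10 ^ 11 * ((A : ℝ) + 1) ^ 3) with he
  have he0 : 0 < e := by rw [he]; positivity
  have hn1 : (1 : ℝ) ≤ l.length := by exact_mod_cast List.length_pos_iff.2 hne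
  set n : ℝ := (l.length : ℝ) with hn
  have hlog : ∀ᶠ r : ℕ in atTop, 3 * Real.log r + 5 + n ≤ n * e ^ 2 / 6000 * r := by
    have h1 : Tendsto (fun r : ℕ => Real.log r / (r : ℝ)) atTop (𝓝 0) := by
      have := Real.isLittleO_log_id_atTop.tendsto_div_nhds_zero
      exact this.comp tendsto_natCast_atTop_atTop
    have h2 : ∀ᶠ r : ℕ in atTop, Real.log r / (r : ℝ) < n * e ^ 2 / 36000 :=
      h1.eventually (gt_mem_nhds (by positivity))
    have h3 : ∀ᶠ r : ℕ in atTop, (5 + n) * (12000 / (n * e ^ 2)) ≤ (r : ℝ) :=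
      tendsto_natCast_atTop_atTop.eventually_ge_atTop _
    filter_upwards [h2, h3, eventually_gt_atTop 0] with r h4 h5 h6
    have hr0 : (0 : ℝ) < r := by exact_mod_cast h6
    rw [div_lt_iff₀ hr0] at h4
    have h7 : 5 + n ≤ n * e ^ 2 / 12000 * r := by
      have h8 : (5 + n) * (12000 / (n * e ^ 2)) = (5 + n) / (n * e ^ 2 / 12000) := by
        field_simp
      rw [h8, div_le_iff₀ (by positivity)] at h5
      linarith
    linarith
  have hbig : ∀ᶠ r : ℕ in atTop, max (26 / e) (1000001 * (2000 / e ^ 2)) ≤ (r : ℝ) :=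
    tendsto_natCast_atTop_atTop.eventually_ge_atTop _
  rw [Filter.eventually_inf_principal]
  filter_upwards [hlog, hbig] with r h1 h2 hodd
  obtain ⟨M, rfl⟩ := hodd
  have h3 : 26 / e ≤ ((2 * M + 1 : ℕ) : ℝ) := (le_max_left _ _).trans h2
  have h4 : 1000001 * (2000 / e ^ 2) ≤ ((2 * M + 1 : ℕ) : ℝ) := (le_max_right _ _).trans h2
  have hrc : ((2 * M + 1 : ℕ) : ℝ) = 2 * (M : ℝ) + 1 := by push_cast; ring
  set K : ℕ := ⌊e ^ 2 * (2 * (M : ℝ) + 1) / 2000⌋₊ with hK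
  have hK1 : (K : ℝ) ≤ e ^ 2 * (2 * (M : ℝ) + 1) / 2000 := Nat.floor_le (by positivity)
  have hK3 : e ^ 2 * (2 * (M : ℝ) + 1) / 2000 < K + 1 := Nat.lt_floor_add_one _
  have hK2 : 1000000 ≤ K := by
    have h5 : (1000001 : ℝ) ≤ e ^ 2 * (2 * (M : ℝ) + 1) / 2000 := by
      rw [hrc] at h4
      have h6 : 1000001 * (2000 / e ^ 2) = 1000001 * 2000 / e ^ 2 := by ring
      rw [h6, div_le_iff₀ (by positivity)] at h4
      linarith
    have h6 : (1000000 : ℝ) < K := by linarith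
    have : (1000000 : ℕ) < K := by exact_mod_cast h6
    omega
  have key := tv_one hA hl hne h he (by rw [← hrc]; exact h3) hK1 hK2
  set r : ℝ := ((2 * M + 1 : ℕ) : ℝ) with hr
  have hr0 : 0 < r := by rw [hr]; positivity
  have hrbig : 1000000 ≤ r := by
    have h5 : (1000001 : ℝ) * 2000 ≤ 1000001 * (2000 / e ^ 2) := by
      have he2 : e ^ 2 ≤ 1 := by
        have : e ≤ 1 := by
          rw [he, div_le_one (by positivity)]
          have : (1 : ℝ) ≤ ((A : ℝ) + 1) ^ 3 := one_le_pow₀ (by linarith)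
          nlinarith
        nlinarith
      have h6 : (2000 : ℝ) ≤ 2000 / e ^ 2 := by
        rw [le_div_iff₀ (by positivity)]; nlinarith
      linarith
    linarith
  have hlhs : 0 < ((1 / 10) * ((5 / 3 : ℝ) ^ l.length) ^ K) ^ 2 := by positivity
  have hT : 0 < tvw u (2 * M + 1) := by
    have h5 : 0 < r ^ 3 * tvw u (2 * M + 1) := hlhs.trans_le key
    exact (pos_iff_pos_of_mul_pos h5).1 (by positivity)
  have hlg := Real.log_le_log hlhs key
  have e1 : Real.log (((1 / 10) * ((5 / 3 : ℝ) ^ l.length) ^ K) ^ 2) =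
      2 * (-Real.log 10 + K * (l.length * Real.log (5 / 3))) := by
    rw [Real.log_pow, Real.log_mul (by norm_num) (by positivity), Real.log_pow, Real.log_pow,
      one_div, Real.log_inv]
    push_cast
    ring
  have e2 : Real.log (r ^ 3 * tvw u (2 * M + 1)) = 3 * Real.log r + Real.log (tvw u (2 * M + 1)) := by
    rw [Real.log_mul (by positivity) hT.ne', Real.log_pow]
    push_cast
    ring
  rw [e1, e2] at hlg
  have hl10 : Real.log 10 ≤ 5 / 2 := by
    rw [Real.log_le_iff_le_exp (by norm_num)]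
    have h5 : Real.exp (5 / 2) = Real.exp 1 ^ 2 * Real.exp (1 / 2) := by
      rw [← Real.exp_nat_mul, ← Real.exp_add]; norm_num
    have h6 := Real.exp_one_gt_d9
    have h7 := Real.add_one_le_exp (1 / 2 : ℝ)
    rw [h5]
    nlinarith
  have hl53 : 1 / 2 ≤ Real.log (5 / 3) := by
    rw [Real.le_log_iff_exp_le (by norm_num)]
    have h5 : Real.exp (1 / 2) ^ 2 = Real.exp 1 := by
      rw [← Real.exp_nat_mul]; norm_num
    have h6 := Real.exp_one_lt_d9
    have h7 := Real.exp_pos (1 / 2)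
    by_contra hcon
    push Not at hcon
    nlinarith
  have hKn : n * K ≤ 2 * (K * (l.length * Real.log (5 / 3))) := by
    have h5 : 0 ≤ n * K := by positivity
    have h6 : n * K * (1 / 2) ≤ n * K * Real.log (5 / 3) := mul_le_mul_of_nonneg_left hl53 h5
    have h7 : 2 * (K * (l.length * Real.log (5 / 3))) = 2 * (n * K * Real.log (5 / 3)) := by
      rw [hn]; ring
    rw [h7]
    linarith
  have hKlow : n * (e ^ 2 * r / 2000 - 1) ≤ n * K := by
    refine mul_le_mul_of_nonneg_left ?_ (by linarith)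
    rw [hrc]
    linarith
  have hfin : n * e ^ 2 / 3000 * r ≤ Real.log (tvw u (2 * M + 1)) := by
    have h5 : n * (e ^ 2 * r / 2000 - 1) = n * e ^ 2 / 3000 * r + n * e ^ 2 / 6000 * r - n := by ring
    linarith
  have hr2 : 0 < r - 2 := by linarith
  have hpi := Real.pi_gt_three
  have e3 : n / (10 ^ 25 * ((A : ℝ) + 1) ^ 6) = n * e ^ 2 / 1000 := by
    rw [he]
    field_simp
    norm_num
  rw [e3]
  have h6 : 2 * π / (r - 2) * (n * e ^ 2 / 3000 * r) ≤
      2 * π / (r - 2) * Real.log (tvw u (2 * M + 1)) :=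
    mul_le_mul_of_nonneg_left hfin (by positivity)
  refine le_trans ?_ h6
  rw [div_mul_eq_mul_div, le_div_iff₀ hr2]
  have h7 : 0 ≤ n * e ^ 2 := by positivity
  have h8 : n * e ^ 2 / 1000 * (r - 2) ≤ n * e ^ 2 / 1000 * r :=
    mul_le_mul_of_nonneg_left (by linarith) (by positivity)
  have h9 : n * e ^ 2 / 1000 * r ≤ 2 * π * (n * e ^ 2 / 3000 * r) := by
    have : 0 ≤ n * e ^ 2 * r := by positivity
    nlinarith
  linarith

end Pool.Agent.H62.TV
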