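import Pool.Graph.R_pool_sql_team_seeded_843ab51a.H239.TV.Tr
import Pool.Graph.R_seed8.Y182.CW.CNV
import Pool.Graph.R_seed8.Y672.CW.Fin

/-!
Turaev-Viro invariants and the traces on the highest weight vectors of level `K`, equal colours `b`.
-/

set_option autoImplicit false

namespace Pool.Agent.H62.TV

open Finset Filter
open Pool.Agent.H550R3.Jones (br brf)
open Pool.Agent.W707.TV (vh Rh)
open Pool.Agent.Y482.CY (B3 lv dl tri Nz)
open Pool.Agent.Y481.CC (opB wop tauW opF wF trW)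
open Pool.Agent.Y482.CW (Col rp tg ta cols tvw inb Ok sw swW)
open Pool.Agent.Y80.CY (vh_prim vh_ne vh_norm vh_br FF geom half FF_neg)
open Pool.Agent.H239.TV (f_TRCW ta_word patlow tauW_zero td td_anti nz2)
open scoped Real Topology

lemma FF_add' {v : ℂ} {b M : ℕ} {t : ℕ → ℂ} (hv : v ≠ 0) (hr : v ^ (2 * M + 1) = 1) (a : ℤ) :
    FF v b t (a + (2 * M + 1)) = FF v b t a := by
  unfold FF
  refine Finset.sum_congr rfl fun m _ => ?_
  have h1 : (a + (2 * (M : ℤ) + 1)) * (3 * (b : ℤ) - 2 - 2 * m) =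
      a * (3 * (b : ℤ) - 2 - 2 * m) + ((2 * M + 1 : ℕ) : ℤ) * (3 * (b : ℤ) - 2 - 2 * m) := by
    push_cast
    ring
  rw [h1, zpow_add₀ hv, zpow_mul v ((2 * M + 1 : ℕ) : ℤ), zpow_natCast, hr, one_zpow, mul_one]

lemma orth' {v : ℂ} {b M K : ℕ} (hv : IsPrimitiveRoot v (2 * M + 1)) (hv0 : v ≠ 0)
    (hb : 3 * b ≤ 2 * M + 2) (hK : K + 2 ≤ 3 * b) (t : ℕ → ℂ) :
    ∑ a ∈ range (2 * M + 1), v ^ (-((a : ℤ) * (3 * (b : ℤ) - 2 - 2 * K))) * FF v b t a =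
      (2 * (M : ℂ) + 1) * t K := by
  unfold FF
  simp only [Finset.mul_sum]
  rw [Finset.sum_comm]
  rw [Finset.sum_eq_single K]
  · have h1 : ∀ a : ℕ, v ^ (-((a : ℤ) * (3 * (b : ℤ) - 2 - 2 * K))) *
        (v ^ ((a : ℤ) * (3 * (b : ℤ) - 2 - 2 * (K : ℤ))) * t K) = t K := by
      intro a
      rw [← mul_assoc, ← zpow_add₀ hv0, neg_add_cancel, zpow_zero, one_mul]
    rw [Finset.sum_congr rfl fun a _ => h1 a, Finset.sum_const, Finset.card_range, nsmul_eq_mul]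
    push_cast
    ring
  · intro m hm hne
    have hm' := Finset.mem_range.1 hm
    have h1 : ∀ a : ℕ, v ^ (-((a : ℤ) * (3 * (b : ℤ) - 2 - 2 * K))) *
        (v ^ ((a : ℤ) * (3 * (b : ℤ) - 2 - 2 * m)) * t m) =
          v ^ ((a : ℤ) * (2 * ((K : ℤ) - m))) * t m := by
      intro a
      rw [← mul_assoc, ← zpow_add₀ hv0]
      congr 2
      ring
    rw [Finset.sum_congr rfl fun a _ => h1 a, ← Finset.sum_mul, geom hv hv0, if_neg, zero_mul]
    · omega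
    · rw [abs_lt]
      constructor <;> omega
  · intro h
    exact absurd (Finset.mem_range.2 (by omega)) h

lemma main_ineq' {v : ℂ} {b M K : ℕ} (hb1 : 1 ≤ b) (hv : IsPrimitiveRoot v (2 * M + 1))
    (hv0 : v ≠ 0) (hn : ‖v‖ = 1) (hb : 3 * b ≤ 2 * M + 2) (hK : K + 2 ≤ 3 * b) {t : ℕ → ℂ}
    (ht : ∀ m, m ≤ 3 * b - 2 → t (3 * b - 2 - m) = -t m) :
    (2 * (M : ℝ) + 1) * ‖t K‖ ≤ 2 * ∑ a ∈ Icc 1 M, ‖FF v b t a‖ := by
  have h1 := orth' hv hv0 hb hK t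
  have h2 : (2 * (M : ℝ) + 1) * ‖t K‖ ≤ ∑ a ∈ range (2 * M + 1), ‖FF v b t a‖ := by
    calc (2 * (M : ℝ) + 1) * ‖t K‖ = ‖(2 * (M : ℂ) + 1) * t K‖ := by
          rw [norm_mul]
          congr 1
          have : (2 * (M : ℂ) + 1) = ((2 * (M : ℝ) + 1 : ℝ) : ℂ) := by push_cast; ring
          rw [this, Complex.norm_real, Real.norm_of_nonneg (by positivity)]
      _ ≤ ∑ a ∈ range (2 * M + 1), ‖v ^ (-((a : ℤ) * (3 * (b : ℤ) - 2 - 2 * K))) * FF v b t a‖ := by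
          rw [← h1]
          exact norm_sum_le _ _
      _ = ∑ a ∈ range (2 * M + 1), ‖FF v b t a‖ := by
          refine Finset.sum_congr rfl fun a _ => ?_
          rw [norm_mul, norm_zpow, hn, one_zpow, one_mul]
  have h3 : FF v b t 0 = 0 := by
    have := FF_neg (v := v) hb1 ht 0
    rw [neg_zero] at this
    exact self_eq_neg.1 this
  rw [half (fun a => ‖FF v b t a‖)] at h2
  · exact h2
  · simp [h3]
  · intro a ha _
    have h4 : ((2 * M + 1 - a : ℕ) : ℤ) = -(a : ℤ) + (2 * M + 1) := by omega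
    simp only [h4]
    rw [FF_add' hv0 hv.pow_eq_one, FF_neg hb1 ht, norm_neg]

/-- the truncation at `M` does not matter -/
lemma ta_small {v : ℂ} (hv : v ≠ 0) (w : List (Bool × Bool)) {b M : ℕ} (hb : b ≤ M)
    (hz : Nz v (2 * M)) (m : ℕ) : ta M w (b, (b, b)) v m = tauW w.reverse b v m := by
  have h1 := Pool.Agent.Y182.CW.t_CNV v hv M hz w (b, (b, b)) m ⟨hb, hb, hb⟩
    (Pool.Agent.Y672.CW.swW_diag _ b)
  have h2 := Pool.Agent.Y182.CW.t_CNV v hv b (fun l h0 hl => hz l h0 (by omega)) w (b, (b, b)) m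
    ⟨le_rfl, le_rfl, le_rfl⟩ (Pool.Agent.Y672.CW.swW_diag _ b)
  rw [h1, ← h2, ta_word]

lemma FF_eq' {v : ℂ} (hv : v ≠ 0) (hn : ‖v‖ = 1) {w : List (Bool × Bool)} {b M : ℕ} (hb1 : 1 ≤ b)
    (hb : b ≤ M) (hz : Nz v (2 * M)) (a : ℕ) (ha : 1 ≤ a) (haM : a ≤ M) :
    ‖FF v b (td w.reverse b v) a‖ = ‖br v (a : ℤ) * tg M w a (b, (b, b)) v‖ := by
  obtain ⟨K, hK⟩ : ∃ K, 3 * b = K + 3 := ⟨3 * b - 3, by omega⟩
  set S := ∑ m ∈ range (K + 1), v ^ (-(2 * (a : ℤ) * m)) * tauW w.reverse b v m with hS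
  have hzM : Nz v M := fun l h0 hl => hz l h0 (by omega)
  have h1 : tg M w a (b, (b, b)) v = v ^ (3 * ((b : ℤ) - 1)) * S := by
    rw [Pool.Agent.Y514.CW.axw v hv M w a (b, (b, b)) hzM ha haM ⟨hb, hb, hb⟩]
    simp only [ta_small hv w hb hz]
    have e0 : 3 * M = (K + 1) + (3 * M - (K + 1)) := by omega
    rw [e0, Finset.sum_range_add]
    have e1 : ∑ x ∈ range (3 * M - (K + 1)),
        v ^ ((b : ℤ) + b + b - 3 - 2 * a * ((K + 1 + x : ℕ) : ℤ)) *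
          tauW w.reverse b v (K + 1 + x) = 0 :=
      Finset.sum_eq_zero fun x _ => by rw [tauW_zero _ b v (K + 1 + x) (by omega), mul_zero]
    rw [e1, add_zero, hS, Finset.mul_sum]
    refine Finset.sum_congr rfl fun m _ => ?_
    rw [← mul_assoc, ← zpow_add₀ hv]
    congr 2
    ring
  have h2 : FF v b (td w.reverse b v) a =
      v ^ ((a : ℤ) * (3 * (b : ℤ) - 2)) * (S - v ^ (-(2 * (a : ℤ))) * S) := by
    unfold FF
    have h3 : 3 * b - 1 = K + 1 + 1 := by omega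
    have h4 : ∀ m : ℕ, v ^ ((a : ℤ) * (3 * (b : ℤ) - 2 - 2 * m)) * td w.reverse b v m =
        v ^ ((a : ℤ) * (3 * (b : ℤ) - 2)) * (v ^ (-(2 * (a : ℤ) * m)) * tauW w.reverse b v m) -
        v ^ ((a : ℤ) * (3 * (b : ℤ) - 2)) * (v ^ (-(2 * (a : ℤ) * m)) *
          (if m = 0 then 0 else tauW w.reverse b v (m - 1))) := by
      intro m
      have h5 : (a : ℤ) * (3 * (b : ℤ) - 2 - 2 * m) =
          (a : ℤ) * (3 * (b : ℤ) - 2) + -(2 * (a : ℤ) * m) := by ring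
      rw [h5, zpow_add₀ hv, td]
      ring
    rw [Finset.sum_congr rfl fun m _ => h4 m, Finset.sum_sub_distrib, ← Finset.mul_sum,
      ← Finset.mul_sum, ← mul_sub, h3]
    congr 2
    · rw [Finset.sum_range_succ, tauW_zero _ b v (K + 1) (by omega), mul_zero, add_zero]
    · rw [Finset.sum_range_succ', if_pos rfl, mul_zero, add_zero, hS, Finset.mul_sum]
      refine Finset.sum_congr rfl fun m _ => ?_
      rw [if_neg (by omega), Nat.add_sub_cancel, ← mul_assoc, ← zpow_add₀ hv]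
      congr 2
      push_cast
      ring
  have h6 : S - v ^ (-(2 * (a : ℤ))) * S = v ^ (-(a : ℤ)) * (br v (a : ℤ) * S) := by
    have h7 : v ^ (-(a : ℤ)) * (br v (a : ℤ) * S) =
        (v ^ (-(a : ℤ)) * v ^ (a : ℤ)) * S - (v ^ (-(a : ℤ)) * v ^ (-(a : ℤ))) * S := by
      unfold br
      ring
    rw [h7, ← zpow_add₀ hv, ← zpow_add₀ hv, neg_add_cancel, zpow_zero, one_mul]
    congr 3
    ring
  rw [h2, h1, h6]
  simp only [norm_mul, norm_zpow, hn, one_zpow, one_mul]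

/-- the trace is at most a sum of invariants -/
theorem TWb_le (w : List (Bool × Bool)) {b M K : ℕ} (hb1 : 1 ≤ b) (hbM : b ≤ M)
    (hb : 3 * b ≤ 2 * M + 2) (hK : K < b) :
    ‖Pool.Agent.Y481.CC.TW w.reverse b K (vh M)‖ ≤
      ∑ a ∈ Icc 1 M, ‖br (vh M) (a : ℤ) * tg M w a (b, (b, b)) (vh M)‖ := by
  rcases Nat.lt_or_ge (K + 2) (3 * b + 1) with hK2 | hK2
  swap
  · omega
  have hnz := nz2 M
  have hineq := main_ineq' hb1 (vh_prim M) (vh_ne M) (vh_norm M) hb (by omega : K + 2 ≤ 3 * b)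
    (td_anti (vh_ne M) (w := w.reverse) hb1 (hnz _ (by omega)))
  have htd : td w.reverse b (vh M) K = Pool.Agent.Y481.CC.TW w.reverse b K (vh M) := by
    rw [f_TRCW (vh M) (vh_ne M) w.reverse b K (hnz K (by omega)), td,
      patlow (vh M) w.reverse b K hK (hnz _ (by omega))]
    split_ifs with h0
    · rfl
    · rw [patlow (vh M) w.reverse b (K - 1) (by omega) (hnz _ (by omega))]
  rw [htd] at hineq
  have hsum : ∑ a ∈ Icc 1 M, ‖FF (vh M) b (td w.reverse b (vh M)) a‖ =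
      ∑ a ∈ Icc 1 M, ‖br (vh M) (a : ℤ) * tg M w a (b, (b, b)) (vh M)‖ := by
    refine Finset.sum_congr rfl fun a ha => ?_
    exact FF_eq' (vh_ne M) (vh_norm M) hb1 hbM (hnz _ le_rfl) a (Finset.mem_Icc.1 ha).1
      (Finset.mem_Icc.1 ha).2
  rw [hsum] at hineq
  have hMr : (1 : ℝ) ≤ M := by exact_mod_cast (by omega : 1 ≤ M)
  have h5 : 0 ≤ ‖Pool.Agent.Y481.CC.TW w.reverse b K (vh M)‖ := norm_nonneg _
  nlinarith

/-- the trace and the Turaev-Viro invariant -/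
theorem TWb_tvw (w : List (Bool × Bool)) {b M K : ℕ} (hM : 2 ≤ M) (hb1 : 1 ≤ b) (hbM : b ≤ M)
    (hb : 3 * b ≤ 2 * M + 2) (hK : K < b) :
    ‖Pool.Agent.Y481.CC.TW w.reverse b K (vh M)‖ ^ 2 ≤
      ((2 * M + 1 : ℕ) : ℝ) ^ 3 * tvw w (2 * M + 1) := by
  have h1 := TWb_le w hb1 hbM hb hK
  rw [Pool.Agent.Y672.CW.tvw_eq w hM]
  set r : ℝ := ((2 * M + 1 : ℕ) : ℝ) with hr
  have hr0 : 0 < r := by positivity
  have hM2 : (2 : ℝ) ≤ M := by exact_mod_cast hM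
  have h1M : 1 ≤ M := by omega
  have hMr : 2 * (M : ℝ) ≤ r := by
    rw [hr]
    push_cast
    linarith
  have hr1 : 1 ≤ r := by
    rw [hr]
    exact_mod_cast (show 1 ≤ 2 * M + 1 by omega)
  set E := ‖Pool.Agent.Y481.CC.TW w.reverse b K (vh M)‖ with hEd
  have hE0 : 0 ≤ E := norm_nonneg _
  have hcs : (∑ a ∈ Icc 1 M, ‖br (vh M) (a : ℤ) * tg M w a (b, (b, b)) (vh M)‖) ^ 2 ≤
      (M : ℝ) * ∑ a ∈ Icc 1 M, ‖br (vh M) (a : ℤ) * tg M w a (b, (b, b)) (vh M)‖ ^ 2 := by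
    have := sq_sum_le_card_mul_sum_sq (s := Icc 1 M)
      (f := fun a : ℕ => ‖br (vh M) (a : ℤ) * tg M w a (b, (b, b)) (vh M)‖)
    rwa [Nat.card_Icc, Nat.add_sub_cancel] at this
  have hsub : ∑ a ∈ Icc 1 M, ‖br (vh M) (a : ℤ) * tg M w a (b, (b, b)) (vh M)‖ ^ 2 ≤
      ∑ a ∈ Icc 1 M, ∑ c ∈ cols w M, ‖br (vh M) (a : ℤ) * tg M w a c (vh M)‖ ^ 2 := by
    refine Finset.sum_le_sum fun a ha => ?_
    exact Finset.single_le_sum (f := fun c : Col =>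
      ‖br (vh M) (a : ℤ) * tg M w a c (vh M)‖ ^ 2)
      (fun j _ => by positivity)
      (Pool.Agent.Y672.CW.mem_cols.2 ⟨⟨⟨hb1, hbM⟩, ⟨hb1, hbM⟩, ⟨hb1, hbM⟩⟩,
        Pool.Agent.Y672.CW.swW_diag _ b⟩)
  set SS := ∑ a ∈ Icc 1 M, ∑ c ∈ cols w M,
    ‖br (vh M) (a : ℤ) * tg M w a c (vh M)‖ ^ 2 with hSS
  have hSS0 : 0 ≤ SS := Finset.sum_nonneg fun _ _ => Finset.sum_nonneg fun _ _ => by positivity
  have hE1 : E ^ 2 ≤ (M : ℝ) * SS :=
    (pow_le_pow_left₀ hE0 h1 2).trans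
      (hcs.trans (mul_le_mul_of_nonneg_left hsub (Nat.cast_nonneg M)))
  have hc1 : (1 : ℝ) ≤ ((cols w 2).card : ℝ) := by
    exact_mod_cast Pool.Agent.Y672.CW.card_cols_pos w
  have h9 : 1 / r * SS ≤ ((cols w 2).card : ℝ) * (1 / r * SS) := by
    have : 0 ≤ 1 / r * SS := by positivity
    nlinarith
  calc E ^ 2 ≤ (M : ℝ) * SS := hE1
    _ ≤ r * SS := mul_le_mul_of_nonneg_right (by linarith) hSS0
    _ ≤ r * (r * SS) := by
        refine mul_le_mul_of_nonneg_left ?_ hr0.le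
        nlinarith
    _ = r ^ 3 * (1 / r * SS) := by
        field_simp
    _ ≤ r ^ 3 * (((cols w 2).card : ℝ) * (1 / r * SS)) :=
        mul_le_mul_of_nonneg_left h9 (by positivity)

end Pool.Agent.H62.TV
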