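import Pool.Agent.H62.TV.Pt3
import Pool.Agent.H62.TV.Low
import Pool.Graph.R_pool_sql_team_seeded_843ab51a.H239.TV.Str

/-!
The blocks of the representation and the operators of words.
-/

set_option autoImplicit false

namespace Pool.Agent.H62.TV

open Finset Matrix
open Pool.Agent.H550R3.Jones (br brf)
open Pool.Agent.Y482.CY (LL UU sb Nz)
open Pool.Agent.Y481.CC (CM LI UI HT)

variable {v : ℂ} {b K : ℕ}

/-- the left diagonal factor -/
noncomputable def Gv (v : ℂ) (b K d : ℕ) : ℂ :=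
  v ^ ((K : ℤ) * (K - d) + ((K : ℤ) - d) * (K - d) - 2 * b * (K - d))

/-- the right diagonal factor -/
noncomputable def Hv (v : ℂ) (K e : ℕ) : ℂ :=
  (-1) ^ (K - e) * v ^ (((K : ℤ) - e) - ((K : ℤ) - e) * (K - e))

/-- the constant -/
noncomputable def kap (v : ℂ) (b K : ℕ) : ℂ :=
  (-1) ^ K * v ^ (2 * ((b : ℤ) - 1) * K - (K : ℤ) * K + K)

lemma UU_T (hv : v ≠ 0) (d e : Fin (K + 1)) :
    UU b K v e d = Gv v b K d * xl v K true d e * Hv v K e := by
  unfold UU xl qb Gv Hv
  rw [if_pos rfl]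
  by_cases h : (e : ℕ) ≤ d
  · rw [if_pos h, if_pos h]
    have e1 : v ^ (-(2 * ((b : ℤ) - 1) * ((K : ℤ) - (d : ℕ))) -
        (((d : ℕ) : ℤ) - (e : ℕ)) * ((K : ℤ) - (e : ℕ) - 1) +
        ((K : ℤ) - (d : ℕ)) * ((K : ℤ) - (d : ℕ) - 1)) =
        v ^ ((K : ℤ) * (K - (d : ℕ)) + ((K : ℤ) - (d : ℕ)) * (K - (d : ℕ)) -
          2 * b * (K - (d : ℕ))) * v ^ (-(((e : ℕ) : ℤ) * (K - (d : ℕ)))) *
          v ^ (((K : ℤ) - (e : ℕ)) - ((K : ℤ) - (e : ℕ)) * (K - (e : ℕ))) := by
      rw [← zpow_add₀ hv, ← zpow_add₀ hv]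
      congr 1
      ring
    rw [e1]
    ring
  · rw [if_neg h, if_neg h]
    ring

lemma LL_T (hv : v ≠ 0) (d e : Fin (K + 1)) :
    LL b K v e d = kap v b K * (Gv v b K d * xl v K false d e * Hv v K e) := by
  unfold LL xl qb Gv Hv kap
  have hd := d.2
  have he := e.2
  simp only [Bool.false_eq_true, if_false]
  by_cases h : (d : ℕ) ≤ e
  · rw [if_pos h, if_pos (by omega)]
    have e1 : v ^ (2 * ((b : ℤ) - 1) * (d : ℕ) - (d : ℕ) * (((e : ℕ) : ℤ) - 1) +
        2 * ((K : ℤ) - (e : ℕ)) * (((e : ℕ) : ℤ) - (d : ℕ)) +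
        (((e : ℕ) : ℤ) - (d : ℕ)) * (((e : ℕ) : ℤ) - (d : ℕ) - 1)) =
        v ^ (2 * ((b : ℤ) - 1) * K - (K : ℤ) * K + K) *
        (v ^ ((K : ℤ) * (K - (d : ℕ)) + ((K : ℤ) - (d : ℕ)) * (K - (d : ℕ)) -
          2 * b * (K - (d : ℕ))) * v ^ (((d : ℕ) : ℤ) * (K - (e : ℕ))) *
          v ^ (((K : ℤ) - (e : ℕ)) - ((K : ℤ) - (e : ℕ)) * (K - (e : ℕ)))) := by
      rw [← zpow_add₀ hv, ← zpow_add₀ hv, ← zpow_add₀ hv]
      congr 1
      ring
    have e2 : sb v (K - d) (e - d) = sb v (K - d) (K - e) := by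
      unfold sb
      have f1 : K - (d : ℕ) - ((e : ℕ) - d) = K - e := by omega
      have f2 : K - (d : ℕ) - (K - e) = (e : ℕ) - d := by omega
      rw [f1, f2, mul_comm (brf v ((e : ℕ) - d))]
    have e3 : (-1 : ℂ) ^ (e : ℕ) = (-1) ^ K * (-1) ^ (K - (e : ℕ)) := by
      have f3 : K = (e : ℕ) + (K - e) := by omega
      have f4 : (-1 : ℂ) ^ (K - (e : ℕ)) * (-1) ^ (K - (e : ℕ)) = 1 := by
        rw [← mul_pow]; norm_num
      conv_rhs => rw [show ((-1 : ℂ)) ^ K = (-1) ^ ((e : ℕ) + (K - e)) by rw [← f3], pow_add]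
      rw [mul_assoc, f4, mul_one]
    rw [e1, e2, e3]
    ring
  · rw [if_neg h, if_neg (by omega)]
    ring

/-- the matrix of a letter -/
noncomputable def Xm (v : ℂ) (K : ℕ) (l : Bool) : Matrix (Fin (K + 1)) (Fin (K + 1)) ℂ :=
  Matrix.of fun d e => xl v K l d e

lemma CM_T (hv : v ≠ 0) (l : Bool) : (CM b K v (l, l))ᵀ = (if l then (1 : ℂ) else kap v b K) •
    (diagonal (fun d : Fin (K + 1) => Gv v b K d) * Xm v K l *
      diagonal fun d : Fin (K + 1) => Hv v K d) := by
  ext d e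
  rw [Matrix.transpose_apply, Matrix.smul_apply, Matrix.mul_diagonal, Matrix.diagonal_mul]
  unfold CM Xm
  cases l
  · simp only [Bool.false_eq_true, if_false, Matrix.of_apply, smul_eq_mul]
    rw [LL_T hv]
  · simp only [if_true, Matrix.of_apply, smul_eq_mul, one_mul]
    rw [UU_T hv]

/-- the dilation parameter -/
noncomputable def tt (v : ℂ) (b K : ℕ) : ℂ := -v ^ ((K : ℤ) + 1 - 2 * b)

lemma GH (hv : v ≠ 0) (d : Fin (K + 1)) : Hv v K d * Gv v b K d = tt v b K ^ (K - (d : ℕ)) := by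
  have hd := d.2
  unfold Hv Gv tt
  have e1 : ((K - (d : ℕ) : ℕ) : ℤ) = (K : ℤ) - (d : ℕ) := by omega
  have e2 : (-v ^ ((K : ℤ) + 1 - 2 * b)) ^ (K - (d : ℕ)) =
      (-1) ^ (K - (d : ℕ)) * v ^ (((K : ℤ) + 1 - 2 * b) * ((K : ℤ) - (d : ℕ))) := by
    rw [neg_pow, ← zpow_natCast (v ^ ((K : ℤ) + 1 - 2 * b)) (K - (d : ℕ)), ← _root_.zpow_mul, e1]
  rw [e2, mul_assoc, ← zpow_add₀ hv]
  congr 2
  ring

/-- the product with the dilations -/
lemma prod_Bm (t : ℂ) : ∀ w : List Bool, (w.map fun l => Xm v K l *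
    diagonal fun d : Fin (K + 1) => t ^ (K - (d : ℕ))).prod =
    Matrix.of fun d e : Fin (K + 1) => Bm v t K w d e := by
  intro w
  induction w with
  | nil =>
    ext d e
    rw [List.map_nil, List.prod_nil, Matrix.of_apply, Matrix.one_apply]
    simp only [Bm]
    by_cases h : d = e
    · rw [if_pos h, if_pos (by rw [h])]
    · rw [if_neg h, if_neg (fun h' => h (Fin.ext h'))]
  | cons l w ih =>
    rw [List.map_cons, List.prod_cons, ih]
    ext d e
    rw [Matrix.mul_apply, Matrix.of_apply]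
    simp only [Matrix.mul_diagonal, Xm, Matrix.of_apply, Bm]
    rw [← Fin.sum_univ_eq_sum_range fun f => xl v K l d f * (t ^ (K - f) * Bm v t K w f e)]
    refine Fintype.sum_congr _ _ fun f => ?_
    ring

lemma trace_conj_prod {n : Type} [Fintype n] [DecidableEq n] (G H : Matrix n n ℂ)
    (hG : IsUnit G.det) (X : Bool → Matrix n n ℂ) (w : List Bool) :
    ((w.map fun l => G * X l * H).prod).trace = ((w.map fun l => X l * (H * G)).prod).trace := by
  have key : (w.map fun l => G * X l * H).prod * G = G * (w.map fun l => X l * (H * G)).prod := by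
    induction w with
    | nil => simp
    | cons l w ih =>
      rw [List.map_cons, List.prod_cons, List.map_cons, List.prod_cons, Matrix.mul_assoc, ih]
      simp only [Matrix.mul_assoc]
  have h1 : (w.map fun l => G * X l * H).prod =
      G * (w.map fun l => X l * (H * G)).prod * G⁻¹ := by
    rw [← key, Matrix.mul_assoc, Matrix.mul_nonsing_inv _ hG, Matrix.mul_one]
  rw [h1, Matrix.trace_mul_comm, ← Matrix.mul_assoc, Matrix.nonsing_inv_mul _ hG, Matrix.one_mul]

lemma prod_smul_map {n : Type} [Fintype n] [DecidableEq n] (k : Bool → ℂ)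
    (X : Bool → Matrix n n ℂ) (w : List Bool) :
    (w.map fun l => k l • X l).prod = (w.map k).prod • (w.map X).prod := by
  induction w with
  | nil => simp
  | cons l w ih =>
    rw [List.map_cons, List.prod_cons, ih, List.map_cons, List.prod_cons, List.map_cons,
      List.prod_cons, Matrix.smul_mul, Matrix.mul_smul, smul_smul]

/-- **the block trace** -/
theorem word_trace (hv1 : ‖v‖ = 1) (w : List Bool) :
    ‖Pool.Agent.Y481.CC.TW (w.map fun l => (l, l)).reverse b K v‖ =
      ‖∑ d ∈ range (K + 1), Bm v (tt v b K) K w d d‖ := by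
  have hv : v ≠ 0 := by
    rintro rfl
    simp at hv1
  have hn : ∀ n : ℤ, ‖v ^ n‖ = 1 := fun n => by rw [norm_zpow, hv1, _root_.one_zpow]
  have hG : IsUnit (diagonal (fun d : Fin (K + 1) => Gv v b K d)).det := by
    rw [Matrix.det_diagonal, isUnit_iff_ne_zero, prod_ne_zero_iff]
    intro d _
    exact zpow_ne_zero _ hv
  unfold Pool.Agent.Y481.CC.TW
  rw [← Matrix.trace_transpose, Matrix.transpose_list_prod, ← List.map_reverse, ← List.map_reverse,
    List.reverse_reverse, List.map_map, List.map_map]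
  have e1 : (w.map ((transpose ∘ CM b K v) ∘ fun l => (l, l))) =
      w.map fun l => (if l then (1 : ℂ) else kap v b K) •
    (diagonal (fun d : Fin (K + 1) => Gv v b K d) * Xm v K l *
      diagonal fun d : Fin (K + 1) => Hv v K d) := by
    refine List.map_congr_left fun l _ => ?_
    exact CM_T hv l
  rw [e1, prod_smul_map, Matrix.trace_smul, trace_conj_prod _ _ hG]
  have e2 : (diagonal fun d : Fin (K + 1) => Hv v K d) *
      (diagonal fun d : Fin (K + 1) => Gv v b K d) =
      diagonal fun d : Fin (K + 1) => tt v b K ^ (K - (d : ℕ)) := by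
    rw [Matrix.diagonal_mul_diagonal]
    congr 1
    funext d
    exact GH hv d
  rw [e2, prod_Bm, norm_smul]
  have e3 : ‖(w.map fun l => if l then (1 : ℂ) else kap v b K).prod‖ = 1 := by
    induction w with
    | nil => simp
    | cons l w ih =>
      rw [List.map_cons, List.prod_cons, norm_mul]
      rw [ih (by
        refine List.map_congr_left fun l _ => ?_
        exact CM_T hv l), mul_one]
      cases l
      · simp only [Bool.false_eq_true, if_false]
        unfold kap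
        rw [norm_mul, norm_pow, norm_neg, norm_one, one_pow, one_mul, hn]
      · simp
  rw [e3, one_mul, Matrix.trace]
  simp only [Matrix.diag_apply, Matrix.of_apply]
  rw [Fin.sum_univ_eq_sum_range fun d => Bm v (tt v b K) K w d d]

end Pool.Agent.H62.TV
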