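import Pool.Agent.H62.TV.Conn

/-!
The braid relation, full twists and conjugation.
-/

set_option autoImplicit false

namespace Pool.Agent.H62.TV

open Finset Matrix
open Pool.Agent.H550R3.Jones (br brf)
open Pool.Agent.Y482.CY (LL UU sb Nz)
open Pool.Agent.Y481.CC (CM LI UI HT)
open Pool.Agent.H239.TV (HT_sq)

variable {v : ℂ} {b K : ℕ}

lemma HT_LL (hv : v ≠ 0) : HT b K v * LL b K v = UI b K v * HT b K v := by
  ext a i
  have ha := a.2
  have hi := i.2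
  have hr : (a.rev : ℕ) = K - a := by
    rw [Fin.val_rev]
    omega
  have hri : (i.rev : ℕ) = K - i := by
    rw [Fin.val_rev]
    omega
  rw [Matrix.mul_apply, Matrix.mul_apply, Finset.sum_eq_single a.rev, Finset.sum_eq_single i.rev]
  · unfold HT LL UI
    rw [if_pos (by omega), if_pos (show (i.rev : ℕ) + i = K by omega)]
    by_cases h : (i : ℕ) ≤ K - a
    · rw [if_pos (by omega), if_pos (show (a : ℕ) ≤ i.rev by omega)]
      have c1 : ((a.rev : ℕ) : ℤ) = (K : ℤ) - a := by omega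
      have c2 : ((i.rev : ℕ) : ℤ) = (K : ℤ) - i := by omega
      have e2 : sb v (K - i) ((a.rev : ℕ) - i) = sb v (i.rev : ℕ) a := by
        unfold sb
        rw [hr, hri]
        have f1 : K - (i : ℕ) - (K - a - i) = a := by omega
        have f2 : K - (i : ℕ) - a = K - a - i := by omega
        rw [f1, f2, mul_comm (brf v (K - a - i))]
      rw [e2, c1, c2, hr]
      have e1 : v ^ (-2 * (K : ℤ) * K + (4 * (b : ℤ) - 2) * K - 2 * (a : ℕ) * ((b : ℤ) - K)) *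
          v ^ (2 * ((b : ℤ) - 1) * (i : ℕ) - (i : ℕ) * (((K : ℤ) - a) - 1) +
          2 * ((K : ℤ) - ((K : ℤ) - a)) * (((K : ℤ) - a) - (i : ℕ)) +
          (((K : ℤ) - a) - (i : ℕ)) * (((K : ℤ) - a) - (i : ℕ) - 1)) =
          v ^ (-(((K : ℤ) - (a : ℕ)) * ((K : ℤ) - (a : ℕ))) +
          (2 * (b : ℤ) - 1 - ((K : ℤ) - ((K : ℤ) - i))) * ((K : ℤ) - (a : ℕ)) +
          ((K : ℤ) - ((K : ℤ) - i)) * ((K : ℤ) - ((K : ℤ) - i))) *
          v ^ (-2 * (K : ℤ) * K + (4 * (b : ℤ) - 2) * K - 2 * ((K : ℤ) - i) * ((b : ℤ) - K)) := by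
        rw [← zpow_add₀ hv, ← zpow_add₀ hv]
        congr 1
        ring
      linear_combination ((-1) ^ (K - (a : ℕ)) * sb v (i.rev : ℕ) a) * e1
    · rw [if_neg (by omega), if_neg (show ¬ (a : ℕ) ≤ i.rev by omega)]
      ring
  · intro j _ hj
    have : (j : ℕ) + i ≠ K := by
      intro h
      apply hj
      ext
      omega
    unfold HT
    rw [if_neg this, mul_zero]
  · intro h
    exact absurd (mem_univ _) h
  · intro j _ hj
    have : (a : ℕ) + j ≠ K := by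
      intro h
      apply hj
      ext
      omega
    unfold HT
    rw [if_neg this, zero_mul]
  · intro h
    exact absurd (mem_univ _) h

lemma braid_rel' (hv : v ≠ 0) (hK : Nz v K) : LL b K v * UI b K v * LL b K v =
    UI b K v * LL b K v * UI b K v := by
  obtain ⟨l1, l2, u1, u2⟩ := Pool.Agent.Y548.CC.lui v hv b K hK
  have h1 := HT_LL (b := b) (K := K) hv
  rw [← Pool.Agent.Y876.CC.ht Pool.Agent.Y548.CC.lui v hv b K hK] at h1
  have h2 : LL b K v * UI b K v * LL b K v * LL b K v * LI b K v =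
      UI b K v * (LL b K v * UI b K v * LL b K v) * LI b K v := by rw [h1]
  rw [Matrix.mul_assoc (LL b K v * UI b K v * LL b K v), l1, Matrix.mul_one,
    ← Matrix.mul_assoc (UI b K v), ← Matrix.mul_assoc (UI b K v), Matrix.mul_assoc _ (LL b K v), l1,
    Matrix.mul_one] at h2
  exact h2

/-- the unit of `s_1` -/
noncomputable def uA (b : ℕ) (hv : v ≠ 0) (hK : Nz v K) : (Matrix (Fin (K + 1)) (Fin (K + 1)) ℂ)ˣ where
  val := (LI b K v)ᵀ
  inv := (LL b K v)ᵀ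
  val_inv := by
    rw [← Matrix.transpose_mul, (Pool.Agent.Y548.CC.lui v hv b K hK).1, Matrix.transpose_one]
  inv_val := by
    rw [← Matrix.transpose_mul, (Pool.Agent.Y548.CC.lui v hv b K hK).2.1, Matrix.transpose_one]

/-- the unit of `s_2` -/
noncomputable def uB (b : ℕ) (hv : v ≠ 0) (hK : Nz v K) : (Matrix (Fin (K + 1)) (Fin (K + 1)) ℂ)ˣ where
  val := (UU b K v)ᵀ
  inv := (UI b K v)ᵀ
  val_inv := by
    rw [← Matrix.transpose_mul, (Pool.Agent.Y548.CC.lui v hv b K hK).2.2.2, Matrix.transpose_one]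
  inv_val := by
    rw [← Matrix.transpose_mul, (Pool.Agent.Y548.CC.lui v hv b K hK).2.2.1, Matrix.transpose_one]

lemma inv_prod (hv : v ≠ 0) (hK : Nz v K) :
    (((uA b hv hK * uB b hv hK * uA b hv hK)⁻¹ : (Matrix (Fin (K + 1)) (Fin (K + 1)) ℂ)ˣ) :
      Matrix (Fin (K + 1)) (Fin (K + 1)) ℂ) = (HT b K v)ᵀ := by
  have h1 : (uA b hv hK * uB b hv hK * uA b hv hK)⁻¹ =
      (uA b hv hK)⁻¹ * (uB b hv hK)⁻¹ * (uA b hv hK)⁻¹ := by group
  rw [h1, Units.val_mul, Units.val_mul]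
  change (LL b K v)ᵀ * (UI b K v)ᵀ * (LL b K v)ᵀ = _
  rw [← Pool.Agent.Y876.CC.ht Pool.Agent.Y548.CC.lui v hv b K hK, Matrix.transpose_mul,
    Matrix.transpose_mul, Matrix.mul_assoc]

lemma u_rel (hv : v ≠ 0) (hK : Nz v K) : uA b hv hK * uB b hv hK * uA b hv hK =
    uB b hv hK * uA b hv hK * uB b hv hK := by
  have h2 : (uA b hv hK)⁻¹ * (uB b hv hK)⁻¹ * (uA b hv hK)⁻¹ =
      (uB b hv hK)⁻¹ * (uA b hv hK)⁻¹ * (uB b hv hK)⁻¹ := by
    ext1
    rw [Units.val_mul, Units.val_mul, Units.val_mul, Units.val_mul]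
    change (LL b K v)ᵀ * (UI b K v)ᵀ * (LL b K v)ᵀ = (UI b K v)ᵀ * (LL b K v)ᵀ * (UI b K v)ᵀ
    rw [← Matrix.transpose_mul, ← Matrix.transpose_mul, ← Matrix.transpose_mul,
      ← Matrix.transpose_mul, ← Matrix.mul_assoc, ← Matrix.mul_assoc, braid_rel' hv hK]
  have h3 := congrArg (fun x => x⁻¹) h2
  have h4 : uA b hv hK * uB b hv hK * uA b hv hK =
      ((uA b hv hK)⁻¹ * (uB b hv hK)⁻¹ * (uA b hv hK)⁻¹)⁻¹ := by group
  have h5 : uB b hv hK * uA b hv hK * uB b hv hK =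
      ((uB b hv hK)⁻¹ * (uA b hv hK)⁻¹ * (uB b hv hK)⁻¹)⁻¹ := by group
  rw [h4, h5]
  exact h3

/-- an even power of `Δ` is a scalar of absolute value one -/
lemma u_full (hv1 : ‖v‖ = 1) (hv : v ≠ 0) (hK : Nz v K) (i : ℤ) : ∃ c : ℂ, ‖c‖ = 1 ∧
    (((uA b hv hK * uB b hv hK * uA b hv hK) ^ (2 * i) :
      (Matrix (Fin (K + 1)) (Fin (K + 1)) ℂ)ˣ) : Matrix (Fin (K + 1)) (Fin (K + 1)) ℂ) =
      c • (1 : Matrix (Fin (K + 1)) (Fin (K + 1)) ℂ) := by
  set D := uA b hv hK * uB b hv hK * uA b hv hK with hD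
  set σ : ℂ := v ^ (2 * (-2 * (K : ℤ) * K + (4 * (b : ℤ) - 2) * K) - 2 * K * ((b : ℤ) - K)) with hσ
  have hσ1 : ‖σ‖ = 1 := by rw [hσ, norm_zpow, hv1, _root_.one_zpow]
  have hσ0 : σ ≠ 0 := by
    intro h
    rw [h, norm_zero] at hσ1
    exact zero_ne_one hσ1
  have h1 : (((D⁻¹) ^ 2 : (Matrix (Fin (K + 1)) (Fin (K + 1)) ℂ)ˣ) :
      Matrix (Fin (K + 1)) (Fin (K + 1)) ℂ) = σ • 1 := by
    rw [pow_two, Units.val_mul, hD, inv_prod, ← Matrix.transpose_mul, HT_sq hv,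
      Matrix.transpose_smul, Matrix.transpose_one]
  have h2 : ((D ^ 2 : (Matrix (Fin (K + 1)) (Fin (K + 1)) ℂ)ˣ) :
      Matrix (Fin (K + 1)) (Fin (K + 1)) ℂ) = σ⁻¹ • 1 := by
    have h3 : ((D ^ 2 * (D⁻¹) ^ 2 : (Matrix (Fin (K + 1)) (Fin (K + 1)) ℂ)ˣ) :
        Matrix (Fin (K + 1)) (Fin (K + 1)) ℂ) = 1 := by
      rw [inv_pow, mul_inv_cancel, Units.val_one]
    rw [Units.val_mul, h1, Matrix.mul_smul, Matrix.mul_one] at h3
    rw [← h3, smul_smul, inv_mul_cancel₀ hσ0, one_smul]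
  have hpow : ∀ (c : ℂ) (E : (Matrix (Fin (K + 1)) (Fin (K + 1)) ℂ)ˣ),
      (E : Matrix (Fin (K + 1)) (Fin (K + 1)) ℂ) = c • 1 → ∀ n : ℕ,
      ((E ^ n : (Matrix (Fin (K + 1)) (Fin (K + 1)) ℂ)ˣ) :
        Matrix (Fin (K + 1)) (Fin (K + 1)) ℂ) = c ^ n • 1 := by
    intro c E hE n
    induction n with
    | zero => simp
    | succ n ih =>
      rw [pow_succ, Units.val_mul, ih, hE, Matrix.smul_mul, Matrix.one_mul, smul_smul, pow_succ]
  rcases Int.eq_nat_or_neg i with ⟨n, rfl | rfl⟩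
  · refine ⟨(σ⁻¹) ^ n, by rw [norm_pow, norm_inv, hσ1, inv_one, one_pow], ?_⟩
    have h3 : D ^ (2 * (n : ℤ)) = (D ^ 2) ^ n := by
      rw [_root_.zpow_mul, zpow_natCast]
      rfl
    rw [h3, hpow _ _ h2]
  · refine ⟨σ ^ n, by rw [norm_pow, hσ1, one_pow], ?_⟩
    have h3 : D ^ (2 * (-(n : ℤ))) = ((D⁻¹) ^ 2) ^ n := by
      rw [_root_.zpow_mul, _root_.zpow_neg, zpow_natCast, ← inv_pow, inv_pow D 2]
      rfl
    rw [h3, hpow _ _ h1]

/-- the value of a word in a group -/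
def vlu {G : Type} [Group G] (a b : G) (w : List (Bool × Bool)) : G :=
  (w.map fun l => (if l.1 then b else a) ^ (if l.2 then (1 : ℤ) else -1)).prod

lemma TW_vlu (hv : v ≠ 0) (hK : Nz v K) (w : List (Bool × Bool)) :
    Pool.Agent.Y481.CC.TW w.reverse b K v =
      (((vlu (uA b hv hK) (uB b hv hK) w : (Matrix (Fin (K + 1)) (Fin (K + 1)) ℂ)ˣ)) :
        Matrix (Fin (K + 1)) (Fin (K + 1)) ℂ).trace := by
  unfold Pool.Agent.Y481.CC.TW
  rw [← Matrix.trace_transpose, Matrix.transpose_list_prod, ← List.map_reverse, ← List.map_reverse,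
    List.reverse_reverse, List.map_map]
  congr 1
  induction w with
  | nil => simp [vlu]
  | cons l w ih =>
    have e1 : vlu (uA b hv hK) (uB b hv hK) (l :: w) =
        (if l.1 then (uB b hv hK) else uA b hv hK) ^ (if l.2 then (1 : ℤ) else -1) *
          vlu (uA b hv hK) (uB b hv hK) w := by
      simp [vlu]
    rw [e1, Units.val_mul, List.map_cons, List.prod_cons, ih]
    congr 1
    rcases l with ⟨_ | _, _ | _⟩
    · simp only [Bool.false_eq_true, if_false, _root_.zpow_neg, _root_.zpow_one]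
      rfl
    · simp only [Bool.false_eq_true, if_false, if_true, _root_.zpow_one]
      rfl
    · simp only [Bool.false_eq_true, if_false, if_true, _root_.zpow_neg, _root_.zpow_one]
      rfl
    · simp only [if_true, _root_.zpow_one]
      rfl

/-- **conjugate braids** -/
theorem TW_conj (hv1 : ‖v‖ = 1) (hv : v ≠ 0) (hK : Nz v K) {u w : List (Bool × Bool)} {i : ℤ}
    (h : ∀ (G : Type) [Group G] (x y : G), x * y * x = y * x * y → ∃ g : G,
      vlu x y u = g * ((x * y * x) ^ (2 * i) * vlu x y w) * g⁻¹) :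
    ‖Pool.Agent.Y481.CC.TW u.reverse b K v‖ = ‖Pool.Agent.Y481.CC.TW w.reverse b K v‖ := by
  obtain ⟨g, hg⟩ := h _ (uA b hv hK) (uB b hv hK) (u_rel hv hK)
  obtain ⟨c, hc, hc2⟩ := u_full (b := b) hv1 hv hK i
  rw [TW_vlu hv hK, TW_vlu hv hK, hg, Units.val_mul, Matrix.trace_mul_comm, ← Units.val_mul,
    ← mul_assoc, inv_mul_cancel, one_mul, Units.val_mul, hc2, Matrix.smul_mul, Matrix.one_mul,
    Matrix.trace_smul, norm_smul, hc, one_mul]

end Pool.Agent.H62.TV
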