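import Pool.Agent.H62.TV.Pair

/-!
Coefficient bounds, polynomials without zeros in a disc, and a sum of binomial terms.
-/

set_option autoImplicit false

namespace Pool.Agent.H62.TV

open Finset
open Pool.Agent.H62.VC (Ev Ev_cons Ev_congr Ev_mul Ev_eq Ev_prod ec factor)

variable {K : ℕ}

/-- a coefficient bound -/
lemma cauchy1 {c : ℕ → ℂ} {R M : ℝ} (hR : 0 < R)
    (h : ∀ u : ℂ, ‖u‖ = R → ‖∑ i ∈ range (K + 1), c i * u ^ i‖ ≤ M) :
    ∀ i, i ≤ K → ‖c i‖ * R ^ i ≤ M := by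
  intro i hi
  set n := K + 1 with hn
  have hn0 : n ≠ 0 := by omega
  set ζ : ℂ := Complex.exp (2 * Real.pi * Complex.I / n) with hζ
  have hprim : IsPrimitiveRoot ζ n := Complex.isPrimitiveRoot_exp n hn0
  have hζn : ζ ^ n = 1 := hprim.pow_eq_one
  have hζ1 : ‖ζ‖ = 1 := hprim.norm'_eq_one hn0
  have hgeom : ∀ j, j ≤ K → ∑ k ∈ range n, (ζ ^ k) ^ (n - i) * (ζ ^ k) ^ j =
      if j = i then (n : ℂ) else 0 := by
    intro j hj
    have e1 : ∀ k ∈ range n, (ζ ^ k) ^ (n - i) * (ζ ^ k) ^ j = (ζ ^ (n - i + j)) ^ k := by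
      intro k _
      rw [← pow_add, ← pow_mul, ← pow_mul, mul_comm]
    rw [sum_congr rfl e1]
    split_ifs with hji
    · subst hji
      have : n - j + j = n := by omega
      rw [this, hζn]
      simp
    · have h1 : ζ ^ (n - i + j) ≠ 1 := by
        intro h2
        rw [hprim.pow_eq_one_iff_dvd] at h2
        obtain ⟨m, hm⟩ := h2
        rcases Nat.lt_or_ge m 2 with h3 | h3
        · interval_cases m
          · omega
          · omega
        · have : n * 2 ≤ n * m := Nat.mul_le_mul_left _ h3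
          omega
      have h2 := mul_geom_sum (ζ ^ (n - i + j)) n
      rw [← pow_mul, mul_comm (n - i + j) n, pow_mul, hζn, one_pow, sub_self] at h2
      exact (mul_eq_zero.1 h2).resolve_left (sub_ne_zero.2 h1)
  have key : ∑ k ∈ range n, (ζ ^ k) ^ (n - i) * ∑ j ∈ range (K + 1), c j * ((R : ℂ) * ζ ^ k) ^ j =
      (n : ℂ) * (c i * (R : ℂ) ^ i) := by
    have e2 : ∀ k ∈ range n, (ζ ^ k) ^ (n - i) * ∑ j ∈ range (K + 1), c j * ((R : ℂ) * ζ ^ k) ^ j =
        ∑ j ∈ range (K + 1), c j * (R : ℂ) ^ j * ((ζ ^ k) ^ (n - i) * (ζ ^ k) ^ j) := by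
      intro k _
      rw [mul_sum]
      refine sum_congr rfl fun j _ => ?_
      rw [mul_pow]; ring
    rw [sum_congr rfl e2, sum_comm]
    have e3 : ∀ j ∈ range (K + 1), ∑ k ∈ range n, c j * (R : ℂ) ^ j *
        ((ζ ^ k) ^ (n - i) * (ζ ^ k) ^ j) = c j * (R : ℂ) ^ j * (if j = i then (n : ℂ) else 0) := by
      intro j hj
      rw [mem_range] at hj
      rw [← mul_sum, hgeom j (by omega)]
    rw [sum_congr rfl e3, sum_eq_single i]
    · rw [if_pos rfl]; ring
    · intro j _ hji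
      rw [if_neg hji, mul_zero]
    · intro hh
      exact absurd (mem_range.2 (by omega)) hh
  have h5 : ‖(n : ℂ) * (c i * (R : ℂ) ^ i)‖ ≤ n * M := by
    rw [← key]
    refine (norm_sum_le _ _).trans ?_
    have h6 : ∀ k ∈ range n, ‖(ζ ^ k) ^ (n - i) *
        ∑ j ∈ range (K + 1), c j * ((R : ℂ) * ζ ^ k) ^ j‖ ≤ M := by
      intro k _
      rw [norm_mul, norm_pow, norm_pow, hζ1, one_pow, one_pow, one_mul]
      refine h _ ?_
      rw [norm_mul, norm_pow, hζ1, one_pow, mul_one, Complex.norm_real, Real.norm_of_nonneg hR.le]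
    refine (sum_le_sum h6).trans ?_
    rw [sum_const, card_range, nsmul_eq_mul]
  have hnR : (0 : ℝ) < n := by exact_mod_cast Nat.pos_of_ne_zero hn0
  rw [norm_mul, norm_mul, norm_pow, Complex.norm_natCast, Complex.norm_real,
    Real.norm_of_nonneg hR.le] at h5
  exact le_of_mul_le_mul_left h5 hnR

lemma norm_one_add_le (w : ℂ) : ‖1 + w‖ ≤ Real.exp (w.re + ‖w‖ ^ 2 / 2) := by
  have h1 : ‖1 + w‖ ^ 2 ≤ Real.exp (w.re + ‖w‖ ^ 2 / 2) ^ 2 := by
    rw [← Real.exp_nat_mul, ← Complex.normSq_eq_norm_sq, ← Complex.normSq_eq_norm_sq,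
      Complex.normSq_apply, Complex.normSq_apply]
    simp only [Complex.add_re, Complex.one_re, Complex.add_im, Complex.one_im, zero_add]
    have h2 := Real.add_one_le_exp (((2 : ℕ) : ℝ) * (w.re + (w.re * w.re + w.im * w.im) / 2))
    refine le_trans (le_of_eq ?_) h2
    push_cast
    ring
  exact le_of_sq_le_sq h1 (Real.exp_pos _).le
where
  le_of_sq_le_sq {a b : ℝ} (h : a ^ 2 ≤ b ^ 2) (hb : 0 ≤ b) : a ≤ b :=
    (abs_le_of_sq_le_sq' h hb).2

/-- a product of factors near one -/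
lemma prod_one_add_le (V : List ℂ) {θ : ℝ} (hV : ∀ a ∈ V, ‖a‖ ≤ θ) (u : ℂ) :
    ‖(V.map fun a => 1 + u * a).prod‖ ≤
      Real.exp ((u * V.sum).re + V.length * ((‖u‖ * θ) ^ 2 / 2)) := by
  induction V with
  | nil => simp
  | cons a V ih =>
    have h1 := ih fun a' h => hV a' (List.mem_cons_of_mem _ h)
    have h2 := hV a List.mem_cons_self
    rw [List.map_cons, List.prod_cons, norm_mul, List.sum_cons, List.length_cons]
    have h3 := norm_one_add_le (u * a)
    have h4 : ‖u * a‖ ^ 2 / 2 ≤ (‖u‖ * θ) ^ 2 / 2 := by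
      rw [norm_mul]
      have := mul_le_mul_of_nonneg_left h2 (norm_nonneg u)
      have h5 := pow_le_pow_left₀ (by positivity) this 2
      linarith
    calc ‖1 + u * a‖ * ‖(V.map fun a => 1 + u * a).prod‖
        ≤ Real.exp ((u * a).re + ‖u * a‖ ^ 2 / 2) *
          Real.exp ((u * V.sum).re + V.length * ((‖u‖ * θ) ^ 2 / 2)) :=
          mul_le_mul h3 h1 (norm_nonneg _) (Real.exp_pos _).le
      _ = Real.exp ((u * a).re + ‖u * a‖ ^ 2 / 2 +
          ((u * V.sum).re + V.length * ((‖u‖ * θ) ^ 2 / 2))) := by rw [← Real.exp_add]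
      _ ≤ _ := by
          refine Real.exp_le_exp.2 ?_
          rw [mul_add, Complex.add_re]
          push_cast
          linarith

lemma Ev_hom (a b : ℂ) : ∀ Ω : List ℂ, Ev Ω (fun e => a ^ (Ω.length - e) * b ^ e) =
    (Ω.map fun ω => a + b * ω).prod := by
  intro Ω
  induction Ω with
  | nil => simp
  | cons ω Ω ih =>
    rw [Ev_cons, List.map_cons, List.prod_cons, List.length_cons, ← ih]
    have h1 : Ev Ω (fun e => a ^ (Ω.length + 1 - e) * b ^ e) =
        a * Ev Ω (fun e => a ^ (Ω.length - e) * b ^ e) := by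
      rw [← Ev_mul]
      refine Ev_congr Ω fun d hd => ?_
      have : Ω.length + 1 - d = (Ω.length - d) + 1 := by omega
      rw [this, pow_succ]; ring
    have h2 : Ev Ω (fun e => a ^ (Ω.length + 1 - (e + 1)) * b ^ (e + 1)) =
        b * Ev Ω (fun e => a ^ (Ω.length - e) * b ^ e) := by
      rw [← Ev_mul]
      refine Ev_congr Ω fun d hd => ?_
      have : Ω.length + 1 - (d + 1) = Ω.length - d := by omega
      rw [this, pow_succ]; ring
    rw [h1, h2]; ring

lemma Ev_pow' (s : ℂ) (Ω : List ℂ) : Ev Ω (fun e => s ^ e) = (Ω.map fun ω => 1 + s * ω).prod := by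
  rw [← Ev_hom]
  refine Ev_congr Ω fun d _ => by rw [one_pow, one_mul]

lemma ec_one : ∀ Ω : List ℂ, ec Ω 1 = Ω.sum := by
  intro Ω
  induction Ω with
  | nil => simp [ec]
  | cons ω Ω ih =>
    rw [ec, ih]
    simp [Pool.Agent.H62.VC.ec_zero, List.sum_cons]
    ring

lemma Ev_sum_ec (Ω : List ℂ) (hΩ : Ω.length = K) (u : ℂ) :
    (Ω.map fun ω => 1 + u * ω).prod = ∑ i ∈ range (K + 1), ec Ω i * u ^ i := by
  rw [← Ev_pow', Ev_eq, hΩ]

/-- a polynomial without zeros in a disc, without linear term -/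
lemma zero_free_le {c : ℕ → ℂ} (hc : c 0 ≠ 0) {ρ : ℝ} (hρ : 0 < ρ)
    (h : ∀ s : ℂ, ‖s‖ < ρ → ∑ i ∈ range (K + 1), c i * s ^ i ≠ 0) (hc1 : 1 ≤ K → c 1 = 0) (s : ℂ) :
    ‖∑ i ∈ range (K + 1), c i * s ^ i‖ ≤ ‖c 0‖ * Real.exp (K * ((‖s‖ / ρ) ^ 2 / 2)) := by
  obtain ⟨Ω, h1, h2, h3⟩ := factor K c hc
  have h4 : ∀ ω ∈ Ω, ‖ω‖ ≤ 1 / ρ := by
    intro ω hω
    by_contra hcon
    push Not at hcon
    have hω0 : ω ≠ 0 := by
      rintro rfl
      rw [norm_zero] at hcon
      have : 0 < 1 / ρ := by positivity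
      linarith
    have hωp : 0 < ‖ω‖ := norm_pos_iff.2 hω0
    refine h (-(1 / ω)) ?_ ?_
    · rw [norm_neg, norm_div, norm_one]
      rw [div_lt_iff₀ hρ] at hcon
      rw [div_lt_iff₀ hωp]
      linarith
    · have h5 := h3 ω hω
      have h6 : ∑ i ∈ range (K + 1), c i * (-(1 / ω)) ^ i =
          ((-ω) ^ K)⁻¹ * ∑ e ∈ range (K + 1), c e * (-ω) ^ (K - e) := by
        rw [mul_sum]
        refine sum_congr rfl fun i hi => ?_
        rw [mem_range] at hi
        have h7 : (-ω) ^ K = (-ω) ^ (K - i) * (-ω) ^ i := by rw [← pow_add]; congr 1; omega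
        have h8 : (-(1 / ω)) ^ i = ((-ω) ^ i)⁻¹ := by rw [← inv_pow]; congr 1; rw [one_div, neg_inv]
        have h9 : (-ω) ^ (K - i) ≠ 0 := pow_ne_zero _ (neg_ne_zero.2 hω0)
        have h10 : (-ω) ^ i ≠ 0 := pow_ne_zero _ (neg_ne_zero.2 hω0)
        rw [h7, h8]
        field_simp
      rw [h6, h5, mul_zero]
  have h5 : Ω.sum = 0 := by
    rcases Nat.eq_zero_or_pos K with hK | hK
    · rw [hK, List.length_eq_zero_iff] at h1
      rw [h1]; simp
    · have h6 := h2 fun e => if e = 1 then 1 else 0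
      rw [sum_eq_single 1] at h6
      · rw [if_pos rfl, mul_one, hc1 hK, Ev_eq, h1, sum_eq_single 1] at h6
        · rw [if_pos rfl, mul_one, ec_one] at h6
          exact (mul_eq_zero.1 h6.symm).resolve_left hc
        · intro b _ hb
          rw [if_neg hb, mul_zero]
        · intro hh
          exact absurd (mem_range.2 (by omega)) hh
      · intro b _ hb
        rw [if_neg hb, mul_zero]
      · intro hh
        exact absurd (mem_range.2 (by omega)) hh
  rw [h2 fun e => s ^ e, norm_mul, Ev_pow']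
  refine mul_le_mul_of_nonneg_left ?_ (norm_nonneg _)
  refine (prod_one_add_le Ω h4 s).trans ?_
  rw [h5, mul_zero, Complex.zero_re, zero_add, h1, mul_one_div]

/-! ### binomial sums -/

lemma fact_two : ∀ i : ℕ, (i + 1).factorial * 2 ^ i ≤ (i + 1) ^ (i + 1) := by
  intro i
  induction i with
  | zero => simp
  | succ i ih =>
    have h1 : 2 * (i + 1) ^ (i + 1) ≤ (i + 1 + 1) ^ (i + 1) := by
      have h2 : (1 + (i + 1 : ℕ) * ((1 : ℝ) / (i + 1))) ≤ (1 + 1 / ((i : ℝ) + 1)) ^ (i + 1) :=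
        one_add_mul_le_pow (le_trans (by norm_num) (by positivity :
          (0 : ℝ) ≤ 1 / ((i : ℝ) + 1))) (i + 1)
      have h3 : (1 + (i + 1 : ℕ) * ((1 : ℝ) / (i + 1))) = 2 := by
        push_cast
        field_simp
        norm_num
      rw [h3] at h2
      have h4 : (1 + 1 / ((i : ℝ) + 1)) = ((i : ℝ) + 1 + 1) / (i + 1) := by field_simp
      rw [h4, div_pow, le_div_iff₀ (by positivity)] at h2
      exact_mod_cast h2
    calc (i + 1 + 1).factorial * 2 ^ (i + 1) = (i + 2) * 2 * ((i + 1).factorial * 2 ^ i) := by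
          rw [Nat.factorial_succ, pow_succ]; ring
      _ ≤ (i + 2) * 2 * (i + 1) ^ (i + 1) := Nat.mul_le_mul_left _ ih
      _ = (i + 2) * (2 * (i + 1) ^ (i + 1)) := by ring
      _ ≤ (i + 2) * (i + 1 + 1) ^ (i + 1) := Nat.mul_le_mul_left _ h1
      _ = (i + 1 + 1) ^ (i + 1 + 1) := by rw [pow_succ (i + 1 + 1)]; ring

/-- the first binomials -/
lemma choose_small {i : ℕ} (hi : 1 ≤ i) (hi2 : i ≤ 60) (hK : 1000000 ≤ K) :
    ((K : ℝ) / i) ^ i ≤ 101 / 100 * (2 * (1 / 2) ^ i) * (K.choose i : ℝ) := by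
  obtain ⟨j, rfl⟩ : ∃ j, i = j + 1 := ⟨i - 1, by omega⟩
  have hKR : (1000000 : ℝ) ≤ K := by exact_mod_cast hK
  have hK0 : (0 : ℝ) < K := by linarith
  have h1 : (K + 1 - (j + 1)) ^ (j + 1) ≤ K.descFactorial (j + 1) :=
    Nat.pow_sub_le_descFactorial K (j + 1)
  have h2 : (K.descFactorial (j + 1) : ℝ) = (j + 1).factorial * K.choose (j + 1) := by
    exact_mod_cast Nat.descFactorial_eq_factorial_mul_choose K (j + 1)
  have hjR : (j : ℝ) + 1 ≤ 60 := by exact_mod_cast hi2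
  have h3 : ((K : ℝ) - 60) ^ (j + 1) ≤ (j + 1).factorial * K.choose (j + 1) := by
    rw [← h2]
    refine le_trans ?_ (by exact_mod_cast h1 : (((K + 1 - (j + 1) : ℕ) : ℝ)) ^ (j + 1) ≤ _)
    refine pow_le_pow_left₀ (by linarith) ?_ _
    rw [Nat.cast_sub (by omega)]
    push_cast
    linarith
  have h4 : (1 - 60 / (K : ℝ)) ^ (j + 1) * (K : ℝ) ^ (j + 1) = ((K : ℝ) - 60) ^ (j + 1) := by
    rw [← mul_pow]; congr 1; field_simp
  have h5 : (100 : ℝ) / 101 ≤ (1 - 60 / (K : ℝ)) ^ (j + 1) := by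
    have h6 := one_add_mul_le_pow (a := -(60 / (K : ℝ))) (by
      have : 60 / (K : ℝ) ≤ 1 := by rw [div_le_one hK0]; linarith
      linarith) (j + 1)
    have h7 : 60 / (K : ℝ) ≤ 60 / 1000000 := div_le_div_of_nonneg_left (by norm_num) (by norm_num) hKR
    push_cast at h6
    have h8 : ((j : ℝ) + 1) * (60 / (K : ℝ)) ≤ 60 * (60 / 1000000) := by
      refine mul_le_mul hjR h7 (by positivity) (by norm_num)
    have h9 : (1 : ℝ) + -(60 / (K : ℝ)) = 1 - 60 / (K : ℝ) := by ring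
    rw [h9] at h6
    linarith
  have h10 : 100 / 101 * (K : ℝ) ^ (j + 1) ≤ (j + 1).factorial * K.choose (j + 1) := by
    rw [← h4] at h3
    exact (mul_le_mul_of_nonneg_right h5 (by positivity)).trans h3
  have h11 : ((j + 1).factorial : ℝ) * 2 ^ j ≤ ((j : ℝ) + 1) ^ (j + 1) := by
    exact_mod_cast fact_two j
  rw [div_pow, div_le_iff₀ (by positivity)]
  have h12 : (2 : ℝ) * (1 / 2) ^ (j + 1) = 1 / 2 ^ j := by
    rw [pow_succ, one_div_pow]; ring
  rw [h12]
  have h13 : (0 : ℝ) < 2 ^ j := by positivity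
  have hC : (0 : ℝ) ≤ (K.choose (j + 1) : ℝ) := Nat.cast_nonneg _
  have h14 : ((j + 1 : ℕ) : ℝ) = (j : ℝ) + 1 := by push_cast; ring
  rw [h14]
  have h15 : 101 / 100 * (1 / 2 ^ j) * (K.choose (j + 1) : ℝ) * ((j : ℝ) + 1) ^ (j + 1) =
      101 / 100 * (K.choose (j + 1) : ℝ) * (((j : ℝ) + 1) ^ (j + 1) / 2 ^ j) := by ring
  rw [h15]
  have h16 : ((j + 1).factorial : ℝ) ≤ ((j : ℝ) + 1) ^ (j + 1) / 2 ^ j := by
    rw [le_div_iff₀ h13]; exact h11
  have h17 := mul_le_mul_of_nonneg_left h16 (by positivity :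
    (0 : ℝ) ≤ 101 / 100 * (K.choose (j + 1) : ℝ))
  nlinarith

lemma choose_any : ∀ {i K : ℕ}, i ≤ K → ((K : ℝ) / i) ^ i ≤ (K.choose i : ℝ) := by
  intro i
  induction i with
  | zero => intro K _; simp
  | succ i ih =>
    intro K hK
    obtain ⟨k, rfl⟩ : ∃ k, K = k + 1 := ⟨K - 1, by omega⟩
    have hik : i ≤ k := by omega
    have h1 := ih hik
    have h2 : ((k + 1).choose (i + 1) : ℝ) = ((k : ℝ) + 1) / (i + 1) * k.choose i := by
      have h3 := Nat.add_one_mul_choose_eq k i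
      have h4 : ((k : ℝ) + 1) * k.choose i = (k + 1).choose (i + 1) * (i + 1) := by
        exact_mod_cast h3
      field_simp
      linarith
    rw [h2, pow_succ, mul_comm]
    push_cast
    refine mul_le_mul_of_nonneg_left (le_trans ?_ h1) (by positivity)
    rcases Nat.eq_zero_or_pos i with rfl | hi
    · simp
    · have hiR : (0 : ℝ) < i := by exact_mod_cast hi
      have hikR : (i : ℝ) ≤ k := by exact_mod_cast hik
      refine pow_le_pow_left₀ (by positivity) ?_ _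
      rw [div_le_div_iff₀ (by linarith) hiR]
      nlinarith

/-- the sum of the terms -/
lemma sum_terms {Θ : ℝ} (h0 : 0 ≤ Θ) (hΘ : Θ ≤ 4 / 25) (hK : 1000000 ≤ K) :
    Θ * Real.exp (1 / (2 * K)) + ∑ i ∈ Icc 2 K, (2 * Real.exp 1 * Θ * (K / i)) ^ i / K.choose i ≤
      9 / 10 := by
  have hKR : (1000000 : ℝ) ≤ K := by exact_mod_cast hK
  have he := Real.exp_one_lt_d9
  have he0 := Real.exp_pos 1
  set x : ℝ := Real.exp 1 * Θ with hx
  have hx0 : 0 ≤ x := by positivity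
  have hx1 : x ≤ 435 / 1000 := by rw [hx]; nlinarith
  have h1 : Real.exp (1 / (2 * K)) ≤ 101 / 100 := by
    have h2 : 1 / (2 * (K : ℝ)) ≤ 1 / 1000 :=
      one_div_le_one_div_of_le (by norm_num) (by linarith)
    have h3 := Real.exp_bound_div_one_sub_of_interval (x := 1 / 1000) (by norm_num) (by norm_num)
    exact (Real.exp_le_exp.2 h2).trans (h3.trans (by norm_num))
  have h2 : ∀ i ∈ Icc 2 K, (2 * Real.exp 1 * Θ * (K / i)) ^ i / K.choose i ≤
      (if i ≤ 60 then 202 / 100 * x ^ i else (2 * x) ^ i) := by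
    intro i hi
    rw [mem_Icc] at hi
    have hC : (0 : ℝ) < K.choose i := by exact_mod_cast Nat.choose_pos hi.2
    rw [div_le_iff₀ hC, mul_pow]
    have e1 : 2 * Real.exp 1 * Θ = 2 * x := by rw [hx]; ring
    rw [e1]
    split_ifs with h60
    · have h3 := choose_small (K := K) (by omega : 1 ≤ i) h60 hK
      have h4 := mul_le_mul_of_nonneg_left h3 (by positivity : 0 ≤ (2 * x) ^ i)
      refine h4.trans (le_of_eq ?_)
      have hp : (2 : ℝ) ^ i * (1 / 2) ^ i = 1 := by rw [← mul_pow]; norm_num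
      have : (2 * x) ^ i * (101 / 100 * (2 * (1 / 2) ^ i) * (K.choose i : ℝ)) =
          202 / 100 * ((2 : ℝ) ^ i * (1 / 2) ^ i) * x ^ i * K.choose i := by
        rw [mul_pow]; ring
      rw [this, hp]; norm_num
    · exact mul_le_mul_of_nonneg_left (choose_any hi.2) (by positivity)
  have h3 : ∑ i ∈ Icc 2 K, (2 * Real.exp 1 * Θ * (K / i)) ^ i / K.choose i ≤ 70 / 100 := by
    refine (sum_le_sum h2).trans ?_
    have h4 : ∑ i ∈ Icc 2 K, (if i ≤ 60 then 202 / 100 * x ^ i else (2 * x) ^ i) ≤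
        ∑ i ∈ Icc 2 K, (202 / 100 * (435 / 1000 : ℝ) ^ i) + ∑ i ∈ Ico 61 (K + 1), (870 / 1000 : ℝ) ^ i := by
      have h5 : ∑ i ∈ Icc 2 K, (if i ≤ 60 then 202 / 100 * x ^ i else (2 * x) ^ i) ≤
          ∑ i ∈ Icc 2 K, (202 / 100 * (435 / 1000 : ℝ) ^ i +
            if 61 ≤ i then (870 / 1000 : ℝ) ^ i else 0) := by
        refine sum_le_sum fun i _ => ?_
        have h6 : x ^ i ≤ (435 / 1000) ^ i := pow_le_pow_left₀ hx0 hx1 i
        have h7 : (2 * x) ^ i ≤ (870 / 1000) ^ i :=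
          pow_le_pow_left₀ (by positivity) (by linarith) i
        have h8 : (0 : ℝ) ≤ (435 / 1000) ^ i := by positivity
        split_ifs
        · omega
        · linarith
        · linarith
        · omega
      refine h5.trans ?_
      rw [sum_add_distrib]
      refine add_le_add le_rfl ?_
      rw [← sum_filter]
      refine sum_le_sum_of_subset_of_nonneg (fun i hi => ?_) fun i _ _ => by positivity
      rw [mem_filter, mem_Icc] at hi
      rw [mem_Ico]
      omega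
    refine h4.trans ?_
    have h5 : ∑ i ∈ Icc 2 K, (202 / 100 * (435 / 1000 : ℝ) ^ i) ≤
        202 / 100 * ((435 / 1000) ^ 2 / (1 - 435 / 1000)) := by
      rw [← mul_sum]
      refine mul_le_mul_of_nonneg_left ?_ (by norm_num)
      have e1 : Icc 2 K = Ico 2 (K + 1) := by ext i; simp [Nat.lt_succ_iff]
      rw [e1]
      exact geom_Ico (by norm_num) (by norm_num) _ _
    have h6 : ∑ i ∈ Ico 61 (K + 1), (870 / 1000 : ℝ) ^ i ≤ (870 / 1000) ^ 61 / (1 - 870 / 1000) :=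
      geom_Ico (by norm_num) (by norm_num) _ _
    have h7 : 202 / 100 * ((435 / 1000 : ℝ) ^ 2 / (1 - 435 / 1000)) +
        (870 / 1000) ^ 61 / (1 - 870 / 1000) ≤ 70 / 100 := by norm_num
    linarith
  nlinarith
where
  geom_Ico {a : ℝ} (ha0 : 0 ≤ a) (ha : a < 1) (m n : ℕ) :
      ∑ i ∈ Ico m n, a ^ i ≤ a ^ m / (1 - a) := by
    rcases Nat.lt_or_ge n m with h | h
    · rw [Ico_eq_empty (by omega), sum_empty]
      exact div_nonneg (pow_nonneg ha0 _) (by linarith)
    · rw [sum_Ico_eq_sum_range]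
      have h1 : ∑ i ∈ range (n - m), a ^ (m + i) = a ^ m * ∑ i ∈ range (n - m), a ^ i := by
        rw [mul_sum]
        exact sum_congr rfl fun i _ => pow_add _ _ _
      rw [h1, div_eq_mul_inv]
      refine mul_le_mul_of_nonneg_left ?_ (pow_nonneg ha0 _)
      rw [geom_sum_eq ha.ne, ← neg_div_neg_eq, neg_sub, neg_sub, div_eq_mul_inv]
      have h2 : 0 < (1 - a)⁻¹ := inv_pos.2 (by linarith)
      have h3 : 1 - a ^ (n - m) ≤ 1 := by
        have := pow_nonneg ha0 (n - m)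
        linarith
      nlinarith

end Pool.Agent.H62.TV
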