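import Pool.Agent.H62.TV.Word

/-!
Alternating words, their Möbius transformations on the half plane, and fixed points.
-/

set_option autoImplicit false

namespace Pool.Agent.H62.TV

open Finset

/-- a letter on the real line -/
noncomputable def phR (l : Bool) (z : ℝ) : ℝ := if l then z / (1 + z) else 1 + z

/-- a word on the real line -/
noncomputable def gR : List Bool → ℝ → ℝ
  | [], z => z
  | l :: w, z => gR w (phR l z)

lemma ph_real (l : Bool) (z : ℝ) : ph l (z : ℂ) = ((phR l z : ℝ) : ℂ) := by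
  unfold ph phR
  split_ifs <;> push_cast <;> rfl

lemma gw_real : ∀ (w : List Bool) (z : ℝ), gw w (z : ℂ) = ((gR w z : ℝ) : ℂ) := by
  intro w
  induction w with
  | nil => intro z; rfl
  | cons l w ih =>
    intro z
    change gw w (ph l z) = ((gR w (phR l z) : ℝ) : ℂ)
    rw [ph_real, ih]

/-- the coefficients of the denominator -/
noncomputable def cJ : List Bool → ℝ × ℝ
  | [] => (0, 1)
  | l :: w => if l then ((cJ w).1 + (cJ w).2, (cJ w).2) else ((cJ w).1, (cJ w).1 + (cJ w).2)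

/-- the denominator -/
noncomputable def Jw (w : List Bool) (z : ℂ) : ℂ := (cJ w).1 * z + (cJ w).2

lemma cJ_nonneg : ∀ w : List Bool, 0 ≤ (cJ w).1 ∧ 0 < (cJ w).2 := by
  intro w
  induction w with
  | nil => simp [cJ]
  | cons l w ih =>
    obtain ⟨h1, h2⟩ := ih
    unfold cJ
    split_ifs
    · exact ⟨by simp only; linarith, h2⟩
    · exact ⟨h1, by simp only; linarith⟩

lemma one_add_ne {z : ℂ} (hz : 0 < z.re) : 1 + z ≠ 0 := by
  intro h5
  have h6 : (1 + z).re = 0 := by rw [h5]; simp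
  simp at h6; linarith

lemma Jw_cons (l : Bool) (w : List Bool) {z : ℂ} (hz : 0 < z.re) :
    Jw (l :: w) z = (if l then 1 + z else 1) * Jw w (ph l z) := by
  have h := one_add_ne hz
  unfold Jw
  cases l
  · simp only [cJ, ph, Bool.false_eq_true, if_false]
    push_cast; ring
  · simp only [cJ, ph, if_true]
    push_cast
    field_simp
    ring

lemma Jw_ge {w : List Bool} {z : ℂ} (hz : 0 < z.re) : 0 < (Jw w z).re := by
  obtain ⟨h1, h2⟩ := cJ_nonneg w
  unfold Jw
  simp only [Complex.add_re, Complex.mul_re, Complex.ofReal_re, Complex.ofReal_im, zero_mul,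
    sub_zero]
  positivity

lemma Jw_ne {w : List Bool} {z : ℂ} (hz : 0 < z.re) : Jw w z ≠ 0 := by
  intro h
  have := Jw_ge (w := w) hz
  rw [h] at this
  simp at this

lemma ph_re (l : Bool) {z : ℂ} (hz : 0 < z.re) : 0 < (ph l z).re := by
  cases l
  · simp only [ph, Bool.false_eq_true, if_false, Complex.add_re, Complex.one_re]; linarith
  · simp only [ph, if_true]
    rw [Complex.div_re, ← add_div]
    refine div_pos ?_ (Complex.normSq_pos.2 (one_add_ne hz))
    simp only [Complex.add_re, Complex.one_re, Complex.add_im, Complex.one_im, zero_add]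
    nlinarith [mul_self_nonneg z.im]

/-- the difference of two images -/
lemma gw_diff : ∀ (w : List Bool) {z ζ : ℂ}, 0 < z.re → 0 < ζ.re →
    gw w z - gw w ζ = (z - ζ) / (Jw w z * Jw w ζ) := by
  intro w
  induction w with
  | nil => intro z ζ _ _; simp [gw, Jw, cJ]
  | cons l w ih =>
    intro z ζ hz hζ
    change gw w (ph l z) - gw w (ph l ζ) = _
    rw [ih (ph_re l hz) (ph_re l hζ), Jw_cons l w hz, Jw_cons l w hζ]
    have h1 := one_add_ne hz
    have h2 := one_add_ne hζ
    have h3 := Jw_ne (w := w) (ph_re l hz)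
    have h4 := Jw_ne (w := w) (ph_re l hζ)
    cases l
    · rw [ph_diff_Q]
      simp
    · rw [ph_diff_P h1 h2]
      simp only [if_true]
      field_simp

/-- the denominator near a positive point -/
lemma Jw_near {w : List Bool} {ζ : ℝ} (hζ : 0 < ζ) {z : ℂ} {r : ℝ}
    (hz : ‖z - ζ‖ ≤ r * ζ) : (1 - r) * ‖Jw w ζ‖ ≤ ‖Jw w z‖ := by
  obtain ⟨h1, h2⟩ := cJ_nonneg w
  have h3 : Jw w ζ - Jw w z = (cJ w).1 * (ζ - z) := by unfold Jw; ring
  have h4 : ‖Jw w ζ - Jw w z‖ ≤ r * ‖Jw w ζ‖ := by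
    have h5 : ‖Jw w (ζ : ℂ)‖ = (cJ w).1 * ζ + (cJ w).2 := by
      have : Jw w (ζ : ℂ) = (((cJ w).1 * ζ + (cJ w).2 : ℝ) : ℂ) := by unfold Jw; push_cast; ring
      rw [this, Complex.norm_real, Real.norm_of_nonneg (by positivity)]
    rw [h3, norm_mul, Complex.norm_real, Real.norm_of_nonneg h1, norm_sub_rev, h5]
    have h6 : 0 ≤ r := by
      have := (norm_nonneg _).trans hz
      by_contra hcon
      push Not at hcon
      nlinarith
    have h7 := mul_le_mul_of_nonneg_left hz h1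
    have h8 : 0 ≤ r * (cJ w).2 := by positivity
    linarith
  have h5 := norm_sub_norm_le (Jw w (ζ : ℂ)) (Jw w z)
  linarith

lemma Jw_real_norm (w : List Bool) {ζ : ℝ} (hζ : 0 ≤ ζ) :
    ‖Jw w (ζ : ℂ)‖ = (cJ w).1 * ζ + (cJ w).2 := by
  obtain ⟨h1, h2⟩ := cJ_nonneg w
  have : Jw w (ζ : ℂ) = (((cJ w).1 * ζ + (cJ w).2 : ℝ) : ℂ) := by unfold Jw; push_cast; ring
  rw [this, Complex.norm_real, Real.norm_of_nonneg (by positivity)]

/-- contraction -/
lemma gw_contr {w : List Bool} {ζ : ℝ} (hζ : 0 < ζ) {z z' : ℂ} {r : ℝ} (hr : r < 1)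
    (hz : ‖z - ζ‖ ≤ r * ζ) (hz' : ‖z' - ζ‖ ≤ r * ζ) {J : ℝ} (hJ0 : 0 < J) (hJ : J ≤ ‖Jw w ζ‖) :
    ‖gw w z - gw w z'‖ ≤ ‖z - z'‖ / ((1 - r) ^ 2 * J ^ 2) := by
  have re_pos : ∀ {z : ℂ}, ‖z - ζ‖ ≤ r * ζ → 0 < z.re := by
    intro z hz
    have h1 := (Complex.abs_re_le_norm (z - ζ)).trans hz
    rw [Complex.sub_re, Complex.ofReal_re] at h1
    have := abs_le.1 h1
    nlinarith
  rw [gw_diff w (re_pos hz) (re_pos hz'), norm_div, norm_mul]
  have h1 := Jw_near (w := w) hζ hz
  have h2 := Jw_near (w := w) hζ hz'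
  have h3 : (1 - r) * J ≤ (1 - r) * ‖Jw w ζ‖ := mul_le_mul_of_nonneg_left hJ (by linarith)
  have h4 : 0 < (1 - r) * J := mul_pos (by linarith) hJ0
  refine div_le_div_of_nonneg_left (norm_nonneg _) (by positivity) ?_
  calc (1 - r) ^ 2 * J ^ 2 = ((1 - r) * J) * ((1 - r) * J) := by ring
    _ ≤ ‖Jw w z‖ * ‖Jw w z'‖ := mul_le_mul (h3.trans h1) (h3.trans h2) h4.le (norm_nonneg _)

/-- contraction to first order at the centre -/
lemma gw_contr1 {w : List Bool} {ζ : ℝ} (hζ : 0 < ζ) {z : ℂ} {r : ℝ} (hr : r < 1)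
    (hz : ‖z - ζ‖ ≤ r * ζ) {J : ℝ} (hJ0 : 0 < J) (hJ : J ≤ ‖Jw w ζ‖) :
    ‖gw w z - gw w ζ‖ ≤ ‖z - ζ‖ / ((1 - r) * J ^ 2) := by
  have h0 : 0 < z.re := by
    have h1 := (Complex.abs_re_le_norm (z - ζ)).trans hz
    rw [Complex.sub_re, Complex.ofReal_re] at h1
    have := abs_le.1 h1
    nlinarith
  rw [gw_diff w h0 (by simpa using hζ), norm_div, norm_mul]
  have h1 := Jw_near (w := w) hζ hz
  have h3 : (1 - r) * J ≤ (1 - r) * ‖Jw w ζ‖ := mul_le_mul_of_nonneg_left hJ (by linarith)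
  have h4 : 0 < (1 - r) * J := mul_pos (by linarith) hJ0
  refine div_le_div_of_nonneg_left (norm_nonneg _) (by positivity) ?_
  calc (1 - r) * J ^ 2 = ((1 - r) * J) * J := by ring
    _ ≤ ‖Jw w z‖ * ‖Jw w ζ‖ := mul_le_mul (h3.trans h1) hJ hJ0.le (norm_nonneg _)

/-! ### orbits of real points -/

/-- the real orbit stays in `[1/m, m]` -/
def RO (m : ℝ) : ℝ → List Bool → Prop
  | ζ, [] => 1 / m ≤ ζ ∧ ζ ≤ m
  | ζ, l :: w => (1 / m ≤ ζ ∧ ζ ≤ m) ∧ RO m (phR l ζ) w

lemma RO.head {m ζ : ℝ} {w : List Bool} (h : RO m ζ w) : 1 / m ≤ ζ ∧ ζ ≤ m := by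
  cases w with
  | nil => exact h
  | cons l w => exact h.1

lemma gR_append : ∀ (w w' : List Bool) (z : ℝ), gR (w ++ w') z = gR w' (gR w z) := by
  intro w
  induction w with
  | nil => intro w' z; rfl
  | cons l w ih => intro w' z; exact ih w' _

lemma RO_append {m : ℝ} : ∀ (w w' : List Bool) (z : ℝ), RO m z w → RO m (gR w z) w' →
    RO m z (w ++ w') := by
  intro w
  induction w with
  | nil => intro w' z _ h; exact h
  | cons l w ih => intro w' z h h'; exact ⟨h.1, ih w' _ h.2 h'⟩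

lemma phR_pos (l : Bool) {z : ℝ} (hz : 0 < z) : 0 < phR l z := by
  unfold phR
  split_ifs <;> positivity

lemma gR_pos : ∀ (w : List Bool) {z : ℝ}, 0 < z → 0 < gR w z := by
  intro w
  induction w with
  | nil => intro z hz; exact hz
  | cons l w ih => intro z hz; exact ih (phR_pos l hz)

lemma phR_cont (l : Bool) : ContinuousOn (phR l) (Set.Ioi 0) := by
  cases l
  · have : phR false = fun z => 1 + z := by funext z; simp [phR]
    rw [this]
    fun_prop
  · have : phR true = fun z => z / (1 + z) := by funext z; simp [phR]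
    rw [this]
    intro z hz
    have hz' : (0 : ℝ) < z := hz
    have h1 : (1 : ℝ) + z ≠ 0 := by positivity
    exact (continuous_id.continuousWithinAt).div
      ((continuous_const.add continuous_id).continuousWithinAt) h1

lemma gR_cont : ∀ w : List Bool, ContinuousOn (gR w) (Set.Ioi 0) := by
  intro w
  induction w with
  | nil => exact continuousOn_id
  | cons l w ih =>
    exact ih.comp (phR_cont l) fun z hz => phR_pos l hz

/-- a complex point near a real orbit -/
lemma orb_of_real {m r : ℝ} (hm : 1 ≤ m) (hr0 : 0 ≤ r) (hr : r ≤ 1 / 20) :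
    ∀ (w : List Bool) (ζc : ℝ) (ζ : ℂ), RO m ζc w → ‖ζ - ζc‖ ≤ r * ζc →
      Orb (3 * m) ζ w ∧ ‖gw w ζ - gR w ζc‖ ≤ r * gR w ζc := by
  have base : ∀ (ζc : ℝ) (ζ : ℂ), 1 / m ≤ ζc → ζc ≤ m → ‖ζ - ζc‖ ≤ r * ζc →
      Slim ζ ∧ BB ζ ≤ 3 * m := by
    intro ζc ζ h1 h2 h3
    have hζ : 0 < ζc := lt_of_lt_of_le (by positivity) h1
    have h4 : ‖ζ - ζc‖ ≤ 1 / 20 * ζc := h3.trans (mul_le_mul_of_nonneg_right hr hζ.le)
    have h5 := abs_le.1 ((Complex.abs_re_le_norm (ζ - ζc)).trans h4)
    have h6 := (Complex.abs_im_le_norm (ζ - ζc)).trans h4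
    rw [Complex.sub_re, Complex.ofReal_re] at h5
    rw [Complex.sub_im, Complex.ofReal_im, sub_zero] at h6
    refine ⟨⟨by linarith, by linarith⟩, ?_⟩
    have h7 : ‖ζ‖ ≤ 21 / 20 * ζc := by
      have := norm_add_le (ζ - ζc) (ζc : ℂ)
      rw [sub_add_cancel, Complex.norm_real, Real.norm_of_nonneg hζ.le] at this
      linarith
    have h8 : 19 / 20 * ζc ≤ ‖ζ‖ := by
      have := Complex.re_le_norm ζ
      linarith
    have h9 : 1 / ‖ζ‖ ≤ 20 / 19 * m := by
      have h10 : (0 : ℝ) < 19 / 20 * ζc := by positivity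
      have h11 : 1 / ‖ζ‖ ≤ 1 / (19 / 20 * ζc) := one_div_le_one_div_of_le h10 h8
      have h12 : 1 / (19 / 20 * ζc) = 20 / 19 * (1 / ζc) := by field_simp
      have h13 : 1 / ζc ≤ m := by
        rw [div_le_iff₀ hζ]
        rw [div_le_iff₀ (by linarith)] at h1
        linarith
      rw [h12] at h11
      linarith
    unfold BB
    linarith
  intro w
  induction w with
  | nil =>
    intro ζc ζ h1 h2
    exact ⟨base ζc ζ h1.1 h1.2 h2, h2⟩
  | cons l w ih =>
    intro ζc ζ h1 h2
    obtain ⟨⟨h3, h4⟩, h5⟩ := h1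
    have hζ : 0 < ζc := lt_of_lt_of_le (by positivity) h3
    have hb := base ζc ζ h3 h4 h2
    have h6 : ‖ph l ζ - (phR l ζc : ℝ)‖ ≤ r * phR l ζc := by
      rw [← ph_real]
      cases l
      · rw [ph_diff_Q]
        have : phR false ζc = 1 + ζc := by simp [phR]
        rw [this]
        refine h2.trans ?_
        nlinarith
      · have e1 : (1 : ℂ) + ζ ≠ 0 := one_add_ne hb.1.2
        have e2 : (1 : ℂ) + (ζc : ℂ) ≠ 0 := one_add_ne (by simpa using hζ)
        rw [ph_diff_P e1 e2, norm_div, norm_mul]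
        have e3 : ‖(1 : ℂ) + (ζc : ℂ)‖ = 1 + ζc := by
          have : (1 : ℂ) + (ζc : ℂ) = ((1 + ζc : ℝ) : ℂ) := by push_cast; rfl
          rw [this, Complex.norm_real, Real.norm_of_nonneg (by positivity)]
        have e4 : 1 ≤ ‖(1 : ℂ) + ζ‖ := by
          have := one_add_ge (le_refl ζ.re)
          have := hb.1.2
          linarith
        have e5 : phR true ζc = ζc / (1 + ζc) := by simp [phR]
        rw [e3, e5, ← mul_div_assoc]
        calc ‖ζ - ζc‖ / (‖(1 : ℂ) + ζ‖ * (1 + ζc)) ≤ ‖ζ - ζc‖ / (1 * (1 + ζc)) := by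
              refine div_le_div_of_nonneg_left (norm_nonneg _) (by positivity) ?_
              exact mul_le_mul_of_nonneg_right e4 (by positivity)
          _ ≤ r * ζc / (1 + ζc) := by
              rw [one_mul]
              exact div_le_div_of_nonneg_right h2 (by positivity)
    obtain ⟨g1, g2⟩ := ih (phR l ζc) (ph l ζ) h5 h6
    exact ⟨⟨hb, g1⟩, g2⟩

/-! ### alternating words -/

/-- the alternating word of a list of pairs of exponents -/
def alt : List (ℕ × ℕ) → List Bool
  | [] => []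
  | (p, q) :: l => List.replicate p true ++ (List.replicate q false ++ alt l)

/-- the reversed alternating words -/
def altr : List (ℕ × ℕ) → List Bool
  | [] => []
  | (p, q) :: l => List.replicate q false ++ (List.replicate p true ++ altr l)

lemma altr_append : ∀ l l' : List (ℕ × ℕ), altr (l ++ l') = altr l ++ altr l' := by
  intro l
  induction l with
  | nil => intro l'; rfl
  | cons a l ih =>
    intro l'
    obtain ⟨p, q⟩ := a
    simp [altr, ih]

lemma alt_reverse : ∀ l : List (ℕ × ℕ), (alt l).reverse = altr l.reverse := by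
  intro l
  induction l with
  | nil => rfl
  | cons a l ih =>
    obtain ⟨p, q⟩ := a
    rw [List.reverse_cons, altr_append, ← ih]
    simp [alt, altr]

lemma gR_P (k : ℕ) {z : ℝ} (hz : 0 < z) : gR (List.replicate k true) z = z / (1 + k * z) := by
  induction k generalizing z with
  | zero => simp [gR]
  | succ k ih =>
    rw [List.replicate_succ]
    change gR (List.replicate k true) (phR true z) = _
    rw [ih (phR_pos true hz)]
    unfold phR
    simp only [if_true]
    push_cast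
    field_simp
    ring

lemma gR_Q (k : ℕ) (z : ℝ) : gR (List.replicate k false) z = z + k := by
  induction k generalizing z with
  | zero => simp [gR]
  | succ k ih =>
    rw [List.replicate_succ]
    change gR (List.replicate k false) (phR false z) = _
    rw [ih]
    unfold phR
    simp only [Bool.false_eq_true, if_false]
    push_cast
    ring

variable {A : ℕ}

lemma RO_P {k : ℕ} (hk : k ≤ A) : ∀ {z : ℝ}, 1 / ((A : ℝ) + 1 - k) ≤ z → z ≤ A + 1 →
    RO ((A : ℝ) + 1) z (List.replicate k true) := by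
  induction k with
  | zero =>
    intro z h1 h2
    refine ⟨?_, h2⟩
    simpa using h1
  | succ k ih =>
    intro z h1 h2
    rw [List.replicate_succ]
    have hkR : ((k + 1 : ℕ) : ℝ) ≤ A := by exact_mod_cast hk
    push_cast at hkR h1
    have hd : (0 : ℝ) < (A : ℝ) + 1 - (k + 1) := by linarith
    have hz : 0 < z := lt_of_lt_of_le (by positivity) h1
    have hk0 : (0 : ℝ) ≤ k := Nat.cast_nonneg k
    refine ⟨⟨?_, h2⟩, ih (by omega) ?_ ?_⟩
    · refine le_trans ?_ h1
      exact one_div_le_one_div_of_le hd (by linarith)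
    · unfold phR
      simp only [if_true]
      rw [div_le_iff₀ hd] at h1
      rw [div_le_div_iff₀ (by linarith) (by positivity)]
      nlinarith
    · unfold phR
      simp only [if_true]
      rw [div_le_iff₀ (by positivity)]
      have : (0 : ℝ) ≤ A := Nat.cast_nonneg A
      nlinarith

lemma RO_Q {k : ℕ} (hk : k ≤ A) : ∀ {z : ℝ}, 1 / ((A : ℝ) + 1) ≤ z → z ≤ A + 1 - k →
    RO ((A : ℝ) + 1) z (List.replicate k false) := by
  induction k with
  | zero =>
    intro z h1 h2
    refine ⟨h1, ?_⟩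
    simpa using h2
  | succ k ih =>
    intro z h1 h2
    rw [List.replicate_succ]
    push_cast at h2
    have hk0 : (0 : ℝ) ≤ k := Nat.cast_nonneg k
    refine ⟨⟨h1, by linarith⟩, ih (by omega) ?_ ?_⟩
    · unfold phR
      simp only [Bool.false_eq_true, if_false]
      linarith
    · unfold phR
      simp only [Bool.false_eq_true, if_false]
      linarith

/-- exponents between `1` and `A` -/
def Ok (A : ℕ) (l : List (ℕ × ℕ)) : Prop := ∀ a ∈ l, 1 ≤ a.1 ∧ a.1 ≤ A ∧ 1 ≤ a.2 ∧ a.2 ≤ A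

lemma stepPQ {p q : ℕ} (hp : 1 ≤ p) (hpA : p ≤ A) (hq : 1 ≤ q) (hqA : q ≤ A) {z : ℝ} (h1 : 1 ≤ z)
    (h2 : z ≤ A + 1) :
    RO ((A : ℝ) + 1) z (List.replicate p true ++ List.replicate q false) ∧
      1 ≤ gR (List.replicate p true ++ List.replicate q false) z ∧
      gR (List.replicate p true ++ List.replicate q false) z ≤ A + 1 := by
  have hpR : (1 : ℝ) ≤ p := by exact_mod_cast hp
  have hpA' : (p : ℝ) ≤ A := by exact_mod_cast hpA
  have hqR : (1 : ℝ) ≤ q := by exact_mod_cast hq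
  have hqA' : (q : ℝ) ≤ A := by exact_mod_cast hqA
  have hz : 0 < z := by linarith
  have g1 := gR_P p hz
  have g2 : 0 < z / (1 + p * z) := by positivity
  have g3 : z / (1 + p * z) ≤ 1 := by
    rw [div_le_one (by positivity)]
    nlinarith
  have g4 : 1 / ((A : ℝ) + 1) ≤ z / (1 + p * z) := by
    rw [div_le_div_iff₀ (by positivity) (by positivity)]
    nlinarith
  have g5 : gR (List.replicate p true ++ List.replicate q false) z = z / (1 + p * z) + q := by
    rw [gR_append, g1, gR_Q]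
  refine ⟨RO_append _ _ _ (RO_P hpA ?_ h2) ?_, ?_, ?_⟩
  · refine le_trans ?_ h1
    rw [div_le_one (by linarith)]
    linarith
  · rw [g1]
    exact RO_Q hqA g4 (by linarith)
  · rw [g5]; linarith
  · rw [g5]; linarith

lemma stepQP {p q : ℕ} (hp : 1 ≤ p) (hpA : p ≤ A) (hq : 1 ≤ q) (hqA : q ≤ A) {z : ℝ}
    (h1 : 1 / ((A : ℝ) + 1) ≤ z) (h2 : z ≤ 1) :
    RO ((A : ℝ) + 1) z (List.replicate q false ++ List.replicate p true) ∧
      1 / ((A : ℝ) + 1) ≤ gR (List.replicate q false ++ List.replicate p true) z ∧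
      gR (List.replicate q false ++ List.replicate p true) z ≤ 1 := by
  have hpR : (1 : ℝ) ≤ p := by exact_mod_cast hp
  have hpA' : (p : ℝ) ≤ A := by exact_mod_cast hpA
  have hqR : (1 : ℝ) ≤ q := by exact_mod_cast hq
  have hqA' : (q : ℝ) ≤ A := by exact_mod_cast hqA
  have hz : 0 < z := lt_of_lt_of_le (by positivity) h1
  have hz' : 0 < z + q := by positivity
  have g1 := gR_Q q z
  have g5 : gR (List.replicate q false ++ List.replicate p true) z =
      (z + q) / (1 + p * (z + q)) := by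
    rw [gR_append, g1, gR_P p hz']
  refine ⟨RO_append _ _ _ (RO_Q hqA h1 (by linarith)) ?_, ?_, ?_⟩
  · rw [g1]
    refine RO_P hpA ?_ (by linarith)
    rw [div_le_iff₀ (by linarith)]
    nlinarith
  · rw [g5, div_le_div_iff₀ (by positivity) (by positivity)]
    nlinarith
  · rw [g5, div_le_one (by positivity)]
    nlinarith

lemma Ok.tail {a : ℕ × ℕ} {l : List (ℕ × ℕ)} (h : Ok A (a :: l)) : Ok A l :=
  fun b hb => h b (List.mem_cons_of_mem _ hb)

lemma RO_alt : ∀ {l : List (ℕ × ℕ)}, Ok A l → ∀ {z : ℝ}, 1 ≤ z → z ≤ A + 1 →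
    RO ((A : ℝ) + 1) z (alt l) ∧ 1 ≤ gR (alt l) z ∧ gR (alt l) z ≤ A + 1 := by
  intro l
  induction l with
  | nil =>
    intro _ z h1 h2
    have : (0 : ℝ) ≤ A := Nat.cast_nonneg A
    refine ⟨⟨le_trans ?_ h1, h2⟩, h1, h2⟩
    rw [div_le_one (by linarith)]
    linarith
  | cons a l ih =>
    intro h z h1 h2
    obtain ⟨p, q⟩ := a
    obtain ⟨h3, h4, h5, h6⟩ := h (p, q) List.mem_cons_self
    obtain ⟨g1, g2, g3⟩ := stepPQ h3 h4 h5 h6 h1 h2
    obtain ⟨k1, k2, k3⟩ := ih h.tail g2 g3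
    have e1 : alt ((p, q) :: l) = (List.replicate p true ++ List.replicate q false) ++ alt l := by
      simp [alt]
    rw [e1, gR_append]
    exact ⟨RO_append _ _ _ g1 k1, k2, k3⟩

lemma RO_altr : ∀ {l : List (ℕ × ℕ)}, Ok A l → ∀ {z : ℝ}, 1 / ((A : ℝ) + 1) ≤ z → z ≤ 1 →
    RO ((A : ℝ) + 1) z (altr l) ∧ 1 / ((A : ℝ) + 1) ≤ gR (altr l) z ∧ gR (altr l) z ≤ 1 := by
  intro l
  induction l with
  | nil =>
    intro _ z h1 h2
    have : (0 : ℝ) ≤ A := Nat.cast_nonneg A
    exact ⟨⟨h1, by linarith⟩, h1, h2⟩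
  | cons a l ih =>
    intro h z h1 h2
    obtain ⟨p, q⟩ := a
    obtain ⟨h3, h4, h5, h6⟩ := h (p, q) List.mem_cons_self
    obtain ⟨g1, g2, g3⟩ := stepQP h3 h4 h5 h6 h1 h2
    obtain ⟨k1, k2, k3⟩ := ih h.tail g2 g3
    have e1 : altr ((p, q) :: l) = (List.replicate q false ++ List.replicate p true) ++ altr l := by
      simp [altr]
    rw [e1, gR_append]
    exact ⟨RO_append _ _ _ g1 k1, k2, k3⟩

/-- the real denominator -/
noncomputable def JR (w : List Bool) (z : ℝ) : ℝ := (cJ w).1 * z + (cJ w).2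

lemma JR_P (k : ℕ) (w : List Bool) {z : ℝ} (hz : 0 < z) :
    JR (List.replicate k true ++ w) z = (1 + k * z) * JR w (gR (List.replicate k true) z) := by
  induction k generalizing z with
  | zero => simp [gR]
  | succ k ih =>
    rw [List.replicate_succ, List.cons_append]
    have e1 : JR (true :: (List.replicate k true ++ w)) z =
        (1 + z) * JR (List.replicate k true ++ w) (z / (1 + z)) := by
      unfold JR
      simp only [cJ, if_true]
      field_simp
      ring
    have hz' : 0 < z / (1 + z) := by positivity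
    have e2 : gR (true :: List.replicate k true) z = gR (List.replicate k true) (z / (1 + z)) := by
      change gR (List.replicate k true) (phR true z) = _
      simp [phR]
    rw [e1, ih hz', e2, ← mul_assoc]
    congr 1
    push_cast
    field_simp
    ring

lemma JR_Q (k : ℕ) (w : List Bool) (z : ℝ) :
    JR (List.replicate k false ++ w) z = JR w (z + k) := by
  induction k generalizing z with
  | zero => simp
  | succ k ih =>
    rw [List.replicate_succ, List.cons_append]
    have e1 : JR (false :: (List.replicate k false ++ w)) z =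
        JR (List.replicate k false ++ w) (z + 1) := by
      unfold JR
      simp only [cJ, Bool.false_eq_true, if_false]
      ring
    rw [e1, ih]
    congr 1
    push_cast
    ring

lemma JR_pos (w : List Bool) {z : ℝ} (hz : 0 < z) : 0 < JR w z := by
  obtain ⟨h1, h2⟩ := cJ_nonneg w
  unfold JR; positivity

lemma JR_alt : ∀ {l : List (ℕ × ℕ)}, Ok A l → ∀ {z : ℝ}, 1 ≤ z → z ≤ A + 1 →
    2 ^ l.length ≤ JR (alt l) z := by
  intro l
  induction l with
  | nil => intro _ z h1 _; simp [alt, JR, cJ]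
  | cons a l ih =>
    intro h z h1 h2
    obtain ⟨p, q⟩ := a
    obtain ⟨h3, h4, h5, h6⟩ := h (p, q) List.mem_cons_self
    obtain ⟨g1, g2, g3⟩ := stepPQ h3 h4 h5 h6 h1 h2
    have hz : 0 < z := by linarith
    rw [alt, JR_P _ _ hz, JR_Q, ← gR_Q, ← gR_append]
    have k1 := ih h.tail g2 g3
    have hpR : (1 : ℝ) ≤ p := by exact_mod_cast h3
    have k2 : 2 ≤ 1 + p * z := by nlinarith
    rw [List.length_cons, pow_succ, mul_comm]
    exact mul_le_mul k2 k1 (by positivity) (by linarith)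

lemma JR_altr : ∀ {l : List (ℕ × ℕ)}, Ok A l → ∀ {z : ℝ}, 1 / ((A : ℝ) + 1) ≤ z → z ≤ 1 →
    2 ^ l.length ≤ JR (altr l) z := by
  intro l
  induction l with
  | nil => intro _ z h1 _; simp [altr, JR, cJ]
  | cons a l ih =>
    intro h z h1 h2
    obtain ⟨p, q⟩ := a
    obtain ⟨h3, h4, h5, h6⟩ := h (p, q) List.mem_cons_self
    obtain ⟨g1, g2, g3⟩ := stepQP h3 h4 h5 h6 h1 h2
    have hz : 0 < z := lt_of_lt_of_le (by positivity) h1
    have hz' : 0 < z + q := by positivity
    rw [altr, JR_Q, JR_P _ _ hz']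
    have e1 : gR (List.replicate p true) (z + q) =
        gR (List.replicate q false ++ List.replicate p true) z := by
      rw [gR_append, gR_Q]
    rw [e1]
    have k1 := ih h.tail g2 g3
    have hpR : (1 : ℝ) ≤ p := by exact_mod_cast h3
    have hqR : (1 : ℝ) ≤ q := by exact_mod_cast h5
    have k2 : 2 ≤ 1 + p * (z + q) := by nlinarith
    rw [List.length_cons, pow_succ, mul_comm]
    exact mul_le_mul k2 k1 (by positivity) (by linarith)

lemma JR_eq (w : List Bool) {z : ℝ} (hz : 0 ≤ z) : ‖Jw w (z : ℂ)‖ = JR w z := by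
  rw [Jw_real_norm w hz]; rfl

/-- the fixed point of an alternating word -/
lemma fix_alt {l : List (ℕ × ℕ)} (h : Ok A l) : ∃ z : ℝ, 1 ≤ z ∧ z ≤ A + 1 ∧ gR (alt l) z = z := by
  have hA : (0 : ℝ) ≤ A := Nat.cast_nonneg A
  have h1 : ContinuousOn (gR (alt l)) (Set.Icc 1 ((A : ℝ) + 1)) :=
    (gR_cont _).mono fun z hz => lt_of_lt_of_le one_pos hz.1
  have h2 : Set.MapsTo (gR (alt l)) (Set.Icc 1 ((A : ℝ) + 1)) (Set.Icc 1 ((A : ℝ) + 1)) :=
    fun z hz => ⟨(RO_alt h hz.1 hz.2).2.1, (RO_alt h hz.1 hz.2).2.2⟩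
  obtain ⟨z, hz, hf⟩ := exists_mem_Icc_isFixedPt_of_mapsTo h1 (by linarith) h2
  exact ⟨z, hz.1, hz.2, hf⟩

/-- the fixed point of a reversed alternating word -/
lemma fix_altr {l : List (ℕ × ℕ)} (h : Ok A l) :
    ∃ z : ℝ, 1 / ((A : ℝ) + 1) ≤ z ∧ z ≤ 1 ∧ gR (altr l) z = z := by
  have hA : (0 : ℝ) ≤ A := Nat.cast_nonneg A
  have h0 : (0 : ℝ) < 1 / ((A : ℝ) + 1) := by positivity
  have h1 : ContinuousOn (gR (altr l)) (Set.Icc (1 / ((A : ℝ) + 1)) 1) :=
    (gR_cont _).mono fun z hz => lt_of_lt_of_le h0 hz.1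
  have h2 : Set.MapsTo (gR (altr l)) (Set.Icc (1 / ((A : ℝ) + 1)) 1)
      (Set.Icc (1 / ((A : ℝ) + 1)) 1) :=
    fun z hz => ⟨(RO_altr h hz.1 hz.2).2.1, (RO_altr h hz.1 hz.2).2.2⟩
  have h3 : 1 / ((A : ℝ) + 1) ≤ 1 := by
    rw [div_le_one (by linarith)]; linarith
  obtain ⟨z, hz, hf⟩ := exists_mem_Icc_isFixedPt_of_mapsTo h1 h3 h2
  exact ⟨z, hz.1, hz.2, hf⟩

/-- the multiplier at the fixed point -/
lemma JR_fix {l : List (ℕ × ℕ)} (h : Ok A l) (hl : l ≠ []) {z : ℝ} (h1 : 1 ≤ z) (h2 : z ≤ A + 1)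
    (hf : gR (alt l) z = z) : 13 / 5 ≤ JR (alt l) z := by
  have h3 := JR_alt h h1 h2
  match l, hl, h, hf, h3 with
  | [(p, q)], _, h, hf, _ =>
    obtain ⟨g3, g4, g5, g6⟩ := h (p, q) List.mem_cons_self
    have hpR : (1 : ℝ) ≤ p := by exact_mod_cast g3
    have hqR : (1 : ℝ) ≤ q := by exact_mod_cast g5
    have hz : 0 < z := by linarith
    have e1 : alt [(p, q)] = List.replicate p true ++ List.replicate q false := by simp [alt]
    rw [e1, gR_append, gR_P p hz, gR_Q] at hf
    have e2 : JR (alt [(p, q)]) z = 1 + p * z := by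
      rw [alt, JR_P _ _ hz, JR_Q]
      simp [alt, JR, cJ]
    rw [e2]
    have e3 : z = z * (1 + p * z) - q * (1 + p * z) := by
      have h4 : 0 < 1 + p * z := by positivity
      field_simp at hf
      linarith
    have e4 : (p * z) * (p * z) = p * q * (1 + p * z) := by
      linear_combination (-(p : ℝ)) * e3
    have e5 : 1 * (1 + p * z) ≤ p * q * (1 + p * z) := by
      refine mul_le_mul_of_nonneg_right ?_ (by positivity)
      nlinarith
    by_contra hcon
    push Not at hcon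
    have e6 : p * z < 8 / 5 := by linarith
    have e7 : 0 ≤ p * z := by positivity
    nlinarith
  | a :: b :: l, _, h, hf, h3 =>
    refine le_trans ?_ h3
    rw [List.length_cons, List.length_cons, pow_succ, pow_succ]
    have : (1 : ℝ) ≤ 2 ^ l.length := one_le_pow₀ (by norm_num)
    linarith

/-! ### growth -/

lemma Jl_append : ∀ (w w' : List Bool) (ζ : ℂ), Jl ζ (w ++ w') = Jl ζ w * Jl (gw w ζ) w' := by
  intro w
  induction w with
  | nil => intro w' ζ; simp [Jl, gw]
  | cons l w ih =>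
    intro w' ζ
    rw [List.cons_append, Jl, Jl, ih, mul_assoc]
    rfl

lemma Jl_alt : ∀ {l : List (ℕ × ℕ)}, Ok A l → ∀ {z : ℝ}, 1 ≤ z → z ≤ A + 1 →
    (9 / 5) ^ l.length ≤ Jl (z : ℂ) (alt l) := by
  intro l
  induction l with
  | nil => intro _ z _ _; simp [alt, Jl]
  | cons a l ih =>
    intro h z h1 h2
    obtain ⟨p, q⟩ := a
    obtain ⟨h3, h4, h5, h6⟩ := h (p, q) List.mem_cons_self
    obtain ⟨g1, g2, g3⟩ := stepPQ h3 h4 h5 h6 h1 h2
    have k1 := ih h.tail g2 g3
    have e1 : alt ((p, q) :: l) = (List.replicate p true ++ List.replicate q false) ++ alt l := by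
      simp [alt]
    rw [e1, Jl_append, gw_real, List.length_cons, pow_succ, mul_comm]
    refine mul_le_mul ?_ k1 (by positivity) (Jl_pos _ _).le
    obtain ⟨k, rfl⟩ : ∃ k, p = k + 1 := ⟨p - 1, by omega⟩
    rw [List.replicate_succ, List.cons_append, Jl]
    simp only [if_true]
    have e2 := Jl_ge_one (List.replicate k true ++ List.replicate q false) (ph true z)
    have e3 : ‖(z : ℂ)‖ = z := by
      rw [Complex.norm_real, Real.norm_of_nonneg (by linarith)]
    rw [e3]
    nlinarith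

end Pool.Agent.H62.TV
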