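import Pool.Agent.H62.TV.Trc
import Pool.Agent.H62.TV.Mob

/-!
Logarithmic derivatives of evaluations.
-/

set_option autoImplicit false

namespace Pool.Agent.H62.TV

open Finset
open Pool.Agent.H62.VC (Ev Ev_cons Ev_congr Ev_mul Ev_eq Ev_prod ec ec_zero factor)

variable {K : ℕ}

/-- the logarithmic derivative of a polynomial away from its zeros -/
lemma sum_deriv_le {c : ℕ → ℂ} {r : ℝ} (hr : 0 < r)
    (h : ∀ s : ℂ, ‖s - 1‖ < r → ∑ i ∈ range (K + 1), c i * s ^ i ≠ 0) :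
    ‖∑ i ∈ range (K + 1), (i : ℂ) * c i‖ ≤ K / r * ‖∑ i ∈ range (K + 1), c i‖ := by
  set f : Polynomial ℂ := ∑ i ∈ range (K + 1), Polynomial.C (c i) * Polynomial.X ^ i with hf
  have he : ∀ s : ℂ, f.eval s = ∑ i ∈ range (K + 1), c i * s ^ i := by
    intro s
    rw [hf]
    simp only [Polynomial.eval_finsetSum, Polynomial.eval_mul, Polynomial.eval_C,
      Polynomial.eval_pow, Polynomial.eval_X]
  have h1 : f.eval 1 = ∑ i ∈ range (K + 1), c i := by
    rw [he]
    exact sum_congr rfl fun i _ => by rw [one_pow, mul_one]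
  have h2 : f.derivative.eval 1 = ∑ i ∈ range (K + 1), (i : ℂ) * c i := by
    rw [hf]
    simp only [Polynomial.derivative_sum, Polynomial.derivative_C_mul_X_pow,
      Polynomial.eval_finsetSum, Polynomial.eval_mul, Polynomial.eval_C,
      Polynomial.eval_pow, Polynomial.eval_X]
    exact sum_congr rfl fun i _ => by rw [one_pow, mul_one, mul_comm]
  have hne : f.eval 1 ≠ 0 := by
    rw [he]; exact h 1 (by simpa using hr)
  have hf0 : f ≠ 0 := by
    intro h0
    rw [h0] at hne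
    simp at hne
  have h3 := (IsAlgClosed.splits f).eval_derivative_eq_eval_mul_sum hne
  rw [← h1, ← h2, h3, norm_mul, mul_comm]
  refine mul_le_mul_of_nonneg_right ?_ (norm_nonneg _)
  have h4 : ∀ a ∈ f.roots, ‖1 / (1 - a)‖ ≤ 1 / r := by
    intro a ha
    have h5 : f.eval a = 0 := by
      rw [Polynomial.mem_roots hf0] at ha
      exact ha
    rw [he] at h5
    have h6 : r ≤ ‖1 - a‖ := by
      by_contra hcon
      push Not at hcon
      exact h a (by rw [norm_sub_rev]; exact hcon) h5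
    rw [norm_div, norm_one]
    exact one_div_le_one_div_of_le hr h6
  have h5 : ‖(f.roots.map fun a => 1 / (1 - a)).sum‖ ≤ f.roots.card * (1 / r) := by
    generalize f.roots = s at h4
    induction s using Multiset.induction with
    | empty => simp
    | cons a s ih =>
      rw [Multiset.map_cons, Multiset.sum_cons, Multiset.card_cons]
      refine (norm_add_le _ _).trans ?_
      have h6 := ih fun b hb => h4 b (Multiset.mem_cons_of_mem hb)
      have h7 := h4 a (Multiset.mem_cons_self a s)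
      push_cast
      linarith
  refine h5.trans ?_
  rw [mul_one_div]
  refine div_le_div_of_nonneg_right ?_ hr.le
  have h6 : f.natDegree ≤ K := by
    rw [hf]
    refine Polynomial.natDegree_sum_le_of_forall_le _ _ fun i hi => ?_
    rw [mem_range] at hi
    exact (Polynomial.natDegree_C_mul_X_pow_le _ _).trans (by omega)
  exact_mod_cast (Polynomial.card_roots' f).trans h6

/-- the logarithmic derivative of an evaluation without zeros -/
lemma phi_le {zc : ℝ} (hzc : 0 < zc) {y : ℕ → ℂ}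
    (hne : ∀ L : List ℂ, L.length = K → (∀ w ∈ L, ‖w - zc‖ < zc / 20) → Ev L y ≠ 0)
    {L : List ℂ} (hL : L.length = K) (hL1 : ∀ w ∈ L, ‖w - zc‖ ≤ zc / 40) :
    ‖Ev L (fun d => (d : ℂ) * y d) / Ev L y‖ ≤ 60 * K := by
  have h0 : Ev L y ≠ 0 := hne L hL fun w hw => (hL1 w hw).trans_lt (by linarith)
  have e1 : Ev L y = ∑ i ∈ range (K + 1), ec L i * y i := by rw [Ev_eq, hL]
  have e2 : Ev L (fun d => (d : ℂ) * y d) = ∑ i ∈ range (K + 1), (i : ℂ) * (ec L i * y i) := by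
    rw [Ev_eq, hL]
    exact sum_congr rfl fun i _ => by ring
  have h1 := sum_deriv_le (K := K) (c := fun i => ec L i * y i) (r := 1 / 60) (by norm_num)
    (by
      intro s hs
      have e3 : ∑ i ∈ range (K + 1), ec L i * y i * s ^ i = Ev (L.map fun w => s * w) y := by
        rw [Ev_smul, Ev_eq, hL]
        exact sum_congr rfl fun i _ => by ring
      rw [e3]
      refine hne _ (by rw [List.length_map, hL]) fun w hw => ?_
      rw [List.mem_map] at hw
      obtain ⟨w', hw', rfl⟩ := hw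
      have h2 := hL1 w' hw'
      have h3 : ‖w'‖ ≤ 41 / 40 * zc := by
        have := norm_add_le (w' - zc) (zc : ℂ)
        rw [sub_add_cancel, Complex.norm_real, Real.norm_of_nonneg hzc.le] at this
        linarith
      have e4 : s * w' - zc = (w' - zc) + (s - 1) * w' := by ring
      rw [e4]
      refine (norm_add_le _ _).trans_lt ?_
      rw [norm_mul]
      have h4 : ‖s - 1‖ * ‖w'‖ ≤ 1 / 60 * (41 / 40 * zc) :=
        mul_le_mul hs.le h3 (norm_nonneg _) (by norm_num)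
      linarith)
  rw [← e2, ← e1] at h1
  rw [norm_div, div_le_iff₀ (norm_pos_iff.2 h0)]
  refine h1.trans (le_of_eq ?_)
  ring

lemma Ev_path_diff (z : ℂ) : ∀ (C : List ℂ) (y : ℕ → ℂ),
    Differentiable ℂ fun τ : ℂ => Ev (C.map fun c => z * (1 + τ * c)) y := by
  intro C
  induction C with
  | nil => intro y; simp
  | cons c C ih =>
    intro y
    simp only [List.map_cons, Ev_cons]
    exact (ih y).add (((differentiable_const z).mul ((differentiable_const 1).add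
      (differentiable_id.mul (differentiable_const c)))).mul (ih fun d => y (d + 1)))

/-- two close lists -/
theorem phi_close {zc : ℝ} (hzc : 0 < zc) {y : ℕ → ℂ}
    (hne : ∀ L : List ℂ, L.length = K → (∀ w ∈ L, ‖w - zc‖ < zc / 20) → Ev L y ≠ 0)
    {z : ℂ} (hz : ‖z - zc‖ ≤ zc / 80) {C : List ℂ} (hC : C.length = K) {δ : ℝ} (hδ0 : 0 < δ)
    (hδ : δ ≤ 1 / 1000) (hCδ : ∀ c ∈ C, ‖c‖ ≤ δ) :
    ‖Ev (C.map fun c => z * (1 + c)) (fun d => (d : ℂ) * y d) / Ev (C.map fun c => z * (1 + c)) y -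
      Ev (List.replicate K z) (fun d => (d : ℂ) * y d) / Ev (List.replicate K z) y‖ ≤
      12000 * K * δ := by
  set Φ : ℂ → ℂ := fun τ => Ev (C.map fun c => z * (1 + τ * c)) (fun d => (d : ℂ) * y d) /
    Ev (C.map fun c => z * (1 + τ * c)) y with hΦ
  have hT : 0 < 1 / (100 * δ) := by positivity
  have hin : ∀ τ : ℂ, ‖τ‖ < 1 / (100 * δ) → ∀ w ∈ C.map fun c => z * (1 + τ * c),
      ‖w - zc‖ ≤ zc / 40 := by
    intro τ hτ w hw
    rw [List.mem_map] at hw
    obtain ⟨c, hc, rfl⟩ := hw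
    have h3 : ‖z‖ ≤ 81 / 80 * zc := by
      have := norm_add_le (z - zc) (zc : ℂ)
      rw [sub_add_cancel, Complex.norm_real, Real.norm_of_nonneg hzc.le] at this
      linarith
    have e4 : z * (1 + τ * c) - zc = (z - zc) + (τ * c) * z := by ring
    rw [e4]
    refine (norm_add_le _ _).trans ?_
    rw [norm_mul, norm_mul]
    have h4 : ‖τ‖ * ‖c‖ ≤ 1 / (100 * δ) * δ :=
      mul_le_mul hτ.le (hCδ c hc) (norm_nonneg _) hT.le
    have h5 : 1 / (100 * δ) * δ = 1 / 100 := by field_simp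
    rw [h5] at h4
    have h6 : ‖τ‖ * ‖c‖ * ‖z‖ ≤ 1 / 100 * (81 / 80 * zc) :=
      mul_le_mul h4 h3 (norm_nonneg _) (by norm_num)
    linarith
  have hlen : ∀ τ : ℂ, (C.map fun c => z * (1 + τ * c)).length = K := fun τ => by
    rw [List.length_map, hC]
  have hne' : ∀ τ : ℂ, ‖τ‖ < 1 / (100 * δ) → Ev (C.map fun c => z * (1 + τ * c)) y ≠ 0 :=
    fun τ hτ => hne _ (hlen τ) fun w hw => (hin τ hτ w hw).trans_lt (by linarith)
  have hb : ∀ τ : ℂ, ‖τ‖ < 1 / (100 * δ) → ‖Φ τ‖ ≤ 60 * K := fun τ hτ =>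
    phi_le hzc hne (hlen τ) (hin τ hτ)
  have hd : DifferentiableOn ℂ Φ (Metric.ball 0 (1 / (100 * δ))) := by
    intro τ hτ
    rw [mem_ball_zero_iff] at hτ
    exact (Ev_path_diff z C _ τ).differentiableWithinAt.div
      (Ev_path_diff z C _ τ).differentiableWithinAt (hne' τ hτ)
  have hmaps : Set.MapsTo Φ (Metric.ball 0 (1 / (100 * δ))) (Metric.closedBall (Φ 0) (120 * K)) := by
    intro τ hτ
    rw [mem_ball_zero_iff] at hτ
    rw [mem_closedBall_iff_norm]
    have h1 := hb τ hτ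
    have h2 := hb 0 (by rw [norm_zero]; exact hT)
    have h3 := norm_sub_le (Φ τ) (Φ 0)
    linarith
  have h1 : (1 : ℂ) ∈ Metric.ball (0 : ℂ) (1 / (100 * δ)) := by
    rw [mem_ball_zero_iff, norm_one, lt_div_iff₀ (by positivity)]
    linarith
  have h2 := Complex.dist_le_div_mul_dist_of_mapsTo_ball hd hmaps h1
  rw [dist_eq_norm, dist_eq_norm, sub_zero, norm_one, mul_one] at h2
  have e1 : Φ 1 = Ev (C.map fun c => z * (1 + c)) (fun d => (d : ℂ) * y d) /
      Ev (C.map fun c => z * (1 + c)) y := by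
    simp only [hΦ, one_mul]
  have e2 : Φ 0 = Ev (List.replicate K z) (fun d => (d : ℂ) * y d) /
      Ev (List.replicate K z) y := by
    have e3 : (C.map fun _ => z) = List.replicate K z := by
      rw [List.map_const', hC]
    simp only [hΦ, zero_mul, add_zero, mul_one]
    rw [e3]
  rw [e1, e2] at h2
  refine h2.trans (le_of_eq ?_)
  field_simp
  ring

/-- the derivative of a product -/
lemma prod_deriv (t z : ℂ) (Ω : List ℂ) (hne : ∀ ω ∈ Ω, t * z + ω ≠ 0) :
    HasDerivAt (fun z : ℂ => (Ω.map fun ω => t * z + ω).prod)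
      ((Ω.map fun ω => t * z + ω).prod * (Ω.map fun ω => t / (t * z + ω)).sum) z := by
  induction Ω with
  | nil => simpa using hasDerivAt_const z (1 : ℂ)
  | cons ω Ω ih =>
    have h1 := ih fun ω' h => hne ω' (List.mem_cons_of_mem _ h)
    have h0 := hne ω List.mem_cons_self
    simp only [List.map_cons, List.prod_cons, List.sum_cons]
    have h2 : HasDerivAt (fun z : ℂ => t * z + ω) t z := by
      have := ((hasDerivAt_id z).const_mul t).add_const ω
      simpa using this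
    refine (h2.mul h1).congr_deriv ?_
    field_simp

/-- the Euler derivative of an evaluation which factors -/
lemma euler_prod {y : ℕ → ℂ} {L0 Ω : List ℂ} {C t : ℂ}
    (h : ∀ z : ℂ, Ev (L0.map fun l => z * l) y = C * (Ω.map fun ω => t * z + ω).prod) (z : ℂ)
    (hne : ∀ ω ∈ Ω, t * z + ω ≠ 0) :
    Ev (L0.map fun l => z * l) (fun d => (d : ℂ) * y d) =
      Ev (L0.map fun l => z * l) y * (Ω.map fun ω => t * z / (t * z + ω)).sum := by
  have e1 : ∀ (z : ℂ) (y : ℕ → ℂ), Ev (L0.map fun l => z * l) y =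
      ∑ d ∈ range (L0.length + 1), ec L0 d * y d * z ^ d := by
    intro z y
    rw [Ev_smul, Ev_eq]
    exact sum_congr rfl fun d _ => by ring
  have h1 : HasDerivAt (fun z : ℂ => ∑ d ∈ range (L0.length + 1), ec L0 d * y d * z ^ d)
      (∑ d ∈ range (L0.length + 1), ec L0 d * y d * ((d : ℂ) * z ^ (d - 1))) z :=
    HasDerivAt.fun_sum fun d _ => (hasDerivAt_pow d z).const_mul _
  have h2 : HasDerivAt (fun z : ℂ => C * (Ω.map fun ω => t * z + ω).prod)
      (C * ((Ω.map fun ω => t * z + ω).prod * (Ω.map fun ω => t / (t * z + ω)).sum)) z :=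
    (prod_deriv t z Ω hne).const_mul C
  have h3 : (fun z : ℂ => ∑ d ∈ range (L0.length + 1), ec L0 d * y d * z ^ d) =
      fun z : ℂ => C * (Ω.map fun ω => t * z + ω).prod := by
    funext z
    rw [← h, e1]
  rw [h3] at h1
  have h4 := h1.unique h2
  have h5 : Ev (L0.map fun l => z * l) (fun d => (d : ℂ) * y d) =
      z * ∑ d ∈ range (L0.length + 1), ec L0 d * y d * ((d : ℂ) * z ^ (d - 1)) := by
    rw [e1, mul_sum]
    refine sum_congr rfl fun d _ => ?_
    rcases Nat.eq_zero_or_pos d with hd | hd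
    · subst hd; simp
    · obtain ⟨k, rfl⟩ : ∃ k, d = k + 1 := ⟨d - 1, by omega⟩
      rw [Nat.add_sub_cancel, pow_succ]
      ring
  rw [h5, h4, h]
  have h6 : (Ω.map fun ω => t * z / (t * z + ω)).sum =
      z * (Ω.map fun ω => t / (t * z + ω)).sum := by
    rw [← List.sum_map_mul_left]
    congr 1
    refine List.map_congr_left fun ω _ => ?_
    ring
  rw [h6]
  ring

lemma sum_close {F : ℂ → ℂ} {a : ℂ} {ε : ℝ} : ∀ Ω : List ℂ, (∀ ω ∈ Ω, ‖F ω - a‖ ≤ ε) →
    ‖(Ω.map F).sum - Ω.length * a‖ ≤ Ω.length * ε := by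
  intro Ω
  induction Ω with
  | nil => intro _; simp
  | cons ω Ω ih =>
    intro h
    have h1 := ih fun ω' h' => h ω' (List.mem_cons_of_mem _ h')
    have h2 := h ω List.mem_cons_self
    rw [List.map_cons, List.sum_cons, List.length_cons]
    push_cast
    have e1 : F ω + (Ω.map F).sum - ((Ω.length : ℂ) + 1) * a =
        (F ω - a) + ((Ω.map F).sum - Ω.length * a) := by ring
    rw [e1]
    refine (norm_add_le _ _).trans ?_
    linarith

lemma near_re {z : ℂ} {zc r : ℝ} (h : ‖z - zc‖ ≤ r) : zc - r ≤ z.re ∧ z.re ≤ zc + r := by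
  have h1 := (Complex.abs_re_le_norm (z - zc)).trans h
  rw [Complex.sub_re, Complex.ofReal_re] at h1
  have := abs_le.1 h1
  constructor <;> linarith

lemma near_norm {z : ℂ} {zc r : ℝ} (hzc : 0 ≤ zc) (h : ‖z - zc‖ ≤ r) :
    zc - r ≤ ‖z‖ ∧ ‖z‖ ≤ zc + r := by
  have h1 := norm_add_le (z - zc) (zc : ℂ)
  rw [sub_add_cancel, Complex.norm_real, Real.norm_of_nonneg hzc] at h1
  have h2 := near_re h
  have h3 := Complex.re_le_norm z
  constructor <;> linarith

/-- one term -/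
lemma term_close {z g ω t : ℂ} {zc gc δ δ' : ℝ} (hzc : 0 < zc) (hgc : 0 < gc)
    (hz : ‖z - zc‖ ≤ zc / 80) (hg : ‖g - gc‖ ≤ gc / 20) (hδ'0 : 0 ≤ δ') (hδ' : δ' ≤ 1 / 20)
    (hω : ‖ω - g‖ ≤ δ' * ‖g‖) (hδ : δ ≤ 1 / 1000) (ht : ‖t - 1‖ ≤ δ) :
    t * z + ω ≠ 0 ∧ ‖t * z / (t * z + ω) - z / (z + g)‖ ≤ 2 * (δ + δ') := by
  obtain ⟨z1, z2⟩ := near_re hz
  obtain ⟨z3, z4⟩ := near_norm hzc.le hz
  obtain ⟨g1, g2⟩ := near_re hg
  obtain ⟨g3, g4⟩ := near_norm hgc.le hg
  have hδ0 : 0 ≤ δ := (norm_nonneg _).trans ht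
  have hω1 : ‖ω - g‖ ≤ 1 / 20 * (21 / 20 * gc) :=
    hω.trans (mul_le_mul hδ' (by linarith) (norm_nonneg _) (by norm_num))
  have hω2 : 89 / 100 * gc ≤ ω.re := by
    have h1 := abs_le.1 ((Complex.abs_re_le_norm (ω - g)).trans hω1)
    rw [Complex.sub_re] at h1
    linarith
  have htz : 9 / 10 * zc ≤ (t * z).re := by
    have e1 : t * z = (t - 1) * z + z := by ring
    have h1 : ‖(t - 1) * z‖ ≤ 1 / 1000 * (81 / 80 * zc) := by
      rw [norm_mul]
      exact mul_le_mul (ht.trans hδ) (by linarith) (norm_nonneg _) (by norm_num)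
    have h2 := abs_le.1 ((Complex.abs_re_le_norm ((t - 1) * z)).trans h1)
    rw [e1, Complex.add_re]
    linarith
  have hd1 : 9 / 10 * zc + 89 / 100 * gc ≤ ‖t * z + ω‖ := by
    have := Complex.re_le_norm (t * z + ω)
    rw [Complex.add_re] at this
    linarith
  have hd2 : 79 / 80 * zc + 19 / 20 * gc ≤ ‖z + g‖ := by
    have := Complex.re_le_norm (z + g)
    rw [Complex.add_re] at this
    linarith
  have p1 : 0 < ‖t * z + ω‖ := by nlinarith
  have p2 : 0 < ‖z + g‖ := by nlinarith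
  have n1 : t * z + ω ≠ 0 := norm_pos_iff.1 p1
  have n2 : z + g ≠ 0 := norm_pos_iff.1 p2
  refine ⟨n1, ?_⟩
  have e1 : t * z / (t * z + ω) - z / (z + g) = z * (t * g - ω) / ((t * z + ω) * (z + g)) := by
    field_simp
    ring
  have h3 : ‖t * g - ω‖ ≤ (δ + δ') * ‖g‖ := by
    have e2 : t * g - ω = (t - 1) * g - (ω - g) := by ring
    rw [e2]
    refine (norm_sub_le _ _).trans ?_
    rw [norm_mul]
    have := mul_le_mul_of_nonneg_right ht (norm_nonneg g)
    linarith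
  rw [e1, norm_div, norm_mul, norm_mul, div_le_iff₀ (by positivity)]
  have h4 : ‖z‖ ≤ 115 / 100 * ‖t * z + ω‖ := by linarith
  have h5 : ‖g‖ ≤ 115 / 100 * ‖z + g‖ := by linarith
  calc ‖z‖ * ‖t * g - ω‖ ≤ (115 / 100 * ‖t * z + ω‖) * ((δ + δ') * (115 / 100 * ‖z + g‖)) := by
        refine mul_le_mul h4 (h3.trans ?_) (norm_nonneg _) (by positivity)
        exact mul_le_mul_of_nonneg_left h5 (by positivity)
    _ ≤ 2 * (δ + δ') * (‖t * z + ω‖ * ‖z + g‖) := by
        have : 0 ≤ (δ + δ') * (‖t * z + ω‖ * ‖z + g‖) := by positivity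
        nlinarith

/-- inversion -/
lemma inv_close {z g φ : ℂ} {zc gc m ε : ℝ} (hzc : 0 < zc) (hgc : 0 < gc) (hm : 1 ≤ m)
    (h1 : gc ≤ m ^ 2 * zc) (h2 : zc ≤ m ^ 2 * gc)
    (hz : ‖z - zc‖ ≤ zc / 80) (hg : ‖g - gc‖ ≤ gc / 20) (hφ : ‖φ - z / (z + g)‖ ≤ ε)
    (hε : ε ≤ 1 / (5 * m ^ 2)) : φ ≠ 0 ∧ ‖z / φ - (z + g)‖ ≤ 20 * m ^ 2 * ε * gc := by
  obtain ⟨z1, z2⟩ := near_re hz
  obtain ⟨z3, z4⟩ := near_norm hzc.le hz
  obtain ⟨g1, g2⟩ := near_re hg
  obtain ⟨g3, g4⟩ := near_norm hgc.le hg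
  have hm2 : 1 ≤ m ^ 2 := one_le_pow₀ hm
  have hd2 : 79 / 80 * zc + 19 / 20 * gc ≤ ‖z + g‖ := by
    have := Complex.re_le_norm (z + g)
    rw [Complex.add_re] at this
    linarith
  have hd3 : ‖z + g‖ ≤ 105 / 100 * (zc + gc) := by
    have := norm_add_le z g
    linarith
  have p2 : 0 < ‖z + g‖ := by nlinarith
  have n2 : z + g ≠ 0 := norm_pos_iff.1 p2
  have p1 : 0 < ‖z‖ := by nlinarith
  have n1 : z ≠ 0 := norm_pos_iff.1 p1
  set φs : ℂ := z / (z + g) with hφs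
  have hφs1 : ‖φs‖ = ‖z‖ / ‖z + g‖ := by rw [hφs, norm_div]
  have hφs2 : 2 / (5 * m ^ 2) ≤ ‖φs‖ := by
    rw [hφs1, div_le_div_iff₀ (by positivity) p2]
    nlinarith
  have hε0 : 0 ≤ ε := (norm_nonneg _).trans hφ
  have hφ1 : ‖φs‖ / 2 ≤ ‖φ‖ := by
    have h3 := norm_sub_norm_le φs φ
    rw [norm_sub_rev] at h3
    have h4 : 1 / (5 * m ^ 2) = (2 / (5 * m ^ 2)) / 2 := by field_simp
    linarith
  have hφs0 : 0 < ‖φs‖ := lt_of_lt_of_le (by positivity) hφs2
  have hφ0 : 0 < ‖φ‖ := by linarith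
  have nφ : φ ≠ 0 := norm_pos_iff.1 hφ0
  have nφs : φs ≠ 0 := norm_pos_iff.1 hφs0
  refine ⟨nφ, ?_⟩
  have e1 : z + g = z / φs := by rw [hφs]; field_simp
  have e2 : z / φ - (z + g) = z * (φs - φ) / (φ * φs) := by
    rw [e1]; field_simp
  rw [e2, norm_div, norm_mul, norm_mul, norm_sub_rev]
  have h5 : ‖z‖ * ‖φ - φs‖ / (‖φ‖ * ‖φs‖) ≤ ‖z‖ * ε / (‖φs‖ / 2 * ‖φs‖) := by
    refine div_le_div₀ (by positivity) (mul_le_mul_of_nonneg_left hφ (norm_nonneg _))
      (by positivity) (mul_le_mul_of_nonneg_right hφ1 (norm_nonneg _))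
  refine h5.trans ?_
  have e3 : ‖z‖ * ε / (‖φs‖ / 2 * ‖φs‖) = 2 * ε * (‖z + g‖ ^ 2 / ‖z‖) := by
    rw [hφs1]; field_simp
  rw [e3]
  have h6 : ‖z + g‖ ^ 2 / ‖z‖ ≤ 10 * m ^ 2 * gc := by
    rw [div_le_iff₀ p1]
    have h7 : ‖z + g‖ ^ 2 ≤ (105 / 100 * (zc + gc)) ^ 2 := pow_le_pow_left₀ (norm_nonneg _) hd3 2
    refine h7.trans ?_
    have h8 : 10 * m ^ 2 * gc * (79 / 80 * zc) ≤ 10 * m ^ 2 * gc * ‖z‖ :=
      mul_le_mul_of_nonneg_left (by linarith) (by positivity)
    refine le_trans ?_ h8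
    have h9 : zc * zc ≤ m ^ 2 * gc * zc := mul_le_mul_of_nonneg_right h2 hzc.le
    have h10 : gc * gc ≤ m ^ 2 * zc * gc := mul_le_mul_of_nonneg_right h1 hgc.le
    have h11 : zc * gc ≤ m ^ 2 * (zc * gc) := le_mul_of_one_le_left (by positivity) hm2
    nlinarith
  have h7 := mul_le_mul_of_nonneg_left h6 (by positivity : 0 ≤ 2 * ε)
  refine h7.trans (le_of_eq ?_)
  ring

end Pool.Agent.H62.TV
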