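import Pool.Agent.H62.TV.QB
import Pool.Agent.H62.VC.Region

/-!
The points of an evaluation move almost as under the Möbius transformations.
-/

set_option autoImplicit false

namespace Pool.Agent.H62.TV

open Finset
open Pool.Agent.H550R3.Jones (br brf)
open Pool.Agent.Y482.CY (sb Nz)
open Pool.Agent.H62.VC (Ev Ev_cons Ev_congr Ev_mul Cone near_P near_Q)

variable {v t : ℂ} {K : ℕ} {e : ℝ}

/-- the Möbius transformation of a letter -/
noncomputable def ph (l : Bool) (z : ℂ) : ℂ := if l then z / (1 + z) else 1 + z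

/-- the Möbius transformation of a word, the first letter acts first -/
noncomputable def gw : List Bool → ℂ → ℂ
  | [], z => z
  | l :: w, z => gw w (ph l z)

/-- the dilation -/
noncomputable def Dt (t : ℂ) (K : ℕ) (y : ℕ → ℂ) (d : ℕ) : ℂ := t ^ (K - d) * y d

/-- the operator of a letter -/
noncomputable def Xl (v : ℂ) (K : ℕ) (l : Bool) (y : ℕ → ℂ) : ℕ → ℂ :=
  if l then TP v K y else TQ v K y

/-- the operator of a word -/
noncomputable def TW (v t : ℂ) (K : ℕ) : List Bool → (ℕ → ℂ) → (ℕ → ℂ)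
  | [], y => y
  | l :: w, y => Xl v K l (Dt t K (TW v t K w y))

lemma Ev_smul (c : ℂ) : ∀ (L : List ℂ) (y : ℕ → ℂ),
    Ev (L.map fun z => c * z) y = Ev L (fun d => c ^ d * y d) := by
  intro L
  induction L with
  | nil => intro y; simp
  | cons z L ih =>
    intro y
    rw [List.map_cons, Ev_cons, Ev_cons, ih, ih fun d => y (d + 1)]
    have h1 : Ev L (fun d => c ^ (d + 1) * y (d + 1)) = c * Ev L (fun d => c ^ d * y (d + 1)) := by
      rw [← Ev_mul]
      exact Ev_congr L fun d _ => by ring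
    rw [h1]; ring

lemma Ev_Dt (ht : t ≠ 0) (L : List ℂ) (hL : L.length = K) (y : ℕ → ℂ) :
    Ev L (Dt t K y) = t ^ K * Ev (L.map fun z => t⁻¹ * z) y := by
  rw [Ev_smul, ← Ev_mul]
  refine Ev_congr L fun d hd => ?_
  rw [hL] at hd
  unfold Dt
  rw [← mul_assoc]
  congr 1
  rw [inv_pow, ← div_eq_mul_inv, eq_div_iff (pow_ne_zero _ ht), ← pow_add]
  congr 1
  omega

/-- the parameters -/
structure Pr (v t : ℂ) (K : ℕ) (e : ℝ) : Prop where
  v1 : ‖v‖ = 1
  nz : Nz v K
  t1 : ‖t‖ = 1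
  e0 : 0 < e
  e1 : e ≤ 1 / 40
  te : ‖t - 1‖ ≤ e / 8
  vK : K * ‖v ^ 2 - 1‖ ≤ 3 * e ^ 2 / 400
  vn : K * ‖v - 1‖ ≤ e / 8

lemma Pr.v0 (h : Pr v t K e) : v ≠ 0 := by
  have := h.v1
  rintro rfl
  simp at this

lemma Pr.t0 (h : Pr v t K e) : t ≠ 0 := by
  have := h.t1
  rintro rfl
  simp at this

lemma norm_pow_sub (hv : ‖v‖ = 1) (n : ℕ) : ‖v ^ n - 1‖ ≤ n * ‖v - 1‖ := by
  induction n with
  | zero => simp
  | succ n ih =>
    have e1 : v ^ (n + 1) - 1 = v ^ n * (v - 1) + (v ^ n - 1) := by ring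
    rw [e1]
    refine (norm_add_le _ _).trans ?_
    rw [norm_mul, norm_pow, hv, one_pow, one_mul]
    push_cast
    linarith

lemma norm_zpow_sub (hv : ‖v‖ = 1) (n : ℤ) : ‖v ^ n - 1‖ ≤ |(n : ℝ)| * ‖v - 1‖ := by
  have hv0 : v ≠ 0 := by
    rintro rfl
    simp at hv
  obtain ⟨m, hm | hm⟩ := n.eq_nat_or_neg
  · rw [hm]
    have := norm_pow_sub hv m
    simpa using this
  · rw [hm]
    have h1 := norm_pow_sub hv m
    have e1 : v ^ (-(m : ℤ)) - 1 = -(v ^ (-(m : ℤ)) * (v ^ m - 1)) := by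
      rw [_root_.zpow_neg, zpow_natCast]
      field_simp
      ring
    rw [e1, norm_neg, norm_mul, norm_zpow, hv, _root_.one_zpow, one_mul]
    push_cast
    rw [abs_neg, Nat.abs_cast]
    exact h1

lemma Pr.near (h : Pr v t K e) (n : ℤ) (hn : |n| ≤ K) : ‖v ^ n - 1‖ ≤ e / 8 := by
  have h1 := norm_zpow_sub h.v1 n
  have h2 : |(n : ℝ)| ≤ K := by exact_mod_cast hn
  exact h1.trans ((mul_le_mul_of_nonneg_right h2 (norm_nonneg _)).trans h.vn)

/-- one letter -/
theorem Pr.step (h : Pr v t K e) (l : Bool) (L : List ℂ) (hL : L.length = K)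
    (hz : ∀ z ∈ L, Cone z ∧ 0 < z.re) :
    ∃ (c : ℂ) (Ω : List ℂ), Ω.length = K ∧
      (∀ y : ℕ → ℂ, Ev L (Xl v K l (Dt t K y)) = c * Ev Ω y) ∧
      ‖c‖ = (if l then (L.map fun z => ‖1 + z‖).prod else 1) ∧
      ∀ ω ∈ Ω, ∃ z ∈ L, ‖ω - ph l z‖ ≤ 6 / 5 * e * ‖ph l z‖ := by
  have he0 := h.e0
  have he1 := h.e1
  have ht0 := h.t0
  have hρ : e / 4 + 2 * K * ‖v ^ 2 - 1‖ ≤ e / 3 := by
    have := h.vK
    nlinarith
  have hKη : K * ‖v ^ 2 - 1‖ ≤ 3 / 25 * (e / 4) ^ 2 := h.vK.trans (le_of_eq (by ring))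
  have hti : ‖t⁻¹ - 1‖ ≤ e / 8 := by
    have e1 : t⁻¹ - 1 = -(t⁻¹ * (t - 1)) := by field_simp; ring
    rw [e1, norm_neg, norm_mul, norm_inv, h.t1, inv_one, one_mul]
    exact h.te
  have fin : ∀ {ω φ : ℂ}, ‖ω - φ‖ ≤ e * ‖φ‖ → ‖t⁻¹ * ω - φ‖ ≤ 6 / 5 * e * ‖φ‖ := by
    intro ω φ h1
    have e1 : t⁻¹ * ω - φ = (ω - φ) + (t⁻¹ - 1) * (ω - φ) + (t⁻¹ - 1) * φ := by ring
    rw [e1]
    refine (norm_add_le _ _).trans ?_
    have h2 := norm_add_le (ω - φ) ((t⁻¹ - 1) * (ω - φ))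
    rw [norm_mul] at h2 ⊢
    have h3 : ‖t⁻¹ - 1‖ * ‖ω - φ‖ ≤ e / 8 * (e * ‖φ‖) :=
      mul_le_mul hti h1 (norm_nonneg _) (by positivity)
    have h4 : ‖t⁻¹ - 1‖ * ‖φ‖ ≤ e / 8 * ‖φ‖ := mul_le_mul_of_nonneg_right hti (norm_nonneg _)
    have h5 : e / 8 * (e * ‖φ‖) ≤ e / 320 * ‖φ‖ := by
      have : 0 ≤ e * ‖φ‖ := by positivity
      nlinarith
    nlinarith [norm_nonneg φ]
  have hnear : ∀ z ∈ L, ‖v ^ (1 - (K : ℤ)) - 1‖ ≤ e / 8 ∧ ‖v ^ ((K : ℤ) - 1) - 1‖ ≤ e / 8 := by
    intro z hz'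
    have hK : 0 < K := by
      rw [← hL]
      exact List.length_pos_of_mem hz'
    exact ⟨h.near _ (by rw [abs_le]; omega), h.near _ (by rw [abs_le]; omega)⟩
  cases l
  · obtain ⟨Ω, h1, h2, h3⟩ := stepQ h.v1 h.nz L hL (ρ := e / 4) (η := ‖v ^ 2 - 1‖)
      (by linarith) (by linarith) (norm_nonneg _) le_rfl hKη
    refine ⟨t ^ K, Ω.map fun z => t⁻¹ * z, by rw [List.length_map, h1], fun y => ?_, ?_, ?_⟩
    · change Ev L (TQ v K (Dt t K y)) = _
      rw [h2, Ev_Dt ht0 _ h1]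
    · rw [norm_pow, h.t1, one_pow]; simp
    · intro ω hω
      rw [List.mem_map] at hω
      obtain ⟨ω', hω', rfl⟩ := hω
      obtain ⟨z, hz', h5⟩ := h3 ω' hω'
      refine ⟨z, hz', fin ?_⟩
      exact near_Q (hz z hz').1 (norm_zpow_one h.v1 _) (hnear z hz').2 he0.le he1
        (by positivity) hρ h5
  · obtain ⟨Ω, h1, h2, h3⟩ := stepP h.v1 h.nz L hL (fun z hz' => by
      have h4 := (hz z hz').2
      constructor
      · rintro rfl; simp at h4
      · intro h5
        have h6 : (1 + z).re = 0 := by rw [h5]; simp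
        simp at h6; linarith) (ρ := e / 4) (η := ‖v ^ 2 - 1‖)
      (by linarith) (by linarith) (norm_nonneg _) le_rfl hKη
    refine ⟨t ^ K * (L.map fun z => 1 + z).prod, Ω.map fun z => t⁻¹ * z,
      by rw [List.length_map, h1], fun y => ?_, ?_, ?_⟩
    · change Ev L (TP v K (Dt t K y)) = _
      rw [h2, Ev_Dt ht0 _ h1]
      ring
    · rw [norm_mul, norm_pow, h.t1, one_pow, one_mul, if_pos rfl]
      clear h3 h2 hnear hz hL
      induction L with
      | nil => simp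
      | cons z L ih => rw [List.map_cons, List.prod_cons, norm_mul, ih, List.map_cons,
          List.prod_cons]
    · intro ω hω
      rw [List.mem_map] at hω
      obtain ⟨ω', hω', rfl⟩ := hω
      obtain ⟨z, hz', h5⟩ := h3 ω' hω'
      refine ⟨z, hz', fin ?_⟩
      exact near_P (hz z hz').1 (norm_zpow_one h.v1 _) (hnear z hz').1 he0.le he1
        (by positivity) hρ h5

/-- a narrow sector -/
def Slim (z : ℂ) : Prop := |z.im| ≤ z.re / 10 ∧ 0 < z.re

/-- the points are close to `ζ` -/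
def Cl (L : List ℂ) (ζ : ℂ) (δ : ℝ) : Prop := ∀ z ∈ L, ‖z - ζ‖ ≤ δ * ‖ζ‖

/-- the size of a point and its inverse -/
noncomputable def BB (ζ : ℂ) : ℝ := ‖ζ‖ + 1 / ‖ζ‖

lemma Slim.norm_le {z : ℂ} (h : Slim z) : ‖z‖ ≤ 1005 / 1000 * z.re := by
  obtain ⟨h1, h2⟩ := h
  refine abs_le_of_sq_le_sq' ?_ (by linarith) |>.2
  rw [← Complex.normSq_eq_norm_sq, Complex.normSq_apply]
  have h3 : z.im * z.im ≤ (z.re / 10) * (z.re / 10) := by
    rw [← abs_mul_abs_self z.im]
    exact mul_le_mul h1 h1 (abs_nonneg _) (by linarith)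
  nlinarith

lemma Slim.norm_pos {z : ℂ} (h : Slim z) : 0 < ‖z‖ := by
  have := Complex.re_le_norm z
  linarith [h.2]

lemma close_cone {z ζ : ℂ} {δ : ℝ} (hζ : Slim ζ) (hδ : δ ≤ 1 / 10) (h : ‖z - ζ‖ ≤ δ * ‖ζ‖) :
    Cone z ∧ 89 / 100 * ‖ζ‖ ≤ z.re := by
  have h1 := hζ.norm_le
  have h2 := hζ.norm_pos
  have h3 : ‖z - ζ‖ ≤ 1 / 10 * ‖ζ‖ := h.trans (mul_le_mul_of_nonneg_right hδ h2.le)
  have h4 := abs_le.1 ((Complex.abs_re_le_norm (z - ζ)).trans h3)
  have h5 := (Complex.abs_im_le_norm (z - ζ)).trans h3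
  rw [Complex.sub_re] at h4
  rw [Complex.sub_im] at h5
  have h6 := hζ.1
  have h7 : |z.im| ≤ |z.im - ζ.im| + |ζ.im| := by
    have := abs_add_le (z.im - ζ.im) ζ.im
    rwa [sub_add_cancel] at this
  have h8 := hζ.2
  refine ⟨?_, by linarith⟩
  unfold Cone
  linarith

lemma ph_diff_Q (z ζ : ℂ) : ph false z - ph false ζ = z - ζ := by
  simp [ph]

lemma ph_diff_P {z ζ : ℂ} (hz : 1 + z ≠ 0) (hζ : 1 + ζ ≠ 0) :
    ph true z - ph true ζ = (z - ζ) / ((1 + z) * (1 + ζ)) := by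
  simp only [ph, if_true]
  field_simp
  ring

lemma Slim.ph {ζ : ℂ} (h : Slim ζ) (l : Bool) : Slim (ph l ζ) := by
  obtain ⟨h1, h2⟩ := h
  cases l
  · simp only [Pool.Agent.H62.TV.ph, Bool.false_eq_true, if_false]
    constructor
    · simp only [Complex.add_im, Complex.one_im, zero_add, Complex.add_re, Complex.one_re]
      linarith
    · simp only [Complex.add_re, Complex.one_re]
      linarith
  · simp only [Pool.Agent.H62.TV.ph, if_true]
    obtain ⟨x, y⟩ := ζ
    simp only at h1 h2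
    have hD : 0 < (1 + x) * (1 + x) + y * y := by
      have h2' : 0 < (1 + x) * (1 + x) := by positivity
      have h3 := mul_self_nonneg y
      linarith
    have hre : ((⟨x, y⟩ : ℂ) / (1 + ⟨x, y⟩)).re =
        (x + x * x + y * y) / ((1 + x) * (1 + x) + y * y) := by
      rw [Complex.div_re, Complex.normSq_apply]
      simp only [Complex.add_re, Complex.one_re, Complex.add_im, Complex.one_im, zero_add]
      rw [← add_div]
      congr 1
      ring
    have him : ((⟨x, y⟩ : ℂ) / (1 + ⟨x, y⟩)).im = y / ((1 + x) * (1 + x) + y * y) := by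
      rw [Complex.div_im, Complex.normSq_apply]
      simp only [Complex.add_re, Complex.one_re, Complex.add_im, Complex.one_im, zero_add]
      rw [← sub_div]
      congr 1
      ring
    unfold Slim
    rw [hre, him]
    constructor
    · rw [abs_div, abs_of_pos hD, div_div, mul_comm _ (10 : ℝ), ← div_div]
      refine div_le_div_of_nonneg_right ?_ hD.le
      nlinarith [mul_self_nonneg y]
    · refine div_pos ?_ hD
      nlinarith [mul_self_nonneg y]

lemma one_add_ge {z : ℂ} {a : ℝ} (h : a ≤ z.re) : 1 + a ≤ ‖1 + z‖ := by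
  have h1 := Complex.re_le_norm (1 + z)
  simp only [Complex.add_re, Complex.one_re] at h1
  linarith

/-- the errors -/
lemma err_step {ζ z ω : ℂ} {δ ρ ε : ℝ} (l : Bool) (hζ : Slim ζ) (hρ : 0 ≤ ρ) (hε : 0 ≤ ε)
    (hδ : δ = ρ + 3 * ε * BB ζ) (hδ1 : δ ≤ 1 / 10) (hz : ‖z - ζ‖ ≤ δ * ‖ζ‖)
    (hω : ‖ω - ph l z‖ ≤ ε * ‖ph l z‖) :
    ‖ω - ph l ζ‖ ≤ (ρ + 3 * ε * BB (ph l ζ)) * ‖ph l ζ‖ := by
  have hp := hζ.norm_pos
  have hn := hζ.norm_le
  have hre := hζ.2
  obtain ⟨hc, hzr⟩ := close_cone hζ hδ1 hz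
  set a := ‖ζ‖ with ha
  have hBB : BB ζ = a + 1 / a := rfl
  have hδ0 : 0 ≤ δ := by rw [hδ, hBB]; positivity
  cases l
  · -- `s_1⁻¹`
    have hζ1 : ‖ph false ζ‖ = ‖1 + ζ‖ := by simp [ph]
    set s := ‖1 + ζ‖ with hs
    have hs1 : s ≤ 1 + a := by
      have := norm_add_le (1 : ℂ) ζ
      rwa [norm_one] at this
    have hs2 : 1 + ζ.re ≤ s := one_add_ge le_rfl
    have hs0 : 0 < s := by linarith
    have hsq : s * s = 1 + 2 * ζ.re + a * a := by
      have e1 := Complex.normSq_eq_norm_sq (1 + ζ)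
      have e2 := Complex.normSq_eq_norm_sq ζ
      rw [Complex.normSq_apply] at e1 e2
      simp only [Complex.add_re, Complex.one_re, Complex.add_im, Complex.one_im, zero_add] at e1
      rw [← hs] at e1
      rw [← ha] at e2
      nlinarith
    have hd : ‖ph false z - ph false ζ‖ ≤ δ * a := by rw [ph_diff_Q]; exact hz
    have hpz : ‖ph false z‖ ≤ s + δ * a := by
      have := norm_add_le (ph false z - ph false ζ) (ph false ζ)
      rw [sub_add_cancel, hζ1] at this
      linarith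
    have h1 : ‖ω - ph false ζ‖ ≤ ε * (s + δ * a) + δ * a := by
      have := norm_add_le (ω - ph false z) (ph false z - ph false ζ)
      rw [sub_add_sub_cancel] at this
      have h2 := mul_le_mul_of_nonneg_left hpz hε
      linarith
    refine h1.trans ?_
    have hB' : BB (ph false ζ) = s + 1 / s := by unfold BB; rw [hζ1]
    rw [hB', hζ1]
    have e3 : (ρ + 3 * ε * (s + 1 / s)) * s = ρ * s + 3 * ε * (s * s + 1) := by
      field_simp
    have e4 : δ * a = ρ * a + 3 * ε * (a * a + 1) := by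
      rw [hδ, hBB]; field_simp
    rw [e3]
    have has : a ≤ s := by nlinarith
    have h5 : ρ * a ≤ ρ * s := mul_le_mul_of_nonneg_left has hρ
    have h6 : ε * (s + δ * a) ≤ ε * (11 / 10 * s) := by
      refine mul_le_mul_of_nonneg_left ?_ hε
      nlinarith
    have h7 : 11 / 10 * s + 3 * (a * a + 1) ≤ 3 * (s * s + 1) := by
      rw [hsq]; nlinarith
    have h8 := mul_le_mul_of_nonneg_left h7 hε
    rw [e4] at *
    nlinarith
  · -- `s_2`
    have hz0 : 0 < z.re := by nlinarith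
    have h1z : 1 + z ≠ 0 := by
      intro h5
      have h6 : (1 + z).re = 0 := by rw [h5]; simp
      simp at h6; linarith
    have h1ζ : 1 + ζ ≠ 0 := by
      intro h5
      have h6 : (1 + ζ).re = 0 := by rw [h5]; simp
      simp at h6; linarith
    set s := ‖1 + ζ‖ with hs
    set s' := ‖1 + z‖ with hs'
    have hs1 : s ≤ 1 + a := by
      have := norm_add_le (1 : ℂ) ζ
      rwa [norm_one] at this
    have hs2 : 1 + ζ.re ≤ s := one_add_ge le_rfl
    have hs0 : 0 < s := by linarith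
    have hs3 : 1 + 89 / 100 * a ≤ s' := one_add_ge hzr
    have hs'0 : 0 < s' := by nlinarith
    have hζ1 : ‖ph true ζ‖ = a / s := by simp [ph, ha, hs]
    have hd : ‖ph true z - ph true ζ‖ ≤ δ / s' * (a / s) := by
      rw [ph_diff_P h1z h1ζ, norm_div, norm_mul, ← hs, ← hs', div_mul_div_comm]
      exact div_le_div_of_nonneg_right hz (by positivity)
    have hδs : δ / s' ≤ 1 / 10 := by
      rw [div_le_iff₀ hs'0]; nlinarith
    have has0 : 0 < a / s := by positivity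
    have hpz : ‖ph true z‖ ≤ 11 / 10 * (a / s) := by
      have := norm_add_le (ph true z - ph true ζ) (ph true ζ)
      rw [sub_add_cancel, hζ1] at this
      nlinarith
    have h1 : ‖ω - ph true ζ‖ ≤ ε * (11 / 10 * (a / s)) + δ / s' * (a / s) := by
      have := norm_add_le (ω - ph true z) (ph true z - ph true ζ)
      rw [sub_add_sub_cancel] at this
      have h2 := mul_le_mul_of_nonneg_left hpz hε
      linarith
    refine h1.trans ?_
    have hB' : BB (ph true ζ) = a / s + s / a := by unfold BB; rw [hζ1, one_div_div]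
    rw [hB', hζ1]
    have e5 : ε * (11 / 10 * (a / s)) + δ / s' * (a / s) = (11 / 10 * ε + δ / s') * (a / s) := by ring
    rw [e5]
    refine mul_le_mul_of_nonneg_right ?_ has0.le
    have h5 : δ / s' ≤ ρ + 3 * ε * ((a + 1 / a) / (1 + 89 / 100 * a)) := by
      rw [hδ, hBB, add_div]
      refine add_le_add (div_le_self hρ (by nlinarith)) ?_
      rw [mul_div_assoc]
      refine mul_le_mul_of_nonneg_left ?_ (by positivity)
      exact div_le_div_of_nonneg_left (by positivity) (by positivity) hs3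
    have h6 : 11 / 30 + (a + 1 / a) / (1 + 89 / 100 * a) ≤ a / s + s / a := by
      have h7 : a / (1 + a) ≤ a / s := div_le_div_of_nonneg_left hp.le hs0 hs1
      have h8 : (1 + 995 / 1000 * a) / a ≤ s / a := by
        refine div_le_div_of_nonneg_right ?_ hp.le
        nlinarith
      have h9 : (a + 1 / a) / (1 + 89 / 100 * a) ≤ a / (1 + a) + 124 / 1000 + 1 / a := by
        have h10 : a / (1 + 89 / 100 * a) ≤ a / (1 + a) + 124 / 1000 := by
          rw [div_add' _ _ _ (by positivity), div_le_div_iff₀ (by positivity) (by positivity)]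
          nlinarith [mul_pos hp hp]
        have h11 : 1 / a / (1 + 89 / 100 * a) ≤ 1 / a :=
          div_le_self (by positivity) (by nlinarith)
        rw [add_div]
        linarith
      have h12 : (1 + 995 / 1000 * a) / a = 1 / a + 995 / 1000 := by field_simp
      linarith
    have h13 := mul_le_mul_of_nonneg_left h6 (by positivity : (0 : ℝ) ≤ 3 * ε)
    linarith

end Pool.Agent.H62.TV
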