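import Mathlib

/-!
A fixed point of a map of two complex variables which is close to a contraction.
-/

set_option autoImplicit false

namespace Pool.Agent.H62.TV

open Metric

/-- a bounded holomorphic error is Lipschitz on a smaller ball -/
lemma lip_small {h : ℂ × ℂ → ℂ} {r ν : ℝ} (hr : 0 < r) (hd : DifferentiableOn ℂ h (ball 0 (2 * r)))
    (hb : ∀ p ∈ ball (0 : ℂ × ℂ) (2 * r), ‖h p‖ ≤ ν) {p q : ℂ × ℂ} (hp : ‖p‖ ≤ r) (hq : ‖q‖ ≤ r) :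
    ‖h p - h q‖ ≤ 2 * ν / r * ‖p - q‖ := by
  have hsub : ball q r ⊆ ball 0 (2 * r) := by
    intro x hx
    rw [mem_ball_iff_norm] at hx
    rw [mem_ball_zero_iff]
    have := norm_add_le (x - q) q
    rw [sub_add_cancel] at this
    linarith
  have hν : 0 ≤ ν := (norm_nonneg _).trans (hb 0 (by rw [mem_ball_zero_iff, norm_zero]; linarith))
  have hq2 : q ∈ ball (0 : ℂ × ℂ) (2 * r) := by rw [mem_ball_zero_iff]; linarith
  have hp2 : p ∈ ball (0 : ℂ × ℂ) (2 * r) := by rw [mem_ball_zero_iff]; linarith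
  rcases lt_or_ge ‖p - q‖ r with h1 | h1
  · have h2 := Complex.dist_le_div_mul_dist_of_mapsTo_ball (f := h) (c := q) (z := p) (R₁ := r)
      (R₂ := 2 * ν) (hd.mono hsub) (by
        intro x hx
        rw [mem_closedBall_iff_norm]
        have := norm_sub_le (h x) (h q)
        linarith [hb x (hsub hx), hb q hq2]) (by rw [mem_ball_iff_norm]; exact h1)
    rwa [dist_eq_norm, dist_eq_norm] at h2
  · have h2 := norm_sub_le (h p) (h q)
    have h3 : 2 * ν ≤ 2 * ν / r * ‖p - q‖ := by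
      rw [div_mul_eq_mul_div, le_div_iff₀ hr]
      exact mul_le_mul_of_nonneg_left h1 (by linarith)
    linarith [hb p hp2, hb q hq2]

/-- **a fixed point** -/
theorem fixed_point {F1 F2 : ℂ × ℂ → ℂ} {γ1 γ2 : ℂ → ℂ} {r ν κ : ℝ} (hr : 0 < r)
    (hκ0 : 0 ≤ κ) (hν : κ + 2 * ν / r ≤ 1 / 2)
    (hd1 : DifferentiableOn ℂ (fun p => F1 p - γ1 p.1) (ball 0 (2 * r)))
    (hd2 : DifferentiableOn ℂ (fun p => F2 p - γ2 p.2) (ball 0 (2 * r)))
    (hb1 : ∀ p ∈ ball (0 : ℂ × ℂ) (2 * r), ‖F1 p - γ1 p.1‖ ≤ ν)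
    (hb2 : ∀ p ∈ ball (0 : ℂ × ℂ) (2 * r), ‖F2 p - γ2 p.2‖ ≤ ν)
    (hγ1 : ∀ x y : ℂ, ‖x‖ ≤ r → ‖y‖ ≤ r → ‖γ1 x - γ1 y‖ ≤ κ * ‖x - y‖)
    (hγ2 : ∀ x y : ℂ, ‖x‖ ≤ r → ‖y‖ ≤ r → ‖γ2 x - γ2 y‖ ≤ κ * ‖x - y‖)
    (h01 : γ1 0 = 0) (h02 : γ2 0 = 0) :
    ∃ x y : ℂ, ‖x‖ ≤ r ∧ ‖y‖ ≤ r ∧ F1 (x, y) = x ∧ F2 (x, y) = y := by
  have hν0 : 0 ≤ ν := (norm_nonneg _).trans (hb1 0 (by rw [mem_ball_zero_iff, norm_zero]; linarith))
  set F : ℂ × ℂ → ℂ × ℂ := fun p => (F1 p, F2 p) with hF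
  have hν1 : ν ≤ r / 2 := by
    have h1 : 2 * ν / r ≤ 1 / 2 := by linarith
    rw [div_le_iff₀ hr] at h1
    linarith
  have hκ1 : κ ≤ 1 / 2 := by
    have : 0 ≤ 2 * ν / r := by positivity
    linarith
  have hfst : ∀ {p : ℂ × ℂ}, ‖p‖ ≤ r → ‖p.1‖ ≤ r := fun h => (norm_fst_le _).trans h
  have hsnd : ∀ {p : ℂ × ℂ}, ‖p‖ ≤ r → ‖p.2‖ ≤ r := fun h => (norm_snd_le _).trans h
  have hin : ∀ {p : ℂ × ℂ}, ‖p‖ ≤ r → p ∈ ball (0 : ℂ × ℂ) (2 * r) := by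
    intro p hp
    rw [mem_ball_zero_iff]; linarith
  have hmaps : Set.MapsTo F (closedBall 0 r) (closedBall 0 r) := by
    intro p hp
    rw [mem_closedBall_zero_iff] at hp ⊢
    rw [Prod.norm_def]
    refine max_le ?_ ?_
    · have h1 := norm_add_le (F1 p - γ1 p.1) (γ1 p.1 - γ1 0)
      rw [h01, sub_zero, sub_add_cancel] at h1
      have h2 := hγ1 p.1 0 (hfst hp) (by rw [norm_zero]; exact hr.le)
      rw [h01, sub_zero, sub_zero] at h2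
      have h3 := hb1 p (hin hp)
      have h4 : κ * ‖p.1‖ ≤ 1 / 2 * r := mul_le_mul hκ1 (hfst hp) (norm_nonneg _) (by norm_num)
      change ‖F1 p‖ ≤ r
      linarith
    · have h1 := norm_add_le (F2 p - γ2 p.2) (γ2 p.2 - γ2 0)
      rw [h02, sub_zero, sub_add_cancel] at h1
      have h2 := hγ2 p.2 0 (hsnd hp) (by rw [norm_zero]; exact hr.le)
      rw [h02, sub_zero, sub_zero] at h2
      have h3 := hb2 p (hin hp)
      have h4 : κ * ‖p.2‖ ≤ 1 / 2 * r := mul_le_mul hκ1 (hsnd hp) (norm_nonneg _) (by norm_num)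
      change ‖F2 p‖ ≤ r
      linarith
  have hlip : ∀ {p q : ℂ × ℂ}, ‖p‖ ≤ r → ‖q‖ ≤ r → ‖F p - F q‖ ≤ 1 / 2 * ‖p - q‖ := by
    intro p q hp hq
    rw [Prod.norm_def]
    have k1 : κ * ‖p - q‖ + 2 * ν / r * ‖p - q‖ ≤ 1 / 2 * ‖p - q‖ := by
      rw [← add_mul]
      exact mul_le_mul_of_nonneg_right hν (norm_nonneg _)
    refine max_le ?_ ?_
    · have h1 := lip_small hr hd1 hb1 hp hq
      have h2 := hγ1 p.1 q.1 (hfst hp) (hfst hq)
      have h3 : ‖p.1 - q.1‖ ≤ ‖p - q‖ := norm_fst_le (p - q)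
      have h4 := norm_add_le (F1 p - γ1 p.1 - (F1 q - γ1 q.1)) (γ1 p.1 - γ1 q.1)
      have e1 : F1 p - γ1 p.1 - (F1 q - γ1 q.1) + (γ1 p.1 - γ1 q.1) = F1 p - F1 q := by ring
      rw [e1] at h4
      have h5 := mul_le_mul_of_nonneg_left h3 hκ0
      change ‖F1 p - F1 q‖ ≤ _
      linarith
    · have h1 := lip_small hr hd2 hb2 hp hq
      have h2 := hγ2 p.2 q.2 (hsnd hp) (hsnd hq)
      have h3 : ‖p.2 - q.2‖ ≤ ‖p - q‖ := norm_snd_le (p - q)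
      have h4 := norm_add_le (F2 p - γ2 p.2 - (F2 q - γ2 q.2)) (γ2 p.2 - γ2 q.2)
      have e1 : F2 p - γ2 p.2 - (F2 q - γ2 q.2) + (γ2 p.2 - γ2 q.2) = F2 p - F2 q := by ring
      rw [e1] at h4
      have h5 := mul_le_mul_of_nonneg_left h3 hκ0
      change ‖F2 p - F2 q‖ ≤ _
      linarith
  have hcon : ContractingWith (1 / 2) (hmaps.restrict F (closedBall 0 r) (closedBall 0 r)) := by
    constructor
    · norm_num
    · refine LipschitzWith.of_dist_le_mul ?_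
      intro p q
      rw [Subtype.dist_eq, Subtype.dist_eq, dist_eq_norm, dist_eq_norm]
      have := hlip (mem_closedBall_zero_iff.1 p.2) (mem_closedBall_zero_iff.1 q.2)
      simpa using this
  obtain ⟨p, hp, hfix, _⟩ := hcon.exists_fixedPoint' isClosed_closedBall.isComplete hmaps
    (mem_closedBall_self hr.le) (edist_ne_top _ _)
  rw [mem_closedBall_zero_iff] at hp
  have hfix' : F p = p := hfix
  refine ⟨p.1, p.2, hfst hp, hsnd hp, ?_, ?_⟩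
  · exact congrArg Prod.fst hfix'
  · exact congrArg Prod.snd hfix'

end Pool.Agent.H62.TV
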