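import Pool.Agent.H62.TV.Word

/-!
The symmetric pairing, and the reversed word.
-/

set_option autoImplicit false

namespace Pool.Agent.H62.TV

open Finset
open Pool.Agent.H550R3.Jones (br brf)
open Pool.Agent.Y482.CY (sb Nz)
open Pool.Agent.H62.VC (Ev Ev_cons Ev_congr Ev_mul Ev_eq Ev_prod ec Cone near_P near_Q)

variable {v t : ℂ} {K : ℕ} {e : ℝ}

/-- the pairing -/
noncomputable def bt (v : ℂ) (K : ℕ) (g y : ℕ → ℂ) : ℂ :=
  ∑ d ∈ range (K + 1), qb v K d * g (K - d) * y d

lemma sum_flip' (K : ℕ) (f : ℕ → ℂ) : ∑ d ∈ range (K + 1), f (K - d) = ∑ d ∈ range (K + 1), f d := by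
  have := sum_range_reflect f (K + 1)
  rw [← this]
  refine sum_congr rfl fun d hd => ?_
  congr 1

lemma bt_symm (g y : ℕ → ℂ) : bt v K g y = bt v K y g := by
  unfold bt
  rw [← sum_flip' K fun d => qb v K d * y (K - d) * g d]
  refine sum_congr rfl fun d hd => ?_
  rw [mem_range] at hd
  have : K - (K - d) = d := by omega
  rw [this, qb_symm (by omega : d ≤ K)]
  ring

lemma qb_three (hK : Nz v K) {d e : ℕ} (hd : d ≤ K) (he : e ≤ K) :
    qb v K d * qb v d e = qb v K e * qb v (K - e) (K - d) := by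
  rcases Nat.lt_or_ge d e with h | h
  · rw [qb_gt h, qb_gt (by omega : K - e < K - d)]
    ring
  · unfold qb sb
    rw [if_pos hd, if_pos h, if_pos he, if_pos (by omega)]
    have e1 : K - e - (K - d) = d - e := by omega
    rw [e1]
    have p1 := brf_ne (Nz_mono hK hd)
    have p2 := brf_ne (Nz_mono hK (Nat.sub_le K d))
    have p3 := brf_ne (Nz_mono hK he)
    have p4 := brf_ne (Nz_mono hK (Nat.sub_le K e))
    have p5 := brf_ne (Nz_mono hK (show d - e ≤ K by omega))
    field_simp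

lemma bt_P (hK : Nz v K) (g y : ℕ → ℂ) : bt v K g (TP v K y) = bt v K (TP v K g) y := by
  unfold bt TP
  have h1 : ∑ d ∈ range (K + 1), qb v K d * g (K - d) *
      ∑ e ∈ range (K + 1), v ^ (-((e : ℤ) * (K - d))) * qb v d e * y e =
      ∑ d ∈ range (K + 1), ∑ e ∈ range (K + 1),
        qb v K d * g (K - d) * (v ^ (-((e : ℤ) * (K - d))) * qb v d e * y e) :=
    sum_congr rfl fun d _ => by rw [mul_sum]
  have h2 : ∑ e ∈ range (K + 1), qb v K e *
      (∑ f ∈ range (K + 1), v ^ (-((f : ℤ) * (K - ((K - e : ℕ) : ℤ)))) * qb v (K - e) f * g f) * y e =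
      ∑ e ∈ range (K + 1), ∑ d ∈ range (K + 1),
        qb v K e * (v ^ (-(((K - d : ℕ) : ℤ) * (K - ((K - e : ℕ) : ℤ)))) * qb v (K - e) (K - d) *
          g (K - d)) * y e := by
    refine sum_congr rfl fun e _ => ?_
    rw [← sum_flip' K fun f => v ^ (-((f : ℤ) * (K - ((K - e : ℕ) : ℤ)))) * qb v (K - e) f * g f,
      mul_sum, sum_mul]
  rw [h1, h2, sum_comm]
  refine sum_congr rfl fun e he => sum_congr rfl fun d hd => ?_
  rw [mem_range] at he hd
  have c1 : ((K - d : ℕ) : ℤ) = (K : ℤ) - d := by omega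
  have c2 : ((K - e : ℕ) : ℤ) = (K : ℤ) - e := by omega
  rw [c1, c2]
  have e1 : -(((K : ℤ) - d) * (K - ((K : ℤ) - e))) = -((e : ℤ) * (K - d)) := by ring
  rw [e1]
  linear_combination (g (K - d) * v ^ (-((e : ℤ) * (K - d))) * y e) *
    qb_three hK (by omega : d ≤ K) (by omega : e ≤ K)

lemma bt_Q (hK : Nz v K) (g y : ℕ → ℂ) : bt v K g (TQ v K y) = bt v K (TQ v K g) y := by
  unfold bt TQ
  have h1 : ∑ d ∈ range (K + 1), qb v K d * g (K - d) *
      ∑ e ∈ range (K + 1), v ^ ((d : ℤ) * (K - e)) * qb v (K - d) (K - e) * y e =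
      ∑ d ∈ range (K + 1), ∑ e ∈ range (K + 1),
        qb v K d * g (K - d) * (v ^ ((d : ℤ) * (K - e)) * qb v (K - d) (K - e) * y e) :=
    sum_congr rfl fun d _ => by rw [mul_sum]
  have h2 : ∑ e ∈ range (K + 1), qb v K e *
      (∑ f ∈ range (K + 1), v ^ (((K - e : ℕ) : ℤ) * (K - f)) * qb v (K - (K - e)) (K - f) * g f) *
        y e =
      ∑ e ∈ range (K + 1), ∑ d ∈ range (K + 1),
        qb v K e * (v ^ (((K - e : ℕ) : ℤ) * (K - ((K - d : ℕ) : ℤ))) *
          qb v (K - (K - e)) (K - (K - d)) * g (K - d)) * y e := by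
    refine sum_congr rfl fun e _ => ?_
    rw [← sum_flip' K fun f => v ^ (((K - e : ℕ) : ℤ) * (K - f)) * qb v (K - (K - e)) (K - f) * g f,
      mul_sum, sum_mul]
  rw [h1, h2, sum_comm]
  refine sum_congr rfl fun e he => sum_congr rfl fun d hd => ?_
  rw [mem_range] at he hd
  have c1 : ((K - d : ℕ) : ℤ) = (K : ℤ) - d := by omega
  have c2 : ((K - e : ℕ) : ℤ) = (K : ℤ) - e := by omega
  have c3 : K - (K - d) = d := by omega
  have c4 : K - (K - e) = e := by omega
  rw [c1, c2, c3, c4]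
  have e1 : ((K : ℤ) - e) * (K - ((K : ℤ) - d)) = (d : ℤ) * (K - e) := by ring
  rw [e1]
  have h3 := qb_three hK (by omega : e ≤ K) (by omega : d ≤ K)
  linear_combination (-(g (K - d) * v ^ ((d : ℤ) * (K - e)) * y e)) * h3

lemma bt_X (hK : Nz v K) (l : Bool) (g y : ℕ → ℂ) :
    bt v K g (Xl v K l y) = bt v K (Xl v K l g) y := by
  unfold Xl
  cases l
  · exact bt_Q hK g y
  · exact bt_P hK g y

lemma bt_D (ht : t ≠ 0) (g y : ℕ → ℂ) :
    bt v K g (Dt t K y) = t ^ K * bt v K (Dt t⁻¹ K g) y := by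
  unfold bt Dt
  rw [mul_sum]
  refine sum_congr rfl fun d hd => ?_
  rw [mem_range] at hd
  have c3 : K - (K - d) = d := by omega
  rw [c3, inv_pow]
  have e1 : t ^ K = t ^ (K - d) * t ^ d := by rw [← pow_add]; congr 1; omega
  have e2 : t ^ d ≠ 0 := pow_ne_zero _ ht
  rw [e1]
  field_simp

lemma bt_congr {g g' y y' : ℕ → ℂ} (hg : ∀ d, d ≤ K → g d = g' d) (hy : ∀ d, d ≤ K → y d = y' d) :
    bt v K g y = bt v K g' y' := by
  unfold bt
  refine sum_congr rfl fun d hd => ?_
  rw [mem_range] at hd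
  rw [hg _ (Nat.sub_le _ _), hy d (by omega)]

lemma bt_smul_right (c : ℂ) (g y : ℕ → ℂ) : bt v K g (fun d => c * y d) = c * bt v K g y := by
  unfold bt
  rw [mul_sum]
  refine sum_congr rfl fun d _ => by ring

/-- the word from the right -/
noncomputable def WT (v t : ℂ) (K : ℕ) : List Bool → (ℕ → ℂ) → (ℕ → ℂ)
  | [], g => g
  | l :: w, g => WT v t K w (Dt t K (Xl v K l g))

lemma bt_TW (hK : Nz v K) (ht : t ≠ 0) : ∀ (w : List Bool) (g y : ℕ → ℂ),
    bt v K g (TW v t K w y) = t ^ (K * w.length) * bt v K (WT v t⁻¹ K w g) y := by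
  intro w
  induction w with
  | nil => intro g y; simp [TW, WT]
  | cons l w ih =>
    intro g y
    change bt v K g (Xl v K l (Dt t K (TW v t K w y))) = _
    rw [bt_X hK, bt_D ht, ih, List.length_cons]
    change _ = t ^ (K * (w.length + 1)) * bt v K (WT v t⁻¹ K w (Dt t⁻¹ K (Xl v K l g))) y
    ring

lemma TW_append : ∀ (w w' : List Bool) (y : ℕ → ℂ), TW v t K (w ++ w') y =
    TW v t K w (TW v t K w' y) := by
  intro w
  induction w with
  | nil => intro w' y; rfl
  | cons l w ih =>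
    intro w' y
    change Xl v K l (Dt t K (TW v t K (w ++ w') y)) = _
    rw [ih]
    rfl

/-- `WT` and the reversed word -/
lemma WT_eq (w : List Bool) : ∀ g : ℕ → ℂ,
    WT v t K w (Dt t K g) = Dt t K (TW v t K w.reverse g) := by
  induction w with
  | nil => intro g; rfl
  | cons l w ih =>
    intro g
    change WT v t K w (Dt t K (Xl v K l (Dt t K g))) = _
    rw [ih, List.reverse_cons, TW_append]
    rfl

lemma Dt_Dt (ht : t ≠ 0) (y : ℕ → ℂ) : Dt t⁻¹ K (Dt t K y) = y := by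
  funext d
  unfold Dt
  rw [← mul_assoc, ← mul_pow, inv_mul_cancel₀ ht, one_pow, one_mul]

/-- the powers -/
noncomputable def yx (K : ℕ) (x : ℂ) (e : ℕ) : ℂ := x ^ (K - e)

lemma Dt_yx (x : ℂ) : Dt t K (yx K x) = yx K (t * x) := by
  funext d
  unfold Dt yx
  rw [mul_pow]

/-- **the transposed word** -/
theorem bt_rev (hK : Nz v K) (ht : t ≠ 0) (w : List Bool) (x z : ℂ) :
    bt v K (yx K z) (TW v t K w (yx K x)) =
      t ^ (K * w.length) * (t ^ K)⁻¹ * bt v K (yx K (t * x)) (TW v t⁻¹ K w.reverse (yx K (t * z))) := by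
  have hti : t⁻¹ ≠ 0 := inv_ne_zero ht
  rw [bt_TW hK ht]
  have h1 : yx K z = Dt t⁻¹ K (yx K (t * z)) := by
    rw [Dt_yx, ← mul_assoc, inv_mul_cancel₀ ht, one_mul]
  rw [h1, WT_eq]
  have h2 := bt_D (v := v) (K := K) hti (yx K x) (TW v t⁻¹ K w.reverse (yx K (t * z)))
  rw [inv_inv, Dt_yx] at h2
  rw [bt_symm, h2]
  rw [inv_pow]
  ring

/-- a geometric list -/
noncomputable def geo (v : ℂ) (K : ℕ) (z : ℂ) : List ℂ :=
  (List.range K).map fun i : ℕ => z * v ^ (2 * (i : ℤ) + 1 - K)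

lemma geo_length (z : ℂ) : (geo v K z).length = K := by simp [geo]

/-- coefficients of polynomial functions are unique -/
lemma coef1 {p q : ℕ → ℂ} (h : ∀ u : ℂ, ∑ i ∈ range (K + 1), p i * u ^ i =
    ∑ i ∈ range (K + 1), q i * u ^ i) : ∀ i, i ≤ K → p i = q i := by
  intro i hi
  have h1 : (∑ i ∈ range (K + 1), Polynomial.C (p i) * Polynomial.X ^ i : Polynomial ℂ) =
      ∑ i ∈ range (K + 1), Polynomial.C (q i) * Polynomial.X ^ i := by
    refine Polynomial.funext fun u => ?_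
    simp only [Polynomial.eval_finsetSum, Polynomial.eval_mul, Polynomial.eval_C,
      Polynomial.eval_pow, Polynomial.eval_X]
    exact h u
  have h2 := congrArg (fun f => Polynomial.coeff f i) h1
  simp only [Polynomial.finsetSum_coeff, Polynomial.coeff_C_mul, Polynomial.coeff_X_pow] at h2
  have h3 : ∀ r : ℕ → ℂ, ∑ b ∈ range (K + 1), r b * (if i = b then (1 : ℂ) else 0) = r i := by
    intro r
    rw [sum_eq_single i]
    · simp
    · intro b _ hb
      rw [if_neg (Ne.symm hb), mul_zero]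
    · intro hh
      exact absurd (mem_range.2 (by omega)) hh
  rw [h3, h3] at h2
  exact h2

lemma list_prod_range (f : ℕ → ℂ) (n : ℕ) : ((List.range n).map f).prod = ∏ i ∈ range n, f i := by
  induction n with
  | zero => simp
  | succ n ih => rw [List.range_succ, List.map_append, List.prod_append, ih, prod_range_succ]; simp

lemma ec_geo (hv : v ≠ 0) (hK : Nz v K) (z : ℂ) {d : ℕ} (hd : d ≤ K) :
    ec (geo v K z) d = qb v K d * z ^ d := by
  have h1 : ∀ u : ℂ, ∑ d ∈ range (K + 1), ec (geo v K z) (K - d) * u ^ d =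
      ∑ d ∈ range (K + 1), (qb v K (K - d) * z ^ (K - d)) * u ^ d := by
    intro u
    have h2 := qbinom_hom hv u K hK z
    have h3 := Ev_prod u (geo v K z)
    rw [Ev_eq, geo_length] at h3
    have h4 : ((geo v K z).map fun z => u + z).prod =
        ∏ r ∈ range K, (u + z * v ^ (2 * (r : ℤ) + 1 - K)) := by
      unfold geo
      rw [List.map_map, list_prod_range]
      rfl
    rw [h4, ← h2] at h3
    rw [← sum_flip' K, ← sum_flip' K fun d => (qb v K (K - d) * z ^ (K - d)) * u ^ d]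
    have h5 : ∀ f : ℕ → ℂ, ∑ d ∈ range (K + 1), f (K - (K - d)) * u ^ (K - d) =
        ∑ d ∈ range (K + 1), f d * u ^ (K - d) := fun f => sum_congr rfl fun d hd => by
      rw [mem_range] at hd
      have : K - (K - d) = d := by omega
      rw [this]
    have h6 := h5 fun d => ec (geo v K z) d
    have h7 := h5 fun d => qb v K d * z ^ d
    beta_reduce at h6 h7
    rw [h6, h7]
    exact h3
  have h8 := coef1 h1 (K - d) (Nat.sub_le _ _)
  have : K - (K - d) = d := by omega
  rwa [this] at h8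

/-- the evaluation at a geometric list -/
lemma Ev_geo (hv : v ≠ 0) (hK : Nz v K) (z : ℂ) (y : ℕ → ℂ) :
    Ev (geo v K z) y = bt v K (yx K z) y := by
  rw [Ev_eq, geo_length]
  unfold bt yx
  refine sum_congr rfl fun d hd => ?_
  rw [mem_range] at hd
  have : K - (K - d) = d := by omega
  rw [ec_geo hv hK z (by omega), this]

end Pool.Agent.H62.TV
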