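import Pool.Agent.H62.TV.Crit
import Pool.Agent.H62.TV.Fix

/-!
The critical point, and the trace of an alternating word.
-/

set_option autoImplicit false

namespace Pool.Agent.H62.TV

open Finset Metric
open Pool.Agent.H550R3.Jones (br brf)
open Pool.Agent.Y482.CY (sb Nz)
open Pool.Agent.H62.VC (Ev Ev_cons Ev_congr Ev_mul Ev_eq Ev_prod ec ec_zero factor)

variable {v t : ℂ} {K : ℕ} {e : ℝ}

/-- the matrix of a letter -/
noncomputable def xl (v : ℂ) (K : ℕ) (l : Bool) (d f : ℕ) : ℂ :=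
  if l then v ^ (-((f : ℤ) * (K - d))) * qb v d f else v ^ ((d : ℤ) * (K - f)) * qb v (K - d) (K - f)

lemma Xl_eq (l : Bool) (y : ℕ → ℂ) (d : ℕ) :
    Xl v K l y d = ∑ f ∈ range (K + 1), xl v K l d f * y f := by
  unfold Xl xl
  cases l
  · rfl
  · rfl

/-- the matrix of a word -/
noncomputable def Bm (v t : ℂ) (K : ℕ) : List Bool → ℕ → ℕ → ℂ
  | [], d, e => if d = e then 1 else 0
  | l :: w, d, e => ∑ f ∈ range (K + 1), xl v K l d f * (t ^ (K - f) * Bm v t K w f e)

lemma TW_Bm (y : ℕ → ℂ) : ∀ (w : List Bool) (d : ℕ), d ≤ K →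
    TW v t K w y d = mulv K (Bm v t K w) y d := by
  intro w
  induction w with
  | nil =>
    intro d hd
    unfold mulv
    rw [sum_eq_single d]
    · simp [TW, Bm]
    · intro b _ hb
      simp [Bm, Ne.symm hb]
    · intro hh
      exact absurd (mem_range.2 (by omega)) hh
  | cons l w ih =>
    intro d hd
    change Xl v K l (Dt t K (TW v t K w y)) d = _
    rw [Xl_eq]
    unfold mulv
    simp only [Bm, sum_mul]
    rw [sum_comm]
    refine sum_congr rfl fun f hf => ?_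
    rw [mem_range] at hf
    unfold Dt
    rw [ih f (by omega)]
    unfold mulv
    rw [mul_sum, mul_sum]
    exact sum_congr rfl fun g _ => by ring

/-- the symbol -/
noncomputable def AA (K : ℕ) (B : ℕ → ℕ → ℂ) (x z : ℂ) : ℂ :=
  ∑ d ∈ range (K + 1), ∑ e ∈ range (K + 1), (K.choose d : ℂ) * z ^ d * (B d e * x ^ (K - e))

/-- its Euler derivatives -/
noncomputable def DZ (K : ℕ) (B : ℕ → ℕ → ℂ) (x z : ℂ) : ℂ :=
  ∑ d ∈ range (K + 1), ∑ e ∈ range (K + 1),
    (K.choose d : ℂ) * z ^ d * ((d : ℂ) * (B d e * x ^ (K - e)))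

noncomputable def DX (K : ℕ) (B : ℕ → ℕ → ℂ) (x z : ℂ) : ℂ :=
  ∑ d ∈ range (K + 1), ∑ e ∈ range (K + 1),
    (K.choose d : ℂ) * z ^ d * (B d e * (((K : ℂ) - e) * x ^ (K - e)))

lemma AA_eq (B : ℕ → ℕ → ℂ) (x z : ℂ) :
    AA K B x z = Ev (List.replicate K z) (mulv K B (yx K x)) := by
  rw [Ev_replicate]
  unfold AA mulv yx
  exact sum_congr rfl fun d _ => by rw [mul_sum]

lemma DZ_eq (B : ℕ → ℕ → ℂ) (x z : ℂ) :
    DZ K B x z = Ev (List.replicate K z) (fun d => (d : ℂ) * mulv K B (yx K x) d) := by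
  rw [Ev_replicate]
  unfold DZ mulv yx
  exact sum_congr rfl fun d _ => by rw [mul_sum, mul_sum]

lemma DX_eq (B : ℕ → ℕ → ℂ) (x z : ℂ) :
    DX K B x z = Ev (List.replicate K z) (mulv K B fun e => ((K : ℂ) - e) * x ^ (K - e)) := by
  rw [Ev_replicate]
  unfold DX mulv
  exact sum_congr rfl fun d _ => by rw [mul_sum]

lemma AA_diff (B : ℕ → ℕ → ℂ) : Differentiable ℂ fun p : ℂ × ℂ => AA K B p.1 p.2 := by
  unfold AA; fun_prop

lemma DZ_diff (B : ℕ → ℕ → ℂ) : Differentiable ℂ fun p : ℂ × ℂ => DZ K B p.1 p.2 := by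
  unfold DZ; fun_prop

lemma DX_diff (B : ℕ → ℕ → ℂ) : Differentiable ℂ fun p : ℂ × ℂ => DX K B p.1 p.2 := by
  unfold DX; fun_prop

/-- the linear coefficients -/
lemma pow_coeff_one (a b : ℂ) (n : ℕ) :
    ((Polynomial.C a + Polynomial.C b * Polynomial.X) ^ n).coeff 0 = a ^ n ∧
    a * ((Polynomial.C a + Polynomial.C b * Polynomial.X) ^ n).coeff 1 = n * a ^ n * b := by
  have h0 : (Polynomial.C a + Polynomial.C b * Polynomial.X : Polynomial ℂ).coeff 0 = a := by simp
  have h1 : (Polynomial.C a + Polynomial.C b * Polynomial.X : Polynomial ℂ).coeff 1 = b := by simp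
  induction n with
  | zero => simp [Polynomial.coeff_one]
  | succ n ih =>
    obtain ⟨i1, i2⟩ := ih
    rw [pow_succ, Polynomial.mul_coeff_zero, Polynomial.mul_coeff_one, h0, h1, i1]
    refine ⟨by rw [pow_succ], ?_⟩
    push_cast
    linear_combination a * i2

lemma al_zero (a b : ℂ) (d : ℕ) : al K a b 0 d = a ^ d := by
  unfold al
  rw [Polynomial.mul_coeff_zero, (pow_coeff_one a b d).1]
  have h := (pow_coeff_one 1 (-1) (K - d)).1
  have e1 : (Polynomial.C (1 : ℂ) - Polynomial.C 1 * Polynomial.X : Polynomial ℂ) =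
      Polynomial.C 1 + Polynomial.C (-1) * Polynomial.X := by simp; ring
  rw [e1, h, one_pow, mul_one]

lemma al_one (a b : ℂ) {d : ℕ} (hd : d ≤ K) :
    a * al K a b 1 d = (a + b) * (d * a ^ d) - K * a * a ^ d := by
  unfold al
  obtain ⟨h1, h2⟩ := pow_coeff_one a b d
  obtain ⟨h3, h4⟩ := pow_coeff_one 1 (-1) (K - d)
  have e1 : (Polynomial.C (1 : ℂ) - Polynomial.C 1 * Polynomial.X : Polynomial ℂ) =
      Polynomial.C 1 + Polynomial.C (-1) * Polynomial.X := by simp; ring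
  rw [Polynomial.mul_coeff_one, h1, e1, h3]
  have e2 : ((K - d : ℕ) : ℂ) = (K : ℂ) - d := by rw [Nat.cast_sub hd]
  rw [e2] at h4
  rw [one_pow, one_mul] at h4
  rw [h4, one_pow]
  linear_combination h2

lemma nn_zero (B : ℕ → ℕ → ℂ) (a b : ℂ) : nn K B a b 0 0 = AA K B b a := by
  unfold nn AA
  refine sum_congr rfl fun d _ => sum_congr rfl fun e _ => ?_
  rw [al_zero, al_zero]
  ring

lemma nn_01 (B : ℕ → ℕ → ℂ) (a b : ℂ) :
    a * nn K B a b 0 1 = (a + b) * DZ K B b a - K * a * AA K B b a := by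
  unfold nn AA DZ
  rw [mul_sum, mul_sum, mul_sum, ← sum_sub_distrib]
  refine sum_congr rfl fun d hd => ?_
  rw [mul_sum, mul_sum, mul_sum, ← sum_sub_distrib]
  refine sum_congr rfl fun e _ => ?_
  rw [mem_range] at hd
  rw [al_zero]
  have := al_one (K := K) a b (show d ≤ K by omega)
  linear_combination ((K.choose d : ℂ) * B d e * b ^ (K - e)) * this

lemma nn_10 (B : ℕ → ℕ → ℂ) (a b : ℂ) :
    b * nn K B a b 1 0 = (a + b) * DX K B b a - K * b * AA K B b a := by
  unfold nn AA DX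
  rw [mul_sum, mul_sum, mul_sum, ← sum_sub_distrib]
  refine sum_congr rfl fun d hd => ?_
  rw [mul_sum, mul_sum, mul_sum, ← sum_sub_distrib]
  refine sum_congr rfl fun e he => ?_
  rw [mem_range] at he
  rw [al_zero]
  have := al_one (K := K) b a (Nat.sub_le K e)
  have e2 : ((K - e : ℕ) : ℂ) = (K : ℂ) - e := by rw [Nat.cast_sub (by omega)]
  rw [e2] at this
  linear_combination ((K.choose d : ℂ) * a ^ d * B d e) * this

/-- the Euler derivative at the points -/
lemma euler_prod2 {Ω : List ℂ} (hΩ : Ω.length = K) (x : ℂ) (hne : ∀ ω ∈ Ω, x + ω ≠ 0) :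
    Ev Ω (fun e => ((K : ℂ) - e) * x ^ (K - e)) =
      (Ω.map fun ω => x + ω).prod * (Ω.map fun ω => x / (x + ω)).sum := by
  have h2 := prod_deriv 1 x Ω (by simpa using hne)
  simp only [one_mul] at h2
  have h3 : (fun z : ℂ => (Ω.map fun ω => z + ω).prod) =
      fun z : ℂ => ∑ e ∈ range (K + 1), ec Ω e * z ^ (K - e) := by
    funext z
    rw [← Ev_prod, Ev_eq, hΩ]
  rw [h3] at h2
  have h1 : HasDerivAt (fun z : ℂ => ∑ e ∈ range (K + 1), ec Ω e * z ^ (K - e))
      (∑ e ∈ range (K + 1), ec Ω e * (((K - e : ℕ) : ℂ) * x ^ (K - e - 1))) x :=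
    HasDerivAt.fun_sum fun d _ => (hasDerivAt_pow (K - d) x).const_mul _
  have h4 := h1.unique h2
  have h6 : (Ω.map fun ω => x / (x + ω)).sum = x * (Ω.map fun ω => 1 / (x + ω)).sum := by
    rw [← List.sum_map_mul_left]
    congr 1
    refine List.map_congr_left fun ω _ => ?_
    ring
  rw [h6, ← mul_assoc, mul_comm _ x, mul_assoc, ← h4, Ev_eq, hΩ, mul_sum]
  refine sum_congr rfl fun e he => ?_
  rw [mem_range] at he
  have e2 : ((K - e : ℕ) : ℂ) = (K : ℂ) - e := by rw [Nat.cast_sub (by omega)]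
  rw [← e2]
  rcases Nat.eq_zero_or_pos (K - e) with hd | hd
  · rw [hd]; simp
  · obtain ⟨k, hk⟩ : ∃ k, K - e = k + 1 := ⟨K - e - 1, by omega⟩
    rw [hk, Nat.add_sub_cancel, pow_succ]
    ring

lemma gw_diffOn : ∀ w : List Bool, DifferentiableOn ℂ (gw w) {z | 0 < z.re} := by
  intro w
  induction w with
  | nil => exact differentiableOn_id
  | cons l w ih =>
    refine ih.comp (t := {z | 0 < z.re}) ?_ fun z hz => ph_re l hz
    intro z hz
    have hz' : 1 + z ≠ 0 := one_add_ne hz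
    cases l
    · have : ph false = fun z => 1 + z := by funext z; simp [ph]
      rw [this]
      exact ((differentiable_const 1).add differentiable_id z).differentiableWithinAt
    · have : ph true = fun z => z / (1 + z) := by funext z; simp [ph]
      rw [this]
      exact (differentiableAt_id.div ((differentiable_const 1).add differentiable_id z)
        hz').differentiableWithinAt

lemma Pr.inv (h : Pr v t K e) : Pr v t⁻¹ K e := by
  refine ⟨h.v1, h.nz, by rw [norm_inv, h.t1, inv_one], h.e0, h.e1, ?_, h.vK, h.vn⟩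
  have ht0 := h.t0
  have e1 : t⁻¹ - 1 = -(t⁻¹ * (t - 1)) := by field_simp; ring
  rw [e1, norm_neg, norm_mul, norm_inv, h.t1, inv_one, one_mul]
  exact h.te

/-- the data of a word -/
structure Dat (v t : ℂ) (K : ℕ) (e m : ℝ) (w : List Bool) (xc zc : ℝ) : Prop where
  pr : Pr v t K e
  K1 : 1 ≤ K
  m1 : 1 ≤ m
  em : e * m ^ 3 ≤ 1 / 10 ^ 11
  z1 : 1 ≤ zc
  zm : zc ≤ m
  x1 : 1 / m ≤ xc
  xm : xc ≤ 1
  ow : RO m zc w
  orv : RO m xc w.reverse
  fw : gR w zc = zc
  fr : gR w.reverse xc = xc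
  J1 : 13 / 5 ≤ JR w zc
  J2 : 2 ≤ JR w.reverse xc

variable {m xc zc : ℝ} {w : List Bool}

lemma Dat.xpos (h : Dat v t K e m w xc zc) : 0 < xc := by
  have := h.m1
  exact lt_of_lt_of_le (by positivity) h.x1

lemma Dat.em1 (h : Dat v t K e m w xc zc) : e * m ≤ 1 / 10 ^ 11 := by
  have h1 := h.m1
  have h2 := h.em
  have h3 := h.pr.e0
  have h4 : m ≤ m ^ 3 := by nlinarith [mul_self_nonneg (m - 1)]
  exact (mul_le_mul_of_nonneg_left h4 h3.le).trans h2

lemma Dat.zx (h : Dat v t K e m w xc zc) : zc ≤ m ^ 2 * xc ∧ xc ≤ m ^ 2 * zc := by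
  have h1 := h.m1
  have h2 := h.x1
  have h3 := h.zm
  have h4 := h.z1
  have h5 := h.xm
  rw [div_le_iff₀ (by linarith)] at h2
  constructor
  · calc zc ≤ m * 1 := by linarith
      _ ≤ m * (xc * m) := mul_le_mul_of_nonneg_left h2 (by linarith)
      _ = m ^ 2 * xc := by ring
  · have : 1 ≤ m ^ 2 := one_le_pow₀ h1
    nlinarith

/-- no zeros -/
lemma Dat.ne (h : Dat v t K e m w xc zc) {x : ℂ} (hx : ‖x - xc‖ ≤ xc / 20) (L : List ℂ)
    (hL : L.length = K) (hL1 : ∀ w ∈ L, ‖w - zc‖ < zc / 20) :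
    Ev L (mulv K (Bm v t K w) (yx K x)) ≠ 0 := by
  have hz1 := h.z1
  have he0 := h.pr.e0
  have hem := h.em1
  have hm := h.m1
  obtain ⟨ho, _⟩ := orb_of_real h.m1 le_rfl (by norm_num) w zc (zc : ℂ) h.ow (by simp)
  have hzn : ‖(zc : ℂ)‖ = zc := by rw [Complex.norm_real, Real.norm_of_nonneg (by linarith)]
  obtain ⟨c, Ω, h1, h2, h3, h4⟩ := h.pr.word (b := 3 * m) (ρ := 1 / 20) (by norm_num)
    (by nlinarith) w (zc : ℂ) ho L hL (by
      intro w' hw'
      rw [hzn]
      have := hL1 w' hw'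
      have h5 := BB_nonneg (zc : ℂ)
      have h6 : 0 ≤ 18 / 5 * e * BB (zc : ℂ) * zc := by positivity
      nlinarith)
  have e1 : Ev L (mulv K (Bm v t K w) (yx K x)) = Ev L (TW v t K w (yx K x)) :=
    Ev_congr L fun d hd => (TW_Bm _ w d (by omega)).symm
  have e2 : Ev Ω (yx K x) = (Ω.map fun ω => x + ω).prod := by
    rw [← Ev_prod, h1]; rfl
  rw [e1, h2, e2]
  refine mul_ne_zero ?_ ?_
  · intro hc
    rw [hc, norm_zero] at h3
    have := pow_pos (Jl_pos w (zc : ℂ)) K
    linarith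
  · intro hp
    rw [List.prod_eq_zero_iff, List.mem_map] at hp
    obtain ⟨ω, hω, h5⟩ := hp
    have h6 := h4 ω hω
    rw [gw_real, h.fw, hzn] at h6
    have hB : BB (zc : ℂ) ≤ 3 * m := ho.head.2
    have h7 : (1 / 20 + 18 / 5 * e * BB (zc : ℂ)) ≤ 1 / 10 := by
      have := mul_le_mul_of_nonneg_left hB (by positivity : 0 ≤ 18 / 5 * e)
      nlinarith
    have h8 : ‖ω - zc‖ ≤ 1 / 10 * zc := h6.trans (mul_le_mul_of_nonneg_right h7 (by linarith))
    have h9 := (near_re h8).1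
    have h10 := (near_re hx).1
    have h11 := h.xpos
    have h12 : (x + ω).re = 0 := by rw [h5]; simp
    rw [Complex.add_re] at h12
    linarith

/-- the first estimate -/
theorem Dat.E2 (h : Dat v t K e m w xc zc) {x z : ℂ} (hx : ‖x - xc‖ ≤ xc / 80)
    (hz : ‖z - zc‖ ≤ zc / 80) :
    AA K (Bm v t K w) x z ≠ 0 ∧ DX K (Bm v t K w) x z ≠ 0 ∧
      ‖x * (K * AA K (Bm v t K w) x z / DX K (Bm v t K w) x z - 1) - gw w z‖ ≤
        32000 * (e * m ^ 3) * zc := by
  have hz1 := h.z1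
  have he0 := h.pr.e0
  have hem := h.em1
  have hm := h.m1
  have hxp := h.xpos
  have hKR : (1 : ℝ) ≤ K := by exact_mod_cast h.K1
  have hK0 : (K : ℂ) ≠ 0 := by
    have : K ≠ 0 := by have := h.K1; omega
    exact_mod_cast this
  obtain ⟨ho, hg⟩ := orb_of_real h.m1 (by norm_num : (0 : ℝ) ≤ 1 / 80) (by norm_num) w zc z h.ow
    (by linarith)
  rw [h.fw] at hg
  obtain ⟨c, Ω, h1, h2, h3, h4⟩ := h.pr.word (b := 3 * m) (ρ := 0) le_rfl
    (by nlinarith) w z ho (List.replicate K z) (List.length_replicate ..)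
    (Cl_replicate (by
      rw [sub_self, norm_zero]
      have := BB_nonneg z
      positivity))
  have hc : c ≠ 0 := by
    rintro rfl
    rw [norm_zero] at h3
    have := pow_pos (Jl_pos w z) K
    linarith
  set g := gw w z with hgdef
  have hcong : ∀ y : ℕ → ℂ, Ev (List.replicate K z) (mulv K (Bm v t K w) y) = c * Ev Ω y := by
    intro y
    rw [← h2]
    exact Ev_congr _ fun d hd => (TW_Bm _ w d (by rw [List.length_replicate] at hd; omega)).symm
  have hterm : ∀ ω ∈ Ω, 1 * x + ω ≠ 0 ∧ ‖1 * x / (1 * x + ω) - x / (x + g)‖ ≤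
      2 * (0 + 54 / 5 * (e * m)) := by
    intro ω hω
    refine term_close (gc := zc) hxp (by linarith) hx (by linarith) (by positivity)
      (by nlinarith) ?_ (by norm_num) (by simp)
    refine (h4 ω hω).trans (mul_le_mul_of_nonneg_right ?_ (norm_nonneg _))
    have := mul_le_mul_of_nonneg_left ho.last.2 (by positivity : 0 ≤ 18 / 5 * e)
    nlinarith
  simp only [one_mul] at hterm
  have hAA : AA K (Bm v t K w) x z = c * (Ω.map fun ω => x + ω).prod := by
    rw [AA_eq, hcong, ← Ev_prod, h1]; rfl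
  have hprod : (Ω.map fun ω => x + ω).prod ≠ 0 := by
    intro hp
    rw [List.prod_eq_zero_iff, List.mem_map] at hp
    obtain ⟨ω, hω, h5⟩ := hp
    exact (hterm ω hω).1 h5
  have hAA0 : AA K (Bm v t K w) x z ≠ 0 := by
    rw [hAA]; exact mul_ne_zero hc hprod
  have hDX : DX K (Bm v t K w) x z = AA K (Bm v t K w) x z * (Ω.map fun ω => x / (x + ω)).sum := by
    rw [DX_eq, hcong, euler_prod2 h1 x fun ω hω => (hterm ω hω).1, hAA]
    ring
  set S := (Ω.map fun ω => x / (x + ω)).sum with hS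
  have hsum := sum_close Ω fun ω hω => (hterm ω hω).2
  rw [h1, ← hS] at hsum
  have hφ : ‖S / K - x / (x + g)‖ ≤ 108 / 5 * (e * m) := by
    have e1 : S / K - x / (x + g) = (S - K * (x / (x + g))) / K := by field_simp
    rw [e1, norm_div, Complex.norm_natCast, div_le_iff₀ (by linarith)]
    refine hsum.trans (le_of_eq ?_)
    ring
  have hε : 108 / 5 * (e * m) ≤ 1 / (5 * m ^ 2) := by
    rw [le_div_iff₀ (by positivity)]
    have := h.em
    nlinarith
  obtain ⟨k1, k2⟩ := inv_close hxp (by linarith) h.m1 h.zx.1 h.zx.2 hx (by linarith) hφ hε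
  have hS0 : S ≠ 0 := by
    rintro h0
    rw [h0, zero_div] at k1
    exact k1 rfl
  refine ⟨hAA0, by rw [hDX]; exact mul_ne_zero hAA0 hS0, ?_⟩
  have e2 : x * (K * AA K (Bm v t K w) x z / DX K (Bm v t K w) x z - 1) - g =
      x / (S / K) - (x + g) := by
    rw [hDX]
    field_simp
    ring
  rw [e2]
  refine k2.trans ?_
  have e3 : 20 * m ^ 2 * (108 / 5 * (e * m)) * zc = 432 * (e * m ^ 3) * zc := by ring
  rw [e3]
  have : 0 ≤ (e * m ^ 3) * zc := by positivity
  nlinarith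

lemma two_le_BB {ζ : ℂ} (h : 0 < ‖ζ‖) : 2 ≤ BB ζ := by
  unfold BB
  rw [← sub_nonneg]
  have e1 : ‖ζ‖ + 1 / ‖ζ‖ - 2 = (‖ζ‖ - 1) ^ 2 / ‖ζ‖ := by field_simp; ring
  rw [e1]
  positivity

/-- the second estimate -/
theorem Dat.E1 (h : Dat v t K e m w xc zc) {x z : ℂ} (hx : ‖x - xc‖ ≤ xc / 80)
    (hz : ‖z - zc‖ ≤ zc / 80) :
    DZ K (Bm v t K w) x z ≠ 0 ∧
      ‖z * (K * AA K (Bm v t K w) x z / DZ K (Bm v t K w) x z - 1) - gw w.reverse x‖ ≤
        32000 * (e * m ^ 3) * xc := by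
  have hz1 := h.z1
  have he0 := h.pr.e0
  have hem := h.em1
  have hm := h.m1
  have hxp := h.xpos
  have hzp : 0 < zc := by linarith
  have hv0 := h.pr.v0
  have ht0 := h.pr.t0
  have hKR : (1 : ℝ) ≤ K := by exact_mod_cast h.K1
  have hK0 : (K : ℂ) ≠ 0 := by
    have : K ≠ 0 := by have := h.K1; omega
    exact_mod_cast this
  have hAA0 := (h.E2 hx hz).1
  set y := mulv K (Bm v t K w) (yx K x) with hy
  have hne : ∀ L : List ℂ, L.length = K → (∀ w ∈ L, ‖w - zc‖ < zc / 20) → Ev L y ≠ 0 :=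
    fun L hL hL1 => h.ne (by linarith) L hL hL1
  set C : List ℂ := (List.range K).map fun i : ℕ => v ^ (2 * (i : ℤ) + 1 - K) - 1 with hC
  have hCl : C.length = K := by simp [hC]
  have hCδ : ∀ c ∈ C, ‖c‖ ≤ e / 8 := by
    intro c hc
    rw [hC, List.mem_map] at hc
    obtain ⟨i, hi, rfl⟩ := hc
    rw [List.mem_range] at hi
    exact h.pr.near _ (by rw [abs_le]; omega)
  have hClose := phi_close hzp hne hz hCl (by positivity : 0 < e / 8)
    (by nlinarith) hCδ
  have hgeo : (C.map fun c => z * (1 + c)) = geo v K z := by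
    rw [hC, List.map_map]
    unfold geo
    refine List.map_congr_left fun i _ => ?_
    simp
  have hgeo1 : ∀ z : ℂ, ((geo v K 1).map fun l => z * l) = geo v K z := by
    intro z
    unfold geo
    rw [List.map_map]
    refine List.map_congr_left fun i _ => ?_
    simp
  -- the reversed word
  obtain ⟨ho, hg⟩ := orb_of_real h.m1 (by norm_num : (0 : ℝ) ≤ 1 / 80) (by norm_num) w.reverse xc x
    h.orv (by linarith)
  rw [h.fr] at hg
  set g := gw w.reverse x with hgdef
  have hxn : 0 < ‖x‖ := ho.head.1.norm_pos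
  obtain ⟨c, Ω, h1, h2, h3, h4⟩ := h.pr.inv.word (b := 3 * m) (ρ := 0) le_rfl
    (by nlinarith) w.reverse x ho (geo v K (t * x)) (geo_length _) (by
      intro u hu
      unfold geo at hu
      rw [List.mem_map] at hu
      obtain ⟨i, hi, rfl⟩ := hu
      rw [List.mem_range] at hi
      have k1 := h.pr.near (2 * (i : ℤ) + 1 - K) (by rw [abs_le]; omega)
      have k2 := h.pr.te
      have e1 : t * x * v ^ (2 * (i : ℤ) + 1 - K) - x =
          (t * (v ^ (2 * (i : ℤ) + 1 - K) - 1) + (t - 1)) * x := by ring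
      rw [e1, norm_mul]
      refine mul_le_mul_of_nonneg_right ?_ (norm_nonneg _)
      refine (norm_add_le _ _).trans ?_
      rw [norm_mul, h.pr.t1, one_mul]
      have k3 := mul_le_mul_of_nonneg_left (two_le_BB hxn) (by positivity : 0 ≤ 18 / 5 * e)
      linarith)
  have hfac : ∀ z : ℂ, Ev ((geo v K 1).map fun l => z * l) y =
      (t ^ (K * w.length) * (t ^ K)⁻¹ * c) * (Ω.map fun ω => t * z + ω).prod := by
    intro z
    rw [hgeo1, Ev_geo hv0 h.pr.nz]
    have e1 : bt v K (yx K z) y = bt v K (yx K z) (TW v t K w (yx K x)) :=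
      bt_congr (fun _ _ => rfl) fun d hd => (TW_Bm _ w d hd).symm
    rw [e1, bt_rev h.pr.nz ht0, ← Ev_geo hv0 h.pr.nz, h2]
    have e2 : Ev Ω (yx K (t * z)) = (Ω.map fun ω => t * z + ω).prod := by
      rw [← Ev_prod, h1]; rfl
    rw [e2]; ring
  have hterm : ∀ ω ∈ Ω, t * z + ω ≠ 0 ∧ ‖t * z / (t * z + ω) - z / (z + g)‖ ≤
      2 * (e / 8 + 54 / 5 * (e * m)) := by
    intro ω hω
    refine term_close hzp hxp hz (by linarith) (by positivity) (by nlinarith) ?_
      (by nlinarith) h.pr.te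
    refine (h4 ω hω).trans (mul_le_mul_of_nonneg_right ?_ (norm_nonneg _))
    have := mul_le_mul_of_nonneg_left ho.last.2 (by positivity : 0 ≤ 18 / 5 * e)
    nlinarith
  have heu := euler_prod hfac z fun ω hω => (hterm ω hω).1
  rw [hgeo1] at heu
  rw [hgeo, heu] at hClose
  set S := (Ω.map fun ω => t * z / (t * z + ω)).sum with hS
  have hgne : Ev (geo v K z) y ≠ 0 := by
    refine hne _ (geo_length _) fun u hu => ?_
    rw [← hgeo, List.mem_map] at hu
    obtain ⟨c', hc', rfl⟩ := hu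
    have k1 := hCδ c' hc'
    have e1 : z * (1 + c') - zc = (z - zc) + c' * z := by ring
    rw [e1]
    refine (norm_add_le _ _).trans_lt ?_
    rw [norm_mul]
    have k2 := (near_norm hzp.le hz).2
    have k3 : ‖c'‖ * ‖z‖ ≤ e / 8 * (zc + zc / 80) :=
      mul_le_mul k1 k2 (norm_nonneg _) (by positivity)
    nlinarith
  rw [mul_div_cancel_left₀ _ hgne, ← DZ_eq, ← AA_eq] at hClose
  set P := DZ K (Bm v t K w) x z with hP
  set Q := AA K (Bm v t K w) x z with hQ
  have hsum := sum_close Ω fun ω hω => (hterm ω hω).2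
  rw [h1, ← hS] at hsum
  have hφ : ‖P / Q / K - z / (z + g)‖ ≤ 1600 * (e * m) := by
    have e1 : P / Q / K - z / (z + g) = ((S - K * (z / (z + g))) - (S - P / Q)) / K := by
      field_simp
      ring
    rw [e1, norm_div, Complex.norm_natCast, div_le_iff₀ (by linarith)]
    refine (norm_sub_le _ _).trans ?_
    have k1 : (K : ℝ) * (2 * (e / 8 + 54 / 5 * (e * m))) + 12000 * K * (e / 8) ≤
        1600 * (e * m) * K := by
      have : 0 ≤ K * e := by positivity
      nlinarith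
    linarith
  have hε : 1600 * (e * m) ≤ 1 / (5 * m ^ 2) := by
    rw [le_div_iff₀ (by positivity)]
    have := h.em
    nlinarith
  obtain ⟨k1, k2⟩ := inv_close hzp hxp h.m1 h.zx.2 h.zx.1 hz (by linarith) hφ hε
  have hP0 : P ≠ 0 := by
    rintro h0
    rw [h0, zero_div, zero_div] at k1
    exact k1 rfl
  refine ⟨hP0, ?_⟩
  have e2 : z * (K * Q / P - 1) - g = z / (P / Q / K) - (z + g) := by
    field_simp
    ring
  rw [e2]
  refine k2.trans (le_of_eq ?_)
  ring

end Pool.Agent.H62.TV
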