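import Pool.Agent.H62.TV.Pt

/-!
The critical point, and the trace of an alternating word.
-/

set_option autoImplicit false

namespace Pool.Agent.H62.TV

open Finset Metric
open Pool.Agent.H550R3.Jones (br brf)
open Pool.Agent.Y482.CY (sb Nz)
open Pool.Agent.H62.VC (Ev Ev_cons Ev_congr Ev_mul Ev_eq Ev_prod ec ec_zero factor)

attribute [local irreducible] AA DZ DX Bm nn gw Jw JR

variable {v t : ℂ} {K : ℕ} {e : ℝ} {m xc zc : ℝ} {w : List Bool}

lemma contr_norm {w : List Bool} {ζ : ℝ} (hζ : 0 < ζ) {r : ℝ} (hr : r ≤ 1 / 100) {J : ℝ}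
    (hJ0 : 2 ≤ J) (hJ : J ≤ JR w ζ) {x y : ℂ} (hx : ‖x‖ ≤ r) (hy : ‖y‖ ≤ r) :
    ‖(gw w (ζ * (1 + x)) / ζ - 1) - (gw w (ζ * (1 + y)) / ζ - 1)‖ ≤ 26 / 100 * ‖x - y‖ := by
  have hζ0 : (ζ : ℂ) ≠ 0 := by exact_mod_cast hζ.ne'
  have hn : ‖(ζ : ℂ)‖ = ζ := by rw [Complex.norm_real, Real.norm_of_nonneg hζ.le]
  have near : ∀ {x : ℂ}, ‖x‖ ≤ r → ‖(ζ : ℂ) * (1 + x) - ζ‖ ≤ r * ζ := by
    intro x hx
    have e1 : (ζ : ℂ) * (1 + x) - ζ = x * ζ := by ring
    rw [e1, norm_mul, hn]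
    exact mul_le_mul_of_nonneg_right hx hζ.le
  have h1 := gw_contr (w := w) hζ (by linarith : r < 1) (near hx) (near hy)
    (by linarith : 0 < J) (by rw [JR_eq w hζ.le]; exact hJ)
  have e1 : (gw w (ζ * (1 + x)) / ζ - 1) - (gw w (ζ * (1 + y)) / ζ - 1) =
      (gw w (ζ * (1 + x)) - gw w (ζ * (1 + y))) / ζ := by ring
  have e2 : (ζ : ℂ) * (1 + x) - ζ * (1 + y) = (x - y) * ζ := by ring
  rw [e2, norm_mul, hn] at h1
  rw [e1, norm_div, hn, div_le_iff₀ hζ]
  refine h1.trans ?_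
  rw [div_le_iff₀ (by have : 0 < 1 - r := by linarith
                      positivity)]
  have h2 : (100 : ℝ) / 26 ≤ (1 - r) ^ 2 * J ^ 2 := by
    have h3 : (99 / 100 : ℝ) ^ 2 ≤ (1 - r) ^ 2 := pow_le_pow_left₀ (by norm_num) (by linarith) 2
    have h4 : (2 : ℝ) ^ 2 ≤ J ^ 2 := pow_le_pow_left₀ (by norm_num) hJ0 2
    calc (100 : ℝ) / 26 ≤ (99 / 100 : ℝ) ^ 2 * 2 ^ 2 := by norm_num
      _ ≤ _ := mul_le_mul h3 h4 (by norm_num) (by positivity)
  have h3 : 0 ≤ ‖x - y‖ * ζ := by positivity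
  nlinarith

lemma alg1 {u c x : ℂ} (hc : c ≠ 0) (h : u / c - 1 = x) : u = c * (1 + x) := by
  rw [← h]
  field_simp
  ring

lemma alg2 {a b k A D : ℂ} (hD : D ≠ 0) (h : a * (k * A / D - 1) = b) :
    (a + b) * D - k * a * A = 0 := by
  rw [← h]
  field_simp
  ring

lemma dgen {A D X : ℂ × ℂ → ℂ} {p : ℂ × ℂ} {k c : ℂ} (hA : DifferentiableAt ℂ A p)
    (hD : DifferentiableAt ℂ D p) (hX : DifferentiableAt ℂ X p) (h : D p ≠ 0) :
    DifferentiableAt ℂ (fun p => X p * (k * A p / D p - 1) / c - 1) p := by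
  have h1 := ((hX.mul (((hA.const_mul k).mul (hD.inv h)).sub_const 1)).mul_const c⁻¹).sub_const 1
  exact h1

lemma dgen2 {G : ℂ × ℂ → ℂ} {s : Set (ℂ × ℂ)} {p : ℂ × ℂ} {c : ℂ}
    (hG : DifferentiableWithinAt ℂ G s p) :
    DifferentiableWithinAt ℂ (fun p => G p / c - 1) s p := by
  have h1 := (hG.mul_const c⁻¹).sub_const 1
  exact h1

/-- **the critical point** -/
theorem Dat.crit (h : Dat v t K e m w xc zc) : ∃ a b : ℂ,
    ‖a - zc‖ ≤ 1 / 100000 * zc ∧ ‖b - xc‖ ≤ 1 / 100000 * xc ∧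
    nn K (Bm v t K w) a b 0 1 = 0 ∧ nn K (Bm v t K w) a b 1 0 = 0 := by
  have hz1 := h.z1
  have hzp : 0 < zc := by linarith
  have hxp := h.xpos
  have he0 := h.pr.e0
  have hem := h.em
  have hm := h.m1
  have hz0 : (zc : ℂ) ≠ 0 := by exact_mod_cast hzp.ne'
  have hx0 : (xc : ℂ) ≠ 0 := by exact_mod_cast hxp.ne'
  have hzn : ‖(zc : ℂ)‖ = zc := by rw [Complex.norm_real, Real.norm_of_nonneg hzp.le]
  have hxn : ‖(xc : ℂ)‖ = xc := by rw [Complex.norm_real, Real.norm_of_nonneg hxp.le]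
  set B := Bm v t K w with hB
  set X : ℂ × ℂ → ℂ := fun p => xc * (1 + p.1) with hX
  set Z : ℂ × ℂ → ℂ := fun p => zc * (1 + p.2) with hZ
  have hXd : Differentiable ℂ X := by simp only [hX]; fun_prop
  have hZd : Differentiable ℂ Z := by simp only [hZ]; fun_prop
  have hXn : ∀ p : ℂ × ℂ, ‖p‖ ≤ 1 / 80 → ‖X p - xc‖ ≤ xc / 80 := by
    intro p hp
    have e1 : X p - xc = p.1 * xc := by simp only [hX]; ring
    rw [e1, norm_mul, hxn]
    have := (norm_fst_le p).trans hp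
    nlinarith
  have hZn : ∀ p : ℂ × ℂ, ‖p‖ ≤ 1 / 80 → ‖Z p - zc‖ ≤ zc / 80 := by
    intro p hp
    have e1 : Z p - zc = p.2 * zc := by simp only [hZ]; ring
    rw [e1, norm_mul, hzn]
    have := (norm_snd_le p).trans hp
    nlinarith
  have hball : ∀ p ∈ ball (0 : ℂ × ℂ) (2 * (1 / 100000)), ‖p‖ ≤ 1 / 80 := by
    intro p hp
    rw [mem_ball_zero_iff] at hp
    linarith
  have hXre : ∀ p ∈ ball (0 : ℂ × ℂ) (2 * (1 / 100000)), X p ∈ {z : ℂ | 0 < z.re} := by
    intro p hp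
    have := (near_re (hXn p (hball p hp))).1
    change 0 < (X p).re
    linarith
  have hZre : ∀ p ∈ ball (0 : ℂ × ℂ) (2 * (1 / 100000)), Z p ∈ {z : ℂ | 0 < z.re} := by
    intro p hp
    have := (near_re (hZn p (hball p hp))).1
    change 0 < (Z p).re
    linarith
  have hXZ : Differentiable ℂ fun p : ℂ × ℂ => (X p, Z p) := hXd.prodMk hZd
  have hAd : Differentiable ℂ fun p => AA K B (X p) (Z p) := (AA_diff B).comp hXZ
  have hDZd : Differentiable ℂ fun p => DZ K B (X p) (Z p) := (DZ_diff B).comp hXZ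
  have hDXd : Differentiable ℂ fun p => DX K B (X p) (Z p) := (DX_diff B).comp hXZ
  set F1 : ℂ × ℂ → ℂ := fun p =>
    Z p * (K * AA K B (X p) (Z p) / DZ K B (X p) (Z p) - 1) / xc - 1 with hF1
  set F2 : ℂ × ℂ → ℂ := fun p =>
    X p * (K * AA K B (X p) (Z p) / DX K B (X p) (Z p) - 1) / zc - 1 with hF2
  set γ1 : ℂ → ℂ := fun x => gw w.reverse (xc * (1 + x)) / xc - 1 with hγ1
  set γ2 : ℂ → ℂ := fun x => gw w (zc * (1 + x)) / zc - 1 with hγ2
  have hν : 32000 * (e * m ^ 3) ≤ 1 / 10 ^ 6 := by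
    refine (mul_le_mul_of_nonneg_left hem (by norm_num)).trans ?_
    norm_num
  obtain ⟨x, z, k1, k2, k3, k4⟩ := fixed_point (F1 := F1) (F2 := F2) (γ1 := γ1) (γ2 := γ2)
    (r := 1 / 100000) (ν := 1 / 10 ^ 6) (κ := 26 / 100) (by norm_num) (by norm_num) (by norm_num)
    (by
      intro p hp
      have hne := (h.E1 (hXn p (hball p hp)) (hZn p (hball p hp))).1
      have g1 : DifferentiableWithinAt ℂ F1 (ball 0 (2 * (1 / 100000))) p := by
        exact (dgen (hAd p) (hDZd p) (hZd p) hne).differentiableWithinAt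
      have g2 : DifferentiableWithinAt ℂ (fun p : ℂ × ℂ => γ1 p.1)
          (ball 0 (2 * (1 / 100000))) p := by
        have g3 := (gw_diffOn w.reverse).comp (hXd.differentiableOn (s := ball 0 (2 * (1 / 100000))))
          hXre p hp
        exact dgen2 g3
      exact g1.sub g2)
    (by
      intro p hp
      have hne := (h.E2 (hXn p (hball p hp)) (hZn p (hball p hp))).2.1
      have g1 : DifferentiableWithinAt ℂ F2 (ball 0 (2 * (1 / 100000))) p := by
        exact (dgen (hAd p) (hDXd p) (hXd p) hne).differentiableWithinAt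
      have g2 : DifferentiableWithinAt ℂ (fun p : ℂ × ℂ => γ2 p.2)
          (ball 0 (2 * (1 / 100000))) p := by
        have g3 := (gw_diffOn w).comp (hZd.differentiableOn (s := ball 0 (2 * (1 / 100000))))
          hZre p hp
        exact dgen2 g3
      exact g1.sub g2)
    (by
      intro p hp
      have g1 := (h.E1 (hXn p (hball p hp)) (hZn p (hball p hp))).2
      have e1 : F1 p - γ1 p.1 = (Z p * (K * AA K B (X p) (Z p) / DZ K B (X p) (Z p) - 1) -
          gw w.reverse (X p)) / xc := by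
        simp only [hF1, hγ1, hX]
        ring
      rw [e1, norm_div, hxn, div_le_iff₀ hxp]
      exact g1.trans (mul_le_mul_of_nonneg_right hν hxp.le))
    (by
      intro p hp
      have g1 := (h.E2 (hXn p (hball p hp)) (hZn p (hball p hp))).2.2
      have e1 : F2 p - γ2 p.2 = (X p * (K * AA K B (X p) (Z p) / DX K B (X p) (Z p) - 1) -
          gw w (Z p)) / zc := by
        simp only [hF2, hγ2, hZ]
        ring
      rw [e1, norm_div, hzn, div_le_iff₀ hzp]
      exact g1.trans (mul_le_mul_of_nonneg_right hν hzp.le))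
    (fun x y hx hy => contr_norm hxp (by norm_num) le_rfl h.J2 hx hy)
    (fun x y hx hy => contr_norm hzp (by norm_num) (by norm_num) h.J1 hx hy)
    (by
      simp only [hγ1, add_zero, mul_one]
      rw [gw_real, h.fr, div_self hx0, sub_self])
    (by
      simp only [hγ2, add_zero, mul_one]
      rw [gw_real, h.fw, div_self hz0, sub_self])
  have hp : ‖(x, z)‖ ≤ 1 / 80 := by
    rw [Prod.norm_def]
    exact max_le (k1.trans (by norm_num)) (k2.trans (by norm_num))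
  set b : ℂ := xc * (1 + x) with hb
  set a : ℂ := zc * (1 + z) with ha
  have g1 := h.E1 (hXn _ hp) (hZn _ hp)
  have g2 := h.E2 (hXn _ hp) (hZn _ hp)
  change DZ K B b a ≠ 0 ∧ _ at g1
  change AA K B b a ≠ 0 ∧ DX K B b a ≠ 0 ∧ _ at g2
  have hb1 : ‖b - xc‖ ≤ 1 / 100000 * xc := by
    have e1 : b - xc = x * xc := by rw [hb]; ring
    rw [e1, norm_mul, hxn]
    exact mul_le_mul_of_nonneg_right k1 hxp.le
  have ha1 : ‖a - zc‖ ≤ 1 / 100000 * zc := by
    have e1 : a - zc = z * zc := by rw [ha]; ring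
    rw [e1, norm_mul, hzn]
    exact mul_le_mul_of_nonneg_right k2 hzp.le
  have ha0 : a ≠ 0 := by
    intro h0
    have h1 := (near_re ha1).1
    rw [h0, Complex.zero_re] at h1
    linarith
  have hb0 : b ≠ 0 := by
    intro h0
    have h1 := (near_re hb1).1
    rw [h0, Complex.zero_re] at h1
    linarith
  have k3' : a * (K * AA K B b a / DZ K B b a - 1) = b := by
    exact alg1 hx0 k3
  have k4' : b * (K * AA K B b a / DX K B b a - 1) = a := by
    exact alg1 hz0 k4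
  refine ⟨a, b, ha1, hb1, ?_, ?_⟩
  · have h1 := nn_01 (K := K) B a b
    have h2 : (a + b) * DZ K B b a - K * a * AA K B b a = 0 := alg2 g1.1 k3'
    rw [h2] at h1
    exact (mul_eq_zero.1 h1).resolve_left ha0
  · have h1 := nn_10 (K := K) B a b
    have h2 : (a + b) * DX K B b a - K * b * AA K B b a = 0 := by
      rw [add_comm a b]
      exact alg2 g2.2.1 k4'
    rw [h2] at h1
    exact (mul_eq_zero.1 h1).resolve_left hb0

end Pool.Agent.H62.TV
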