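import Pool.Agent.H62.VC.Ev
import Pool.Graph.R_seed8.Y482.CY.Stm

/-!
The `q`-binomial theorem, and the action of `s_2` and `s_1⁻¹` on evaluations, for a general `v` on the
unit circle.
-/

set_option autoImplicit false

namespace Pool.Agent.H62.TV

open Finset
open Pool.Agent.H550R3.Jones (br brf)
open Pool.Agent.Y482.CY (sb Nz)
open Pool.Agent.H62.VC

variable {v : ℂ}

/-- the Gaussian binomial -/
noncomputable def qb (v : ℂ) (d e : ℕ) : ℂ := if e ≤ d then sb v d e else 0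

lemma brf_zero : brf v 0 = 1 := by simp [brf]

lemma brf_succ (n : ℕ) : brf v (n + 1) = brf v n * br v ((n : ℤ) + 1) := by
  unfold brf
  rw [prod_range_succ]

lemma brf_ne {n : ℕ} (h : Nz v n) : brf v n ≠ 0 := by
  unfold brf
  rw [prod_ne_zero_iff]
  intro j hj
  rw [mem_range] at hj
  have := h (j + 1) (by omega) (by omega)
  push_cast at this
  exact this

lemma Nz_mono {m n : ℕ} (h : Nz v n) (hmn : m ≤ n) : Nz v m := fun l h0 hl => h l h0 (by omega)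

lemma qb_zero {d : ℕ} (h : Nz v d) : qb v d 0 = 1 := by
  unfold qb sb
  rw [if_pos (Nat.zero_le _), brf_zero, one_mul, Nat.sub_zero, div_self (brf_ne h)]

lemma qb_gt {d e : ℕ} (h : d < e) : qb v d e = 0 := by
  unfold qb
  rw [if_neg (by omega)]

lemma qb_self {d : ℕ} (h : Nz v d) : qb v d d = 1 := by
  unfold qb sb
  rw [if_pos le_rfl, Nat.sub_self, brf_zero, mul_one, div_self (brf_ne h)]

lemma qb_ne {d e : ℕ} (h : Nz v d) (he : e ≤ d) : qb v d e ≠ 0 := by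
  unfold qb sb
  rw [if_pos he]
  exact div_ne_zero (brf_ne h) (mul_ne_zero (brf_ne (Nz_mono h he)) (brf_ne (Nz_mono h (by omega))))

lemma qb_symm {d e : ℕ} (he : e ≤ d) : qb v d (d - e) = qb v d e := by
  unfold qb sb
  rw [if_pos he, if_pos (Nat.sub_le _ _), Nat.sub_sub_self he, mul_comm]

/-- Pascal's rule -/
lemma pascal (hv : v ≠ 0) {d e : ℕ} (hd : Nz v (d + 1)) (he : e ≤ d) : qb v (d + 1) (e + 1) =
    v ^ (-((e : ℤ) + 1)) * qb v d (e + 1) + v ^ ((d : ℤ) - e) * qb v d e := by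
  rcases Nat.lt_or_ge e d with h | h
  · have hd' := Nz_mono hd (Nat.le_succ d)
    unfold qb sb
    rw [if_pos (by omega), if_pos (by omega), if_pos he]
    obtain ⟨k, rfl⟩ : ∃ k, d = e + 1 + k := ⟨d - (e + 1), by omega⟩
    have e1 : e + 1 + k + 1 - (e + 1) = k + 1 := by omega
    have e2 : e + 1 + k - (e + 1) = k := by omega
    have e3 : e + 1 + k - e = k + 1 := by omega
    rw [e1, e2, e3, brf_succ (e + 1 + k), brf_succ e, brf_succ k]
    have p1 := brf_ne (Nz_mono hd (show e ≤ e + 1 + k + 1 by omega))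
    have p2 := brf_ne (Nz_mono hd (show k ≤ e + 1 + k + 1 by omega))
    have p3 : br v ((e : ℤ) + 1) ≠ 0 := by
      have := hd (e + 1) (by omega) (by omega)
      push_cast at this
      exact this
    have p4 : br v ((k : ℤ) + 1) ≠ 0 := by
      have := hd (k + 1) (by omega) (by omega)
      push_cast at this
      exact this
    have key : br v (((e + 1 + k : ℕ) : ℤ) + 1) = v ^ (-((e : ℤ) + 1)) * br v ((k : ℤ) + 1) +
        v ^ (((e + 1 + k : ℕ) : ℤ) - e) * br v ((e : ℤ) + 1) := by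
      unfold br
      have q1 : v ^ (-((e : ℤ) + 1)) * v ^ ((k : ℤ) + 1) =
          v ^ (((e + 1 + k : ℕ) : ℤ) - e) * v ^ (-((e : ℤ) + 1)) := by
        rw [← zpow_add₀ hv, ← zpow_add₀ hv]; congr 1; push_cast; ring
      have q2 : v ^ (-((e : ℤ) + 1)) * v ^ (-((k : ℤ) + 1)) =
          v ^ (-(((e + 1 + k : ℕ) : ℤ) + 1)) := by
        rw [← zpow_add₀ hv]; congr 1; push_cast; ring
      have q3 : v ^ (((e + 1 + k : ℕ) : ℤ) - e) * v ^ ((e : ℤ) + 1) =
          v ^ (((e + 1 + k : ℕ) : ℤ) + 1) := by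
        rw [← zpow_add₀ hv]; congr 1; push_cast; ring
      linear_combination -q1 + q2 - q3
    rw [key]
    field_simp
  · have : e = d := by omega
    subst this
    rw [qb_self hd, qb_gt (Nat.lt_succ_self e), qb_self (Nz_mono hd (Nat.le_succ e))]
    simp

/-- **the `q`-binomial theorem** -/
lemma qbinom_hom (hv : v ≠ 0) (x : ℂ) : ∀ (d : ℕ), Nz v d → ∀ τ : ℂ,
    ∑ e ∈ range (d + 1), qb v d e * τ ^ e * x ^ (d - e) =
      ∏ r ∈ range d, (x + τ * v ^ (2 * (r : ℤ) + 1 - d)) := by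
  have h0 := hv
  intro d
  induction d with
  | zero => intro h _; simp [qb_zero h]
  | succ d ih =>
    intro hd τ
    have hd' := Nz_mono hd (Nat.le_succ d)
    have ih' := ih hd' (τ * v ^ (-1 : ℤ))
    rw [prod_range_succ]
    have e1 : ∏ r ∈ range d, (x + τ * v ^ (2 * (r : ℤ) + 1 - ((d + 1 : ℕ) : ℤ))) =
        ∏ r ∈ range d, (x + τ * v ^ (-1 : ℤ) * v ^ (2 * (r : ℤ) + 1 - d)) := by
      refine prod_congr rfl fun r _ => ?_
      rw [mul_assoc, ← zpow_add₀ h0]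
      congr 3
      push_cast; ring
    have e2 : v ^ (2 * (d : ℤ) + 1 - ((d + 1 : ℕ) : ℤ)) = v ^ (d : ℤ) := by
      congr 1; push_cast; ring
    rw [e1, ← ih', e2, sum_range_succ']
    have e3 : ∀ e ∈ range (d + 1), qb v (d + 1) (e + 1) * τ ^ (e + 1) * x ^ (d + 1 - (e + 1)) =
        v ^ (-((e : ℤ) + 1)) * qb v d (e + 1) * τ ^ (e + 1) * x ^ (d - e) +
          (qb v d e * (τ * v ^ (-1 : ℤ)) ^ e * x ^ (d - e)) * (τ * v ^ (d : ℤ)) := by
      intro e he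
      rw [mem_range] at he
      have f1 : d + 1 - (e + 1) = d - e := by omega
      have f2 : (τ * v ^ (-1 : ℤ)) ^ e * v ^ (d : ℤ) = τ ^ e * v ^ ((d : ℤ) - e) := by
        rw [mul_pow, mul_assoc, ← zpow_natCast (v ^ (-1 : ℤ)) e, ← zpow_mul, ← zpow_add₀ h0]
        congr 2; ring
      rw [pascal hv hd (by omega), f1]
      linear_combination (-(qb v d e * x ^ (d - e) * τ)) * f2
    have e4 : ∑ e ∈ range (d + 1), v ^ (-((e : ℤ) + 1)) * qb v d (e + 1) * τ ^ (e + 1) *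
        x ^ (d - e) + x ^ (d + 1) =
        (∑ e ∈ range (d + 1), qb v d e * (τ * v ^ (-1 : ℤ)) ^ e * x ^ (d - e)) * x := by
      rw [sum_range_succ, qb_gt (Nat.lt_succ_self d), sum_range_succ' (fun e => qb v d e *
        (τ * v ^ (-1 : ℤ)) ^ e * x ^ (d - e)), qb_zero hd', add_mul, sum_mul]
      have f3 : ∀ e ∈ range d, v ^ (-((e : ℤ) + 1)) * qb v d (e + 1) * τ ^ (e + 1) * x ^ (d - e) =
          qb v d (e + 1) * (τ * v ^ (-1 : ℤ)) ^ (e + 1) * x ^ (d - (e + 1)) * x := by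
        intro e he
        rw [mem_range] at he
        have g1 : (τ * v ^ (-1 : ℤ)) ^ (e + 1) = τ ^ (e + 1) * v ^ (-((e : ℤ) + 1)) := by
          rw [mul_pow, ← zpow_natCast (v ^ (-1 : ℤ)), ← zpow_mul]
          congr 2; push_cast; ring
        have g2 : x ^ (d - e) = x ^ (d - (e + 1)) * x := by
          have : d - e = (d - (e + 1)) + 1 := by omega
          rw [this, pow_succ]
        rw [g1, g2]; ring
      rw [sum_congr rfl f3]
      rw [pow_zero, Nat.sub_zero, pow_succ]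
      ring
    rw [sum_congr rfl e3, sum_add_distrib, ← sum_mul, qb_zero hd, pow_zero, Nat.sub_zero, one_mul,
      one_mul, mul_add, ← e4]
    ring

/-- the operator of `s_2` -/
noncomputable def TP (v : ℂ) (K : ℕ) (y : ℕ → ℂ) (d : ℕ) : ℂ :=
  ∑ e ∈ range (K + 1), v ^ (-((e : ℤ) * (K - d))) * qb v d e * y e

/-- the operator of `s_1⁻¹` -/
noncomputable def TQ (v : ℂ) (K : ℕ) (y : ℕ → ℂ) (d : ℕ) : ℂ :=
  ∑ e ∈ range (K + 1), v ^ ((d : ℤ) * (K - e)) * qb v (K - d) (K - e) * y e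

lemma TP_pow (hv : v ≠ 0) {K : ℕ} (hK : Nz v K) (x : ℂ) {d : ℕ} (hd : d ≤ K) :
    TP v K (fun e => x ^ (K - e)) d =
      x ^ (K - d) * ∏ r ∈ range d, (x + v ^ (1 - (K : ℤ)) * (v ^ 2) ^ r) := by
  have h0 := hv
  unfold TP
  have e0 : K + 1 = (d + 1) + (K - d) := by omega
  rw [e0, sum_range_add]
  have e1 : ∑ e ∈ range (K - d), v ^ (-(((d + 1 + e : ℕ) : ℤ) * (K - d))) *
      qb v d (d + 1 + e) * x ^ (K - (d + 1 + e)) = 0 :=
    sum_eq_zero fun e _ => by rw [qb_gt (by omega)]; ring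
  rw [e1, add_zero]
  have h1 := qbinom_hom hv x d (Nz_mono hK hd) (v ^ (-((K : ℤ) - d)))
  have e2 : ∏ r ∈ range d, (x + v ^ (-((K : ℤ) - d)) * v ^ (2 * (r : ℤ) + 1 - d)) =
      ∏ r ∈ range d, (x + v ^ (1 - (K : ℤ)) * (v ^ 2) ^ r) := by
    refine prod_congr rfl fun r _ => ?_
    have : (v ^ 2) ^ r = v ^ (2 * (r : ℤ)) := by
      rw [← pow_mul, ← zpow_natCast]; push_cast; rfl
    rw [this, ← zpow_add₀ h0, ← zpow_add₀ h0]
    congr 2; ring
  rw [← e2, ← h1, mul_sum]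
  refine sum_congr rfl fun e he => ?_
  rw [mem_range] at he
  have e3 : x ^ (K - e) = x ^ (K - d) * x ^ (d - e) := by
    rw [← pow_add]; congr 1; omega
  have e4 : v ^ (-((e : ℤ) * (K - d))) = (v ^ (-((K : ℤ) - d))) ^ e := by
    rw [← zpow_natCast (v ^ (-((K : ℤ) - d))), ← zpow_mul]; congr 1; ring
  beta_reduce
  rw [e3, e4]; ring

lemma TQ_pow (hv : v ≠ 0) {K : ℕ} (hK : Nz v K) (x : ℂ) {d : ℕ} (hd : d ≤ K) :
    TQ v K (fun e => x ^ (K - e)) d =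
      ∏ r ∈ range (K - d), (1 + v ^ ((K : ℤ) - 1) * x * ((v ^ 2)⁻¹) ^ r) := by
  have h0 := hv
  unfold TQ
  rw [← sum_range_reflect]
  have e0 : K + 1 = (K - d + 1) + d := by omega
  have e0' : ∑ j ∈ range (K + 1), v ^ ((d : ℤ) * (K - ((K + 1 - 1 - j : ℕ) : ℤ))) *
      qb v (K - d) (K - (K + 1 - 1 - j)) * x ^ (K - (K + 1 - 1 - j)) =
      ∑ j ∈ range (K + 1), qb v (K - d) j * (v ^ (d : ℤ) * x) ^ j * 1 ^ (K - d - j) := by
    refine sum_congr rfl fun j hj => ?_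
    rw [mem_range] at hj
    have f1 : K - (K + 1 - 1 - j) = j := by omega
    have f2 : (K : ℤ) - ((K + 1 - 1 - j : ℕ) : ℤ) = j := by omega
    rw [f1, f2, one_pow, mul_one, mul_pow, ← zpow_natCast (v ^ (d : ℤ)), ← zpow_mul]
    ring
  rw [e0', e0, sum_range_add]
  have e1 : ∑ j ∈ range d, qb v (K - d) (K - d + 1 + j) *
      (v ^ (d : ℤ) * x) ^ (K - d + 1 + j) * 1 ^ (K - d - (K - d + 1 + j)) = 0 :=
    sum_eq_zero fun e _ => by rw [qb_gt (by omega)]; ring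
  rw [e1, add_zero, qbinom_hom hv 1 (K - d) (Nz_mono hK (Nat.sub_le _ _)) (v ^ (d : ℤ) * x),
    ← prod_range_reflect]
  refine prod_congr rfl fun r hr => ?_
  rw [mem_range] at hr
  have f3 : ((v ^ 2)⁻¹) ^ r = v ^ (-(2 * (r : ℤ))) := by
    rw [inv_pow, ← pow_mul, ← zpow_natCast, ← _root_.zpow_neg]; push_cast; rfl
  have f4 : v ^ (d : ℤ) * x * v ^ (2 * ((K - d - 1 - r : ℕ) : ℤ) + 1 - ((K - d : ℕ) : ℤ)) =
      v ^ ((K : ℤ) - 1) * x * v ^ (-(2 * (r : ℤ))) := by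
    have g1 : v ^ (d : ℤ) * v ^ (2 * ((K - d - 1 - r : ℕ) : ℤ) + 1 - ((K - d : ℕ) : ℤ)) =
        v ^ ((K : ℤ) - 1) * v ^ (-(2 * (r : ℤ))) := by
      rw [← zpow_add₀ h0, ← zpow_add₀ h0]
      congr 1
      have h1 : ((K - d - 1 - r : ℕ) : ℤ) = (K : ℤ) - d - 1 - r := by omega
      have h2 : ((K - d : ℕ) : ℤ) = (K : ℤ) - d := by omega
      rw [h1, h2]; ring
    linear_combination x * g1
  rw [f3, f4]

/-- `Ev L` after `TP` -/
lemma Ev_TP (K : ℕ) (L : List ℂ) (y : ℕ → ℂ) : Ev L (TP v K y) =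
    ∑ e ∈ range (K + 1), Ev L (fun d => v ^ (-((e : ℤ) * (K - d))) * qb v d e) * y e := by
  unfold TP
  rw [Ev_sum (range (K + 1)) L fun e d => v ^ (-((e : ℤ) * (K - d))) * qb v d e * y e]
  refine sum_congr rfl fun e _ => ?_
  rw [mul_comm, ← Ev_mul]
  congr 1
  funext d; ring

lemma Ev_TQ (K : ℕ) (L : List ℂ) (y : ℕ → ℂ) : Ev L (TQ v K y) =
    ∑ e ∈ range (K + 1), Ev L (fun d => v ^ ((d : ℤ) * (K - e)) * qb v (K - d) (K - e)) * y e := by
  unfold TQ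
  rw [Ev_sum (range (K + 1)) L fun e d => v ^ ((d : ℤ) * (K - e)) * qb v (K - d) (K - e) * y e]
  refine sum_congr rfl fun e _ => ?_
  rw [mul_comm, ← Ev_mul]
  congr 1
  funext d; ring

lemma norm_zpow_one (hv1 : ‖v‖ = 1) (n : ℤ) : ‖v ^ n‖ = 1 := by
  rw [norm_zpow, hv1, _root_.one_zpow]

/-- the transposed action of `s_2` on evaluations -/
theorem stepP (hv1 : ‖v‖ = 1) {K : ℕ} (hK : Nz v K) (L : List ℂ) (hL : L.length = K)
    (hne : ∀ z ∈ L, z ≠ 0 ∧ 1 + z ≠ 0) {ρ η : ℝ} (hρ0 : 0 < ρ) (hρ : ρ ≤ 1 / 2) (hη0 : 0 ≤ η)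
    (hη : ‖v ^ 2 - 1‖ ≤ η) (hKη : K * η ≤ 3 / 25 * ρ ^ 2) :
    ∃ Ω : List ℂ, Ω.length = K ∧
      (∀ y : ℕ → ℂ, Ev L (TP v K y) = (L.map fun z => 1 + z).prod * Ev Ω y) ∧
      ∀ ω ∈ Ω, ∃ z ∈ L, ‖z * v ^ (1 - (K : ℤ)) - (1 + z) * ω‖ <
        (ρ + 2 * K * η) * (‖ω‖ + ‖z‖ * ‖ω‖ + ‖z‖) := by
  have hv : v ≠ 0 := by
    rintro rfl
    simp at hv1
  set b : ℕ → ℂ := fun e => Ev L (fun d => v ^ (-((e : ℤ) * (K - d))) * qb v d e) with hb
  have hb0 : b 0 = (L.map fun z => 1 + z).prod := by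
    rw [← Ev_one]
    simp only [hb]
    refine Ev_congr L fun d hd => ?_
    rw [qb_zero (Nz_mono hK (by omega))]; simp
  have hb0' : b 0 ≠ 0 := by
    rw [hb0]
    intro h
    rw [List.prod_eq_zero_iff, List.mem_map] at h
    obtain ⟨z, hz, hz0⟩ := h
    exact (hne z hz).2 hz0
  obtain ⟨Ω, h1, h2, h3⟩ := factor K b hb0'
  refine ⟨Ω, h1, fun y => ?_, fun ω hω => ?_⟩
  · rw [Ev_TP, ← hb0]; exact h2 y
  · have h4 := h3 ω hω
    have h5 : Ev L (TP v K fun e => (-ω) ^ (K - e)) = 0 := by rw [Ev_TP]; exact h4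
    have h6 : Ev L (TP v K fun e => (-ω) ^ (K - e)) =
        Fl (v ^ 2) (L.map fun z => (-ω, z * -ω, z * v ^ (1 - (K : ℤ)))) := by
      rw [← SP_eq]
      refine Ev_congr L fun d hd => ?_
      rw [TP_pow hv hK _ (by omega), hL]
    rw [h6] at h5
    by_contra hcon
    push Not at hcon
    refine Fl_ne hρ0 hρ hη0 hη _ (by rw [List.length_map, hL]; exact hKη) ?_ h5
    intro a ha
    rw [List.mem_map] at ha
    obtain ⟨z, hz, rfl⟩ := ha
    have h7 := hcon z hz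
    have h8 := (hne z hz).1
    simp only [norm_neg, norm_mul, norm_zpow_one hv1, mul_one, List.length_map, hL]
    refine ⟨?_, ?_⟩
    · have := norm_pos_iff.2 h8
      positivity
    · refine h7.trans (le_of_eq ?_)
      congr 1
      ring

/-- the transposed action of `s_1⁻¹` on evaluations -/
theorem stepQ (hv1 : ‖v‖ = 1) {K : ℕ} (hK : Nz v K) (L : List ℂ) (hL : L.length = K)
    {ρ η : ℝ} (hρ0 : 0 < ρ) (hρ : ρ ≤ 1 / 2) (hη0 : 0 ≤ η)
    (hη : ‖v ^ 2 - 1‖ ≤ η) (hKη : K * η ≤ 3 / 25 * ρ ^ 2) :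
    ∃ Ω : List ℂ, Ω.length = K ∧
      (∀ y : ℕ → ℂ, Ev L (TQ v K y) = Ev Ω y) ∧
      ∀ ω ∈ Ω, ∃ z ∈ L, ‖(1 + z) - v ^ ((K : ℤ) - 1) * ω‖ <
        (ρ + 2 * K * η) * (‖z‖ + 1 + ‖ω‖) := by
  have hv : v ≠ 0 := by
    rintro rfl
    simp at hv1
  set b : ℕ → ℂ := fun e => Ev L (fun d => v ^ ((d : ℤ) * (K - e)) * qb v (K - d) (K - e)) with hb
  have hb0 : b 0 = 1 := by
    simp only [hb]
    rw [← Ev_delta L]
    refine Ev_congr L fun d hd => ?_
    rw [hL] at hd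
    split_ifs with h
    · subst h
      simp only [Nat.sub_zero]
      rw [qb_self hK]; simp
    · rw [qb_gt (by omega)]; simp
  obtain ⟨Ω, h1, h2, h3⟩ := factor K b (by rw [hb0]; exact one_ne_zero)
  refine ⟨Ω, h1, fun y => ?_, fun ω hω => ?_⟩
  · rw [Ev_TQ]
    have := h2 y
    rw [hb0, one_mul] at this
    exact this
  · have h4 := h3 ω hω
    have h5 : Ev L (TQ v K fun e => (-ω) ^ (K - e)) = 0 := by rw [Ev_TQ]; exact h4
    have h6 : Ev L (TQ v K fun e => (-ω) ^ (K - e)) =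
        Fl ((v ^ 2)⁻¹) (L.map fun z => (z, 1, v ^ ((K : ℤ) - 1) * -ω)) := by
      rw [← SQ_eq]
      refine Ev_congr L fun d hd => ?_
      rw [TQ_pow hv hK _ (by omega), hL]
    rw [h6] at h5
    have hη' : ‖(v ^ 2)⁻¹ - 1‖ ≤ η := by
      have e1 : (v ^ 2)⁻¹ - 1 = -((v ^ 2)⁻¹ * (v ^ 2 - 1)) := by
        field_simp
        ring
      rw [e1, norm_neg, norm_mul, norm_inv, norm_pow, hv1, one_pow, inv_one, one_mul]
      exact hη
    by_contra hcon
    push Not at hcon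
    refine Fl_ne hρ0 hρ hη0 hη' _ (by rw [List.length_map, hL]; exact hKη) ?_ h5
    intro a ha
    rw [List.mem_map] at ha
    obtain ⟨z, hz, rfl⟩ := ha
    have h7 := hcon z hz
    simp only [norm_neg, norm_mul, norm_zpow_one hv1, one_mul, List.length_map, hL, norm_one]
    refine ⟨by positivity, ?_⟩
    refine h7.trans (le_of_eq ?_)
    congr 1
    ring

end Pool.Agent.H62.TV
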