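import Pool.Agent.H62.TV.Cauchy

/-!
The trace of a matrix near a critical point.
-/

set_option autoImplicit false

namespace Pool.Agent.H62.TV

open Finset
open Pool.Agent.H62.VC (Ev Ev_cons Ev_congr Ev_mul Ev_eq Ev_prod ec ec_zero factor)

variable {K : ℕ}

/-- the value at a repeated point -/
lemma Ev_replicate (z : ℂ) : ∀ (n : ℕ) (y : ℕ → ℂ), Ev (List.replicate n z) y =
    ∑ d ∈ range (n + 1), (n.choose d : ℂ) * z ^ d * y d := by
  intro n
  induction n with
  | zero => intro y; simp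
  | succ n ih =>
    intro y
    rw [List.replicate_succ, Ev_cons, ih, ih, sum_range_succ' _ (n + 1), mul_sum]
    have h1 : ∀ d ∈ range (n + 1), ((n + 1).choose (d + 1) : ℂ) * z ^ (d + 1) * y (d + 1) =
        (n.choose (d + 1) : ℂ) * z ^ (d + 1) * y (d + 1) +
          z * ((n.choose d : ℂ) * z ^ d * y (d + 1)) := by
      intro d _
      rw [Nat.choose_succ_succ]
      push_cast
      ring
    rw [sum_congr rfl h1, sum_add_distrib]
    have h2 : ∑ d ∈ range (n + 1), (n.choose d : ℂ) * z ^ d * y d =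
        ∑ d ∈ range (n + 1), (n.choose (d + 1) : ℂ) * z ^ (d + 1) * y (d + 1) + y 0 := by
      rw [sum_range_succ', sum_range_succ (fun d => (n.choose (d + 1) : ℂ) * z ^ (d + 1) * y (d + 1)),
        Nat.choose_succ_self]
      simp
    rw [h2]
    simp
    ring

/-- the coefficients of `(a + b s)^d (1 - s)^(K - d)` -/
noncomputable def al (K : ℕ) (a b : ℂ) (j d : ℕ) : ℂ :=
  ((Polynomial.C a + Polynomial.C b * Polynomial.X) ^ d *
    (Polynomial.C 1 - Polynomial.C 1 * Polynomial.X) ^ (K - d)).coeff j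

lemma al_sum (a b s : ℂ) {d : ℕ} (hd : d ≤ K) :
    ∑ j ∈ range (K + 1), al K a b j d * s ^ j = (a + b * s) ^ d * (1 - s) ^ (K - d) := by
  have h1 : ((Polynomial.C a + Polynomial.C b * Polynomial.X) ^ d *
    (Polynomial.C 1 - Polynomial.C 1 * Polynomial.X) ^ (K - d) : Polynomial ℂ).natDegree < K + 1 := by
    have h2 : (Polynomial.C a + Polynomial.C b * Polynomial.X : Polynomial ℂ).natDegree ≤ 1 := by
      rw [add_comm]; exact Polynomial.natDegree_linear_le
    have h3 : (Polynomial.C 1 - Polynomial.C 1 * Polynomial.X : Polynomial ℂ).natDegree ≤ 1 := by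
      have : (Polynomial.C 1 - Polynomial.C 1 * Polynomial.X : Polynomial ℂ) =
        Polynomial.C (-1) * Polynomial.X + Polynomial.C 1 := by
        simp; ring
      rw [this]; exact Polynomial.natDegree_linear_le
    have h4 := Polynomial.natDegree_mul_le (p := (Polynomial.C a + Polynomial.C b * Polynomial.X) ^ d)
      (q := (Polynomial.C 1 - Polynomial.C 1 * Polynomial.X : Polynomial ℂ) ^ (K - d))
    have h5 := Polynomial.natDegree_pow_le (p := (Polynomial.C a + Polynomial.C b * Polynomial.X)) (n := d)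
    have h6 := Polynomial.natDegree_pow_le
      (p := (Polynomial.C 1 - Polynomial.C 1 * Polynomial.X : Polynomial ℂ)) (n := K - d)
    have h7 : d * (Polynomial.C a + Polynomial.C b * Polynomial.X : Polynomial ℂ).natDegree ≤ d * 1 :=
      Nat.mul_le_mul_left _ h2
    have h8 : (K - d) * (Polynomial.C 1 - Polynomial.C 1 * Polynomial.X : Polynomial ℂ).natDegree ≤
      (K - d) * 1 := Nat.mul_le_mul_left _ h3
    omega
  have h2 := Polynomial.eval_eq_sum_range' h1 s
  simp only [Polynomial.eval_mul, Polynomial.eval_pow, Polynomial.eval_add, Polynomial.eval_sub,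
    Polynomial.eval_C, Polynomial.eval_X] at h2
  rw [one_mul] at h2
  rw [h2]
  rfl

/-- duality of the two bases -/
lemma al_dual (a b : ℂ) {i j : ℕ} (hi : i ≤ K) (hj : j ≤ K) :
    ∑ d ∈ range (K + 1), (K.choose d : ℂ) * al K a b j d * al K b a i (K - d) =
      if i = j then (a + b) ^ K * (-1) ^ i * (K.choose i : ℂ) else 0 := by
  -- as polynomials in `u`, for fixed `s`
  have h1 : ∀ s u : ℂ, ∑ i ∈ range (K + 1), (∑ j ∈ range (K + 1),
      (∑ d ∈ range (K + 1), (K.choose d : ℂ) * al K a b j d * al K b a i (K - d)) * s ^ j) * u ^ i =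
      ∑ i ∈ range (K + 1), ((a + b) ^ K * (-1) ^ i * (K.choose i : ℂ) * s ^ i) * u ^ i := by
    intro s u
    have e1 : ∑ i ∈ range (K + 1), (∑ j ∈ range (K + 1),
      (∑ d ∈ range (K + 1), (K.choose d : ℂ) * al K a b j d * al K b a i (K - d)) * s ^ j) * u ^ i =
      ∑ d ∈ range (K + 1), (K.choose d : ℂ) * (∑ j ∈ range (K + 1), al K a b j d * s ^ j) *
        (∑ i ∈ range (K + 1), al K b a i (K - d) * u ^ i) := by
      simp only [sum_mul, mul_sum]
      rw [sum_comm]
      have e2 : ∀ j ∈ range (K + 1), ∑ i ∈ range (K + 1), ∑ d ∈ range (K + 1),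
          (K.choose d : ℂ) * al K a b j d * al K b a i (K - d) * s ^ j * u ^ i =
          ∑ d ∈ range (K + 1), ∑ i ∈ range (K + 1),
          (K.choose d : ℂ) * al K a b j d * al K b a i (K - d) * s ^ j * u ^ i := by
        intro j _
        rw [sum_comm]
      rw [sum_congr rfl e2, sum_comm]
      refine sum_congr rfl fun d _ => ?_
      rw [sum_comm]
      refine sum_congr rfl fun i _ => sum_congr rfl fun j _ => ?_
      ring
    rw [e1]
    have e3 : ∀ d ∈ range (K + 1), (K.choose d : ℂ) * (∑ j ∈ range (K + 1), al K a b j d * s ^ j) *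
        (∑ i ∈ range (K + 1), al K b a i (K - d) * u ^ i) =
        ((a + b * s) * (1 - u)) ^ d * ((1 - s) * (b + a * u)) ^ (K - d) * (K.choose d : ℂ) := by
      intro d hd
      rw [mem_range] at hd
      rw [al_sum a b s (by omega), al_sum b a u (Nat.sub_le K d)]
      have : K - (K - d) = d := by omega
      rw [this, mul_pow, mul_pow]
      ring
    rw [sum_congr rfl e3, ← add_pow]
    have e4 : (a + b * s) * (1 - u) + (1 - s) * (b + a * u) = (a + b) * (1 + -(u * s)) := by ring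
    rw [e4, mul_pow, add_comm (1 : ℂ), add_pow (-(u * s)) 1 K, mul_sum]
    refine sum_congr rfl fun i _ => ?_
    rw [one_pow, mul_one, neg_pow, mul_pow]
    ring
  have h2 : ∀ s : ℂ, ∑ j ∈ range (K + 1),
      (∑ d ∈ range (K + 1), (K.choose d : ℂ) * al K a b j d * al K b a i (K - d)) * s ^ j =
      ∑ j ∈ range (K + 1), (if i = j then (a + b) ^ K * (-1) ^ i * (K.choose i : ℂ) else 0) *
        s ^ j := by
    intro s
    have := coef1 (h1 s) i hi
    rw [this, sum_eq_single i]
    · rw [if_pos rfl]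
    · intro j _ hji
      rw [if_neg (Ne.symm hji), zero_mul]
    · intro hh
      exact absurd (mem_range.2 (by omega)) hh
  exact coef1 h2 j hj

/-- the coefficients of the matrix in the two bases -/
noncomputable def nn (K : ℕ) (B : ℕ → ℕ → ℂ) (a b : ℂ) (i j : ℕ) : ℂ :=
  ∑ d ∈ range (K + 1), ∑ e ∈ range (K + 1),
    (K.choose d : ℂ) * al K a b j d * B d e * al K b a i (K - e)

/-- **the trace** -/
theorem tr_nn (B : ℕ → ℕ → ℂ) {a b : ℂ} (hab : a + b ≠ 0) :
    ∑ d ∈ range (K + 1), B d d =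
      ∑ i ∈ range (K + 1), nn K B a b i i / ((a + b) ^ K * (-1) ^ i * (K.choose i : ℂ)) := by
  classical
  set A : Matrix (Fin (K + 1)) (Fin (K + 1)) ℂ := Matrix.of fun j d =>
    (K.choose d : ℂ) * al K a b j d / ((a + b) ^ K * (-1) ^ (j : ℕ) * (K.choose j : ℂ)) with hA
  set T : Matrix (Fin (K + 1)) (Fin (K + 1)) ℂ := Matrix.of fun d i => al K b a i (K - d) with hT
  set M : Matrix (Fin (K + 1)) (Fin (K + 1)) ℂ := Matrix.of fun d e => B d e with hM
  have hne : ∀ j : Fin (K + 1), (a + b) ^ K * (-1) ^ (j : ℕ) * (K.choose j : ℂ) ≠ 0 := by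
    intro j
    refine mul_ne_zero (mul_ne_zero (pow_ne_zero _ hab) (pow_ne_zero _ (by norm_num))) ?_
    have := Nat.choose_pos (show (j : ℕ) ≤ K by omega)
    exact_mod_cast this.ne'
  have h1 : A * T = 1 := by
    ext j i
    rw [Matrix.mul_apply, Matrix.one_apply]
    simp only [hA, hT, Matrix.of_apply]
    have e1 : ∀ d : Fin (K + 1), (K.choose d : ℂ) * al K a b j d /
        ((a + b) ^ K * (-1) ^ (j : ℕ) * (K.choose j : ℂ)) * al K b a i (K - d) =
        (K.choose d : ℂ) * al K a b j d * al K b a i (K - d) /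
          ((a + b) ^ K * (-1) ^ (j : ℕ) * (K.choose j : ℂ)) := fun d => by ring
    rw [Fintype.sum_congr _ _ e1, ← sum_div, Fin.sum_univ_eq_sum_range
      (fun d => (K.choose d : ℂ) * al K a b j d * al K b a i (K - d)),
      al_dual a b (by omega) (by omega)]
    by_cases hij : i = j
    · subst hij
      rw [if_pos rfl, if_pos rfl, div_self (hne i)]
    · rw [if_neg (fun h => hij (Fin.ext h)), if_neg (fun h => hij h.symm), zero_div]
  have h2 : T * A = 1 := mul_eq_one_comm.1 h1
  have h3 : M.trace = (A * M * T).trace := by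
    rw [Matrix.trace_mul_cycle, h2, one_mul]
  have h4 : M.trace = ∑ d ∈ range (K + 1), B d d := by
    rw [Matrix.trace]
    simp only [hM, Matrix.diag_apply, Matrix.of_apply]
    rw [Fin.sum_univ_eq_sum_range fun d => B d d]
  rw [← h4, h3, Matrix.trace]
  simp only [Matrix.diag_apply]
  rw [← Fin.sum_univ_eq_sum_range fun i =>
    nn K B a b i i / ((a + b) ^ K * (-1) ^ i * (K.choose i : ℂ))]
  refine Fintype.sum_congr _ _ fun i => ?_
  rw [Matrix.mul_apply]
  simp only [Matrix.mul_apply, hA, hT, hM, Matrix.of_apply]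
  unfold nn
  rw [sum_comm, sum_div, ← Fin.sum_univ_eq_sum_range fun e => (∑ d ∈ range (K + 1),
    (K.choose d : ℂ) * al K a b i d * B d e * al K b a i (K - e)) /
      ((a + b) ^ K * (-1) ^ (i : ℕ) * (K.choose i : ℂ))]
  refine Fintype.sum_congr _ _ fun e => ?_
  rw [sum_div, ← Fin.sum_univ_eq_sum_range fun d =>
    (K.choose d : ℂ) * al K a b i d * B d e * al K b a i (K - e) /
      ((a + b) ^ K * (-1) ^ (i : ℕ) * (K.choose i : ℂ)), sum_mul]
  refine Fintype.sum_congr _ _ fun d => ?_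
  ring

/-- the matrix applied to a vector -/
noncomputable def mulv (K : ℕ) (B : ℕ → ℕ → ℂ) (y : ℕ → ℂ) (d : ℕ) : ℂ :=
  ∑ e ∈ range (K + 1), B d e * y e

/-- the generating function -/
lemma nn_gen (B : ℕ → ℕ → ℂ) (a b s u : ℂ) :
    ∑ i ∈ range (K + 1), (∑ j ∈ range (K + 1), nn K B a b i j * s ^ j) * u ^ i =
      ∑ d ∈ range (K + 1), (K.choose d : ℂ) * ((a + b * s) ^ d * (1 - s) ^ (K - d)) *
        mulv K B (fun e => (b + a * u) ^ (K - e) * (1 - u) ^ e) d := by
  have e1 : ∀ d ∈ range (K + 1), (K.choose d : ℂ) * ((a + b * s) ^ d * (1 - s) ^ (K - d)) *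
        mulv K B (fun e => (b + a * u) ^ (K - e) * (1 - u) ^ e) d =
      ∑ e ∈ range (K + 1), ∑ i ∈ range (K + 1), ∑ j ∈ range (K + 1),
        ((K.choose d : ℂ) * al K a b j d * B d e * al K b a i (K - e)) * s ^ j * u ^ i := by
    intro d hd
    rw [mem_range] at hd
    unfold mulv
    rw [mul_sum]
    refine sum_congr rfl fun e he => ?_
    rw [mem_range] at he
    have h1 := al_sum a b s (show d ≤ K by omega)
    have h2 := al_sum b a u (Nat.sub_le K e)
    have h3 : K - (K - e) = e := by omega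
    rw [h3] at h2
    beta_reduce
    rw [← h1, ← h2, mul_sum, mul_sum, mul_sum]
    refine sum_congr rfl fun i _ => ?_
    rw [sum_mul]
    refine sum_congr rfl fun j _ => ?_
    ring
  rw [sum_congr rfl e1]
  unfold nn
  simp only [sum_mul]
  have e2 : ∀ i ∈ range (K + 1), ∑ j ∈ range (K + 1), ∑ d ∈ range (K + 1), ∑ e ∈ range (K + 1),
      (K.choose d : ℂ) * al K a b j d * B d e * al K b a i (K - e) * s ^ j * u ^ i =
      ∑ d ∈ range (K + 1), ∑ e ∈ range (K + 1), ∑ j ∈ range (K + 1),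
      (K.choose d : ℂ) * al K a b j d * B d e * al K b a i (K - e) * s ^ j * u ^ i := by
    intro i _
    rw [sum_comm]
    refine sum_congr rfl fun d _ => ?_
    rw [sum_comm]
  rw [sum_congr rfl e2, sum_comm]
  refine sum_congr rfl fun d _ => ?_
  rw [sum_comm]

lemma norm_sum_list_le {θ : ℝ} (V : List ℂ) (h2 : ∀ w ∈ V, ‖w‖ ≤ θ) : ‖V.sum‖ ≤ V.length * θ := by
  induction V with
  | nil => simp
  | cons w V ih =>
    rw [List.sum_cons, List.length_cons]
    refine (norm_add_le _ _).trans ?_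
    have h3 := ih fun w' h => h2 w' (List.mem_cons_of_mem _ h)
    have h4 := h2 w List.mem_cons_self
    push_cast
    linarith

/-- **the trace near a critical point** -/
theorem trace_ge (hK : 1000000 ≤ K) (B : ℕ → ℕ → ℂ) {a b : ℂ} (hab : a + b ≠ 0) {ρ θ : ℝ}
    (hρ : 0 < ρ) (hρ1 : ρ ≤ 1 / 2) (hθ0 : 0 < θ) (hθ : θ / ρ ≤ 4 / 25)
    (h : ∀ s : ℂ, ‖s‖ < ρ → ∃ (c : ℂ) (Ω : List ℂ), c ≠ 0 ∧ Ω.length = K ∧
      (∀ y : ℕ → ℂ, Ev (List.replicate K ((a + b * s) / (1 - s))) (mulv K B y) = c * Ev Ω y) ∧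
      ∀ ω ∈ Ω, ‖ω - a‖ ≤ θ * ‖ω + b‖)
    (h10 : nn K B a b 1 0 = 0) (h01 : nn K B a b 0 1 = 0) :
    (1 / 10) * (‖nn K B a b 0 0‖ / ‖a + b‖ ^ K) ≤ ‖∑ d ∈ range (K + 1), B d d‖ := by
  have hK1 : 1 ≤ K := by omega
  have hKR : (1000000 : ℝ) ≤ K := by exact_mod_cast hK
  have hK0 : (0 : ℝ) < K := by linarith
  have hθ1 : θ < 1 := by
    rw [div_le_iff₀ hρ] at hθ
    linarith
  -- the generating function in a disc
  have key : ∀ s : ℂ, ‖s‖ < ρ → ∃ V : List ℂ, V.length = K ∧ (∀ w ∈ V, ‖w‖ ≤ θ) ∧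
      (∑ j ∈ range (K + 1), nn K B a b 0 j * s ^ j) ≠ 0 ∧
      ∀ u : ℂ, ∑ i ∈ range (K + 1), (∑ j ∈ range (K + 1), nn K B a b i j * s ^ j) * u ^ i =
        (∑ j ∈ range (K + 1), nn K B a b 0 j * s ^ j) * (V.map fun w => 1 + u * w).prod := by
    intro s hs
    obtain ⟨c, Ω, hc, hΩ, h1, h2⟩ := h s hs
    have hs1 : 1 - s ≠ 0 := by
      intro h3
      have : s = 1 := by linear_combination -h3
      rw [this, norm_one] at hs
      linarith
    have hne : ∀ ω ∈ Ω, ω + b ≠ 0 := by
      intro ω hω h3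
      have h4 := h2 ω hω
      rw [h3, norm_zero, mul_zero] at h4
      have h5 : ω - a = 0 := norm_le_zero_iff.1 h4
      apply hab
      linear_combination h3 - h5
    have gen : ∀ u : ℂ, ∑ i ∈ range (K + 1), (∑ j ∈ range (K + 1), nn K B a b i j * s ^ j) * u ^ i =
        (1 - s) ^ K * c * (Ω.map fun ω => (b + a * u) + (1 - u) * ω).prod := by
      intro u
      rw [nn_gen]
      have e1 : ∑ d ∈ range (K + 1), (K.choose d : ℂ) * ((a + b * s) ^ d * (1 - s) ^ (K - d)) *
          mulv K B (fun e => (b + a * u) ^ (K - e) * (1 - u) ^ e) d =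
          (1 - s) ^ K * Ev (List.replicate K ((a + b * s) / (1 - s)))
            (mulv K B (fun e => (b + a * u) ^ (K - e) * (1 - u) ^ e)) := by
        rw [Ev_replicate, mul_sum]
        refine sum_congr rfl fun d hd => ?_
        rw [mem_range] at hd
        have e2 : (1 - s) ^ K = (1 - s) ^ (K - d) * (1 - s) ^ d := by
          rw [← pow_add]; congr 1; omega
        have e3 : (1 - s) ^ d ≠ 0 := pow_ne_zero _ hs1
        rw [e2, div_pow]
        field_simp
      rw [e1, h1]
      have e4 := Ev_hom (b + a * u) (1 - u) Ω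
      rw [hΩ] at e4
      rw [e4]; ring
    have g0 : ∑ j ∈ range (K + 1), nn K B a b 0 j * s ^ j =
        (1 - s) ^ K * c * (Ω.map fun ω => b + ω).prod := by
      have := gen 0
      rw [sum_range_succ'] at this
      simpa using this
    have g1 : (Ω.map fun ω => b + ω).prod ≠ 0 := by
      intro h3
      rw [List.prod_eq_zero_iff, List.mem_map] at h3
      obtain ⟨ω, hω, h4⟩ := h3
      exact hne ω hω (by rw [add_comm]; exact h4)
    refine ⟨Ω.map fun ω => -((ω - a) / (ω + b)), by rw [List.length_map, hΩ], ?_, ?_, ?_⟩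
    · intro w hw
      rw [List.mem_map] at hw
      obtain ⟨ω, hω, rfl⟩ := hw
      rw [norm_neg, norm_div, div_le_iff₀ (norm_pos_iff.2 (hne ω hω))]
      exact h2 ω hω
    · rw [g0]
      exact mul_ne_zero (mul_ne_zero (pow_ne_zero _ hs1) hc) g1
    · intro u
      rw [gen, g0, mul_assoc _ (Ω.map fun ω => b + ω).prod]
      congr 1
      clear h1 gen g0 g1 h2 hΩ
      induction Ω with
      | nil => simp
      | cons ω Ω ih =>
        have h3 := ih fun ω' h => hne ω' (List.mem_cons_of_mem _ h)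
        have h4 := hne ω List.mem_cons_self
        rw [List.map_cons, List.prod_cons, List.map_cons, List.prod_cons, List.map_cons,
          List.map_cons, List.prod_cons, h3]
        have h5 : b + a * u + (1 - u) * ω = (b + ω) * (1 + u * -((ω - a) / (ω + b))) := by
          have h6 : ω + b ≠ 0 := h4
          rw [add_comm b ω]
          field_simp
          ring
        rw [h5]; ring
  set f : ℂ → ℂ := fun s => ∑ j ∈ range (K + 1), nn K B a b 0 j * s ^ j with hf
  set g : ℂ → ℂ := fun s => ∑ j ∈ range (K + 1), nn K B a b 1 j * s ^ j with hg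
  have hf0 : f 0 = nn K B a b 0 0 := by
    simp only [hf]
    rw [sum_range_succ']
    simp
  have hg0 : g 0 = 0 := by
    simp only [hg]
    rw [sum_range_succ']
    simp [h10]
  have hn0 : nn K B a b 0 0 ≠ 0 := by
    obtain ⟨V, _, _, h3, _⟩ := key 0 (by rw [norm_zero]; exact hρ)
    rw [← hf0]; exact h3
  have hn0' : 0 < ‖nn K B a b 0 0‖ := norm_pos_iff.2 hn0
  have hfne : ∀ s : ℂ, ‖s‖ < ρ → f s ≠ 0 := fun s hs => by
    obtain ⟨V, _, _, h3, _⟩ := key s hs
    exact h3
  have hfle : ∀ s : ℂ, ‖f s‖ ≤ ‖nn K B a b 0 0‖ * Real.exp (K * ((‖s‖ / ρ) ^ 2 / 2)) :=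
    fun s => zero_free_le (c := fun j => nn K B a b 0 j) hn0 hρ hfne (fun _ => h01) s
  have hfd : Differentiable ℂ f := by
    simp only [hf]; fun_prop
  have hgd : Differentiable ℂ g := by
    simp only [hg]; fun_prop
  -- the sum of the factors
  have hsum : ∀ s : ℂ, ‖s‖ < ρ → ∃ V : List ℂ, V.length = K ∧ (∀ w ∈ V, ‖w‖ ≤ θ) ∧
      V.sum = g s / f s ∧ ∀ u : ℂ, ∑ i ∈ range (K + 1),
        (∑ j ∈ range (K + 1), nn K B a b i j * s ^ j) * u ^ i =
        f s * (V.map fun w => 1 + u * w).prod := by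
    intro s hs
    obtain ⟨V, h1, h2, h3, h4⟩ := key s hs
    refine ⟨V, h1, h2, ?_, h4⟩
    have h5 : ∀ u : ℂ, ∑ i ∈ range (K + 1), (∑ j ∈ range (K + 1), nn K B a b i j * s ^ j) * u ^ i =
        ∑ i ∈ range (K + 1), (f s * ec V i) * u ^ i := by
      intro u
      rw [h4, Ev_sum_ec V h1, mul_sum]
      refine sum_congr rfl fun i _ => by simp only [hf]; ring
    have h6 := coef1 h5 1 hK1
    rw [ec_one] at h6
    rw [eq_div_iff h3]
    simp only [hg]
    rw [h6]; ring
  have hV : ∀ s : ℂ, ‖s‖ < ρ → ‖g s / f s‖ ≤ K * θ / ρ * ‖s‖ := by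
    intro s hs
    have hb : ∀ s : ℂ, ‖s‖ < ρ → ‖g s / f s‖ ≤ K * θ := by
      intro s hs
      obtain ⟨V, h1, h2, h3, _⟩ := hsum s hs
      rw [← h3, ← h1]
      exact norm_sum_list_le V h2
    have hd : DifferentiableOn ℂ (fun s => g s / f s) (Metric.ball 0 ρ) := by
      intro s hs
      rw [mem_ball_zero_iff] at hs
      exact (hgd s).differentiableWithinAt.div (hfd s).differentiableWithinAt (hfne s hs)
    have hmaps : Set.MapsTo (fun s => g s / f s) (Metric.ball 0 ρ)
        (Metric.closedBall ((fun s => g s / f s) 0) (K * θ)) := by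
      intro s hs
      rw [mem_ball_zero_iff] at hs
      rw [mem_closedBall_iff_norm]
      simp only [hg0, zero_div, sub_zero]
      exact hb s hs
    have h1 := Complex.dist_le_div_mul_dist_of_mapsTo_ball hd hmaps
      (mem_ball_zero_iff.2 hs)
    rw [dist_eq_norm, dist_eq_norm] at h1
    simpa [hg0] using h1
  -- the coefficients
  have hcoef : ∀ i ∈ Icc 2 K, ‖nn K B a b i i‖ ≤
      ‖nn K B a b 0 0‖ * (2 * Real.exp 1 * (θ / ρ) * (K / i)) ^ i := by
    intro i hi
    rw [mem_Icc] at hi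
    have hiR : (0 : ℝ) < i := by exact_mod_cast (by omega : 0 < i)
    have hiK : (i : ℝ) ≤ K := by exact_mod_cast hi.2
    set q : ℝ := Real.sqrt (i / (2 * K)) with hq
    have hq2 : q ^ 2 = i / (2 * K) := Real.sq_sqrt (by positivity)
    have hq0 : 0 < q := Real.sqrt_pos.2 (by positivity)
    have hq1 : q < 1 := by
      have h3 : q ^ 2 ≤ 1 / 2 := by
        rw [hq2, div_le_div_iff₀ (by positivity) (by norm_num)]; linarith
      nlinarith
    have hR1 : 0 < q * ρ := by positivity
    have hR2 : 0 < q / θ := by positivity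
    have h3 : ∀ s : ℂ, ‖s‖ = q * ρ → ‖∑ j ∈ range (K + 1), nn K B a b i j * s ^ j‖ ≤
        ‖nn K B a b 0 0‖ * Real.exp i / (q / θ) ^ i := by
      intro s hs
      have hs' : ‖s‖ < ρ := by rw [hs]; nlinarith
      obtain ⟨V, g1, g2, g3, g4⟩ := hsum s hs'
      have h4 : ∀ u : ℂ, ‖u‖ = q / θ → ‖∑ i ∈ range (K + 1),
          (∑ j ∈ range (K + 1), nn K B a b i j * s ^ j) * u ^ i‖ ≤
          ‖nn K B a b 0 0‖ * Real.exp i := by
        intro u hu
        rw [g4, norm_mul]
        have h5 := hfle s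
        have h6 := prod_one_add_le V g2 u
        rw [g1, g3] at h6
        have h7 : (u * (g s / f s)).re ≤ K * q ^ 2 := by
          refine (Complex.re_le_norm _).trans ?_
          rw [norm_mul, hu]
          have := hV s hs'
          rw [hs] at this
          refine (mul_le_mul_of_nonneg_left this hR2.le).trans (le_of_eq ?_)
          field_simp
        calc ‖f s‖ * ‖(V.map fun w => 1 + u * w).prod‖
            ≤ (‖nn K B a b 0 0‖ * Real.exp (K * ((‖s‖ / ρ) ^ 2 / 2))) *
              Real.exp ((u * (g s / f s)).re + K * ((‖u‖ * θ) ^ 2 / 2)) :=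
              mul_le_mul h5 h6 (norm_nonneg _) (by positivity)
          _ = ‖nn K B a b 0 0‖ * Real.exp (K * ((‖s‖ / ρ) ^ 2 / 2) +
              ((u * (g s / f s)).re + K * ((‖u‖ * θ) ^ 2 / 2))) := by
              rw [mul_assoc, ← Real.exp_add]
          _ ≤ ‖nn K B a b 0 0‖ * Real.exp i := by
              refine mul_le_mul_of_nonneg_left (Real.exp_le_exp.2 ?_) (norm_nonneg _)
              rw [hs, hu, mul_div_cancel_right₀ _ hρ.ne', div_mul_cancel₀ _ hθ0.ne']
              have h8 : (K : ℝ) * q ^ 2 = i / 2 := by rw [hq2]; field_simp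
              nlinarith
      have h9 := cauchy1 (c := fun i => ∑ j ∈ range (K + 1), nn K B a b i j * s ^ j) hR2 h4 i hi.2
      rw [le_div_iff₀ (by positivity)]
      exact h9
    have h4 := cauchy1 (c := fun j => nn K B a b i j) hR1 h3 i hi.2
    beta_reduce at h4
    rw [← le_div_iff₀ (by positivity), div_div, ← mul_pow] at h4
    refine h4.trans (le_of_eq ?_)
    have h5 : q / θ * (q * ρ) = (i / (2 * K)) / (θ / ρ) := by
      rw [← hq2]; field_simp
    have h6 : Real.exp (i : ℝ) = Real.exp 1 ^ i := by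
      rw [← Real.exp_nat_mul, mul_one]
    rw [h5, h6, mul_div_assoc, ← div_pow]
    congr 2
    field_simp
  have hcoef1 : ‖nn K B a b 1 1‖ ≤
      ‖nn K B a b 0 0‖ * (K * ((θ / ρ) * Real.exp (1 / (2 * K)))) := by
    set q : ℝ := 1 / K with hq
    have hq0 : 0 < q := by positivity
    have hq1 : q < 1 := by
      rw [hq, div_lt_one hK0]; linarith
    have hR1 : 0 < q * ρ := by positivity
    have h3 : ∀ s : ℂ, ‖s‖ = q * ρ → ‖∑ j ∈ range (K + 1), nn K B a b 1 j * s ^ j‖ ≤
        ‖nn K B a b 0 0‖ * Real.exp (1 / (2 * K)) * (K * θ * q) := by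
      intro s hs
      have hs' : ‖s‖ < ρ := by rw [hs]; nlinarith
      have e1 : ∑ j ∈ range (K + 1), nn K B a b 1 j * s ^ j = f s * (g s / f s) := by
        rw [mul_div_cancel₀ _ (hfne s hs')]
      rw [e1, norm_mul]
      have h5 := hfle s
      have h6 := hV s hs'
      rw [hs, mul_div_cancel_right₀ _ hρ.ne'] at h5
      rw [hs] at h6
      have e2 : (K : ℝ) * (q ^ 2 / 2) = 1 / (2 * K) := by rw [hq]; field_simp
      rw [e2] at h5
      have e3 : K * θ / ρ * (q * ρ) = K * θ * q := by field_simp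
      rw [e3] at h6
      exact mul_le_mul h5 h6 (norm_nonneg _) (by positivity)
    have h4 := cauchy1 (c := fun j => nn K B a b 1 j) hR1 h3 1 hK1
    beta_reduce at h4
    rw [pow_one, ← le_div_iff₀ hR1] at h4
    refine h4.trans (le_of_eq ?_)
    field_simp
  -- the trace
  rw [tr_nn B hab]
  have e1 : range (K + 1) = insert 0 (insert 1 (Icc 2 K)) := by
    ext i
    simp only [mem_range, mem_insert, mem_Icc]
    omega
  rw [e1, sum_insert (by simp), sum_insert (by simp)]
  have hS : 0 < ‖a + b‖ := norm_pos_iff.2 hab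
  have hSK : 0 < ‖a + b‖ ^ K := by positivity
  set D : ℝ := ‖nn K B a b 0 0‖ / ‖a + b‖ ^ K with hD
  have hD0 : 0 ≤ D := by positivity
  have t0 : ‖nn K B a b 0 0 / ((a + b) ^ K * (-1) ^ 0 * (K.choose 0 : ℂ))‖ = D := by
    simp [hD]
  have t1 : ‖nn K B a b 1 1 / ((a + b) ^ K * (-1) ^ 1 * (K.choose 1 : ℂ))‖ ≤
      D * ((θ / ρ) * Real.exp (1 / (2 * K))) := by
    rw [norm_div, norm_mul, norm_mul, norm_pow, pow_one, norm_neg, norm_one, mul_one,
      Nat.choose_one_right, Complex.norm_natCast, div_le_iff₀ (by positivity)]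
    refine hcoef1.trans (le_of_eq ?_)
    rw [hD]; field_simp
  have t2 : ‖∑ i ∈ Icc 2 K, nn K B a b i i / ((a + b) ^ K * (-1) ^ i * (K.choose i : ℂ))‖ ≤
      D * ∑ i ∈ Icc 2 K, (2 * Real.exp 1 * (θ / ρ) * (K / i)) ^ i / K.choose i := by
    refine (norm_sum_le _ _).trans ?_
    rw [mul_sum]
    refine sum_le_sum fun i hi => ?_
    have h3 := hcoef i hi
    rw [mem_Icc] at hi
    have hC : (0 : ℝ) < K.choose i := by exact_mod_cast Nat.choose_pos hi.2
    rw [norm_div, norm_mul, norm_mul, norm_pow, norm_pow, norm_neg, norm_one, one_pow, mul_one,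
      Complex.norm_natCast, div_le_iff₀ (by positivity)]
    refine h3.trans (le_of_eq ?_)
    rw [hD]; field_simp
  have hst := sum_terms (Θ := θ / ρ) (by positivity) hθ hK
  set X := nn K B a b 0 0 / ((a + b) ^ K * (-1) ^ 0 * (K.choose 0 : ℂ)) with hX
  set Y := nn K B a b 1 1 / ((a + b) ^ K * (-1) ^ 1 * (K.choose 1 : ℂ)) with hY
  set Z := ∑ i ∈ Icc 2 K, nn K B a b i i / ((a + b) ^ K * (-1) ^ i * (K.choose i : ℂ)) with hZ
  have h5 : ‖X‖ ≤ ‖X + (Y + Z)‖ + (‖Y‖ + ‖Z‖) := by
    have h6 := norm_sub_le (X + (Y + Z)) (Y + Z)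
    rw [add_sub_cancel_right] at h6
    have h7 := norm_add_le Y Z
    linarith
  have h6 := mul_le_mul_of_nonneg_left hst hD0
  rw [mul_add] at h6
  rw [t0] at h5
  linarith

end Pool.Agent.H62.TV
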