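import Pool.Agent.H62.TV.Dyn

/-!
The points of an evaluation under a word.
-/

set_option autoImplicit false

namespace Pool.Agent.H62.TV

open Finset
open Pool.Agent.H550R3.Jones (br brf)
open Pool.Agent.Y482.CY (sb Nz)
open Pool.Agent.H62.VC (Ev Ev_cons Ev_congr Ev_mul Cone near_P near_Q)

variable {v t : ℂ} {K : ℕ} {e : ℝ}

/-- the orbit of `ζ` stays in the sector and is bounded from below and above -/
def Orb (b : ℝ) : ℂ → List Bool → Prop
  | ζ, [] => Slim ζ ∧ BB ζ ≤ b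
  | ζ, l :: w => (Slim ζ ∧ BB ζ ≤ b) ∧ Orb b (ph l ζ) w

/-- the growth of the factor -/
noncomputable def Jl : ℂ → List Bool → ℝ
  | _, [] => 1
  | ζ, l :: w => (if l then 1 + 89 / 100 * ‖ζ‖ else 1) * Jl (ph l ζ) w

lemma Orb.head {b : ℝ} {ζ : ℂ} {w : List Bool} (h : Orb b ζ w) : Slim ζ ∧ BB ζ ≤ b := by
  cases w with
  | nil => exact h
  | cons l w => exact h.1

lemma Orb.last {b : ℝ} : ∀ {w : List Bool} {ζ : ℂ}, Orb b ζ w → Slim (gw w ζ) ∧ BB (gw w ζ) ≤ b := by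
  intro w
  induction w with
  | nil => intro ζ h; exact h
  | cons l w ih => intro ζ h; exact ih h.2

lemma Jl_pos : ∀ (w : List Bool) (ζ : ℂ), 0 < Jl ζ w := by
  intro w
  induction w with
  | nil => intro ζ; simp [Jl]
  | cons l w ih =>
    intro ζ
    rw [Jl]
    refine mul_pos ?_ (ih _)
    split_ifs <;> positivity

lemma Jl_ge_one : ∀ (w : List Bool) (ζ : ℂ), 1 ≤ Jl ζ w := by
  intro w
  induction w with
  | nil => intro ζ; simp [Jl]
  | cons l w ih =>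
    intro ζ
    rw [Jl]
    refine one_le_mul_of_one_le_of_one_le ?_ (ih _)
    split_ifs
    · have := norm_nonneg ζ
      linarith
    · exact le_rfl

lemma prod_norm_ge (L : List ℂ) {a : ℝ} (ha : 0 ≤ a) (hz : ∀ z ∈ L, a ≤ z.re) :
    (1 + a) ^ L.length ≤ (L.map fun z => ‖1 + z‖).prod := by
  induction L with
  | nil => simp
  | cons z L ih =>
    rw [List.map_cons, List.prod_cons, List.length_cons, pow_succ, mul_comm]
    exact mul_le_mul (one_add_ge (hz z List.mem_cons_self))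
      (ih fun z' h => hz z' (List.mem_cons_of_mem _ h)) (by positivity) (norm_nonneg _)

/-- **the points under a word** -/
theorem Pr.word (h : Pr v t K e) {b ρ : ℝ} (hρ : 0 ≤ ρ) (hb : ρ + 18 / 5 * e * b ≤ 1 / 10) :
    ∀ (w : List Bool) (ζ : ℂ), Orb b ζ w → ∀ L : List ℂ, L.length = K →
      Cl L ζ (ρ + 18 / 5 * e * BB ζ) →
      ∃ (c : ℂ) (Ω : List ℂ), Ω.length = K ∧ (∀ y : ℕ → ℂ, Ev L (TW v t K w y) = c * Ev Ω y) ∧
        Jl ζ w ^ K ≤ ‖c‖ ∧ Cl Ω (gw w ζ) (ρ + 18 / 5 * e * BB (gw w ζ)) := by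
  have he0 := h.e0
  intro w
  induction w with
  | nil =>
    intro ζ hζ L hL hcl
    exact ⟨1, L, hL, fun y => by rw [one_mul]; rfl, by simp [Jl], hcl⟩
  | cons l w ih =>
    intro ζ hζ L hL hcl
    obtain ⟨⟨hs, hB⟩, hw⟩ := hζ
    have hδ1 : ρ + 18 / 5 * e * BB ζ ≤ 1 / 10 := by
      have : 18 / 5 * e * BB ζ ≤ 18 / 5 * e * b := mul_le_mul_of_nonneg_left hB (by positivity)
      linarith
    have hc : ∀ z ∈ L, Cone z ∧ 89 / 100 * ‖ζ‖ ≤ z.re := fun z hz => close_cone hs hδ1 (hcl z hz)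
    have hp := hs.norm_pos
    obtain ⟨c, Ω, h1, h2, h3, h4⟩ := h.step l L hL fun z hz => ⟨(hc z hz).1, by
      have := (hc z hz).2
      linarith⟩
    have hcl' : Cl Ω (ph l ζ) (ρ + 18 / 5 * e * BB (ph l ζ)) := by
      intro ω hω
      obtain ⟨z, hz, h5⟩ := h4 ω hω
      have h6 := err_step (δ := ρ + 18 / 5 * e * BB ζ) (ε := 6 / 5 * e) l hs hρ (by positivity)
        (by ring) hδ1 (hcl z hz) h5
      refine h6.trans (le_of_eq ?_)
      ring
    obtain ⟨c', Ω', g1, g2, g3, g4⟩ := ih (ph l ζ) hw Ω h1 hcl'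
    refine ⟨c * c', Ω', g1, fun y => ?_, ?_, g4⟩
    · change Ev L (Xl v K l (Dt t K (TW v t K w y))) = _
      rw [h2, g2]; ring
    · rw [Jl, mul_pow, norm_mul]
      refine mul_le_mul ?_ g3 (pow_nonneg (Jl_pos _ _).le _) (norm_nonneg _)
      rw [h3]
      cases l
      · simp
      · simp only [if_true]
        rw [← hL]
        exact prod_norm_ge L (by positivity) fun z hz => (hc z hz).2

lemma Cl_replicate {z ζ : ℂ} {δ : ℝ} (h : ‖z - ζ‖ ≤ δ * ‖ζ‖) : Cl (List.replicate K z) ζ δ := by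
  intro z' hz'
  rw [List.eq_of_mem_replicate hz']
  exact h

lemma BB_nonneg (ζ : ℂ) : 0 ≤ BB ζ := by unfold BB; positivity

lemma Cl_mono {L : List ℂ} {ζ : ℂ} {δ δ' : ℝ} (h : Cl L ζ δ) (hδ : δ ≤ δ') : Cl L ζ δ' :=
  fun z hz => (h z hz).trans (mul_le_mul_of_nonneg_right hδ (norm_nonneg _))

end Pool.Agent.H62.TV
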